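import Mathlib

section

/-!
# TASK BD UF: ultrafilters, and germs of complex sequences are an algebraically closed field

`fin_cases`: `Ultrafilter` version of: if almost all `k` lie in the union of finitely many sets then almost all lie in one of them (`Ultrafilter.eventually_or`, induction, or
`Ultrafilter.eventually_exists_mem_iff` / contradiction: otherwise `∀ᶠ k, ¬ p k i` for every `i` (`Ultrafilter.eventually_not`), so `∀ᶠ k, ∀ i, ¬ p k i` (`Filter.eventually_all`), absurd as `U` is not bottom).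

`ev_forall`: if `α` is empty it is trivial (`isEmpty_or_nonempty`); otherwise, if the claim fails, `∀ᶠ k in U, ∃ x, S k x ∧ ¬ P k x` (`Ultrafilter.eventually_not`). Choose `x k` (classical choice, arbitrary where there is none): `∀ᶠ k, S k (x k)` and
`∀ᶠ k, ¬ P k (x k)`, against the hypothesis.

`ev_forall2`, `ev_forall3`: apply `ev_forall` to a product type.

`charZero`: `((n : ℕ) : Germ U ℂ)` is the germ of the constant sequence `n`; if it is `0` then `(n : ℂ) = 0` for almost all `k`, so for one.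

`algClosed`: `IsAlgClosed.of_exists_root`: let `p` be monic irreducible, `d = p.natDegree ≥ 1`. Choose for every `j` a representative `a j : ℕ → ℂ` of `p.coeff j` (`Quotient.exists_rep`, or
`Filter.Germ.inductionOn`). For every `k` the polynomial `X ^ d + ∑ j ∈ range d, C (a j k) * X ^ j` has degree `d ≥ 1`, so it has a root `r k` (`IsAlgClosed.exists_root`). The germ of `r` is a root of `p`:
`p.eval (germ r) = (germ r) ^ d + ∑ j ∈ range d, p.coeff j * (germ r) ^ j` (`Polynomial.eval_eq_sum_range`, `p.leadingCoeff = 1`) is the germ of `k ↦ (r k) ^ d + ∑ j ∈ range d, a j k * (r k) ^ j = 0`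
(the map from sequences to germs is a ring homomorphism: `Filter.Germ.coeRingHom`).
-/

set_option autoImplicit false

open Filter

namespace Pool.Agent.BD

/-- germs of complex sequences -/
abbrev Cs (U : Ultrafilter ℕ) : Type := Filter.Germ (U : Filter ℕ) ℂ

/-- the germ of a sequence -/
def gm (U : Ultrafilter ℕ) (a : ℕ → ℂ) : Cs U := (a : Filter.Germ (U : Filter ℕ) ℂ)

theorem gm_eq {U : Ultrafilter ℕ} {a b : ℕ → ℂ} : gm U a = gm U b ↔ ∀ᶠ k in (U : Filter ℕ), a k = b k :=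
  Filter.Germ.coe_eq

theorem gm_surj {U : Ultrafilter ℕ} (z : Cs U) : ∃ a, gm U a = z := Quotient.exists_rep z

/-- the germ map is a ring homomorphism -/
def gmHom (U : Ultrafilter ℕ) : (ℕ → ℂ) →+* Cs U := Filter.Germ.coeRingHom (U : Filter ℕ)

theorem gmHom_apply (U : Ultrafilter ℕ) (a : ℕ → ℂ) : gmHom U a = gm U a := rfl

theorem gm_add (U : Ultrafilter ℕ) (a b : ℕ → ℂ) : gm U (a + b) = gm U a + gm U b := rfl

theorem gm_mul (U : Ultrafilter ℕ) (a b : ℕ → ℂ) : gm U (a * b) = gm U a * gm U b := rfl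

theorem gm_sub (U : Ultrafilter ℕ) (a b : ℕ → ℂ) : gm U (a - b) = gm U a - gm U b := rfl

theorem gm_inv (U : Ultrafilter ℕ) (a : ℕ → ℂ) : gm U (a⁻¹) = (gm U a)⁻¹ := rfl

theorem fin_cases {U : Ultrafilter ℕ} {ι : Type} [Finite ι] {p : ℕ → ι → Prop}
    (h : ∀ᶠ k in (U : Filter ℕ), ∃ i, p k i) : ∃ i, ∀ᶠ k in (U : Filter ℕ), p k i := by
  by_contra hc
  push Not at hc
  have h1 : ∀ i, ∀ᶠ k in (U : Filter ℕ), ¬ p k i := hc
  have h2 : ∀ᶠ k in (U : Filter ℕ), ∀ i, ¬ p k i := Filter.eventually_all.2 h1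
  obtain ⟨k, ⟨i, hi⟩, hk⟩ := (h.and h2).exists
  exact hk i hi

theorem ev_forall {α : Type} {U : Ultrafilter ℕ} {S : ℕ → α → Prop}
    {P : ℕ → α → Prop} (h : ∀ x : ℕ → α, (∀ᶠ k in (U : Filter ℕ), S k (x k)) →
      ∀ᶠ k in (U : Filter ℕ), P k (x k)) :
    ∀ᶠ k in (U : Filter ℕ), ∀ x, S k x → P k x := by
  classical
  rcases isEmpty_or_nonempty α with he | ⟨⟨x0⟩⟩
  · exact Filter.Eventually.of_forall fun k x => he.elim x
  by_contra hc
  have h1 : ∀ᶠ k in (U : Filter ℕ), ¬ ∀ x, S k x → P k x := Ultrafilter.eventually_not.2 hc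
  let x : ℕ → α := fun k => if hk : ∃ x, S k x ∧ ¬ P k x then hk.choose else x0
  have h2 : ∀ᶠ k in (U : Filter ℕ), S k (x k) ∧ ¬ P k (x k) := by
    filter_upwards [h1] with k hk
    have hk' : ∃ x, S k x ∧ ¬ P k x := by
      push Not at hk
      exact hk
    have hx : x k = hk'.choose := dif_pos hk'
    rw [hx]
    exact hk'.choose_spec
  have h3 := h x (h2.mono fun k hk => hk.1)
  obtain ⟨k, hk, hk'⟩ := (h2.and h3).exists
  exact hk.2 hk'

theorem ev_forall2 {α β : Type} {U : Ultrafilter ℕ}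
    {S : ℕ → α → β → Prop} {P : ℕ → α → β → Prop}
    (h : ∀ (x : ℕ → α) (y : ℕ → β), (∀ᶠ k in (U : Filter ℕ), S k (x k) (y k)) →
      ∀ᶠ k in (U : Filter ℕ), P k (x k) (y k)) :
    ∀ᶠ k in (U : Filter ℕ), ∀ x y, S k x y → P k x y := by
  have h1 := ev_forall (α := α × β) (U := U) (S := fun k z => S k z.1 z.2)
    (P := fun k z => P k z.1 z.2) fun z hz => h (fun k => (z k).1) (fun k => (z k).2) hz
  exact h1.mono fun k hk x y hxy => hk (x, y) hxy

theorem ev_forall3 {α β γ : Type} {U : Ultrafilter ℕ}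
    {S : ℕ → α → β → γ → Prop} {P : ℕ → α → β → γ → Prop}
    (h : ∀ (x : ℕ → α) (y : ℕ → β) (z : ℕ → γ), (∀ᶠ k in (U : Filter ℕ), S k (x k) (y k) (z k)) →
      ∀ᶠ k in (U : Filter ℕ), P k (x k) (y k) (z k)) :
    ∀ᶠ k in (U : Filter ℕ), ∀ x y z, S k x y z → P k x y z := by
  have h1 := ev_forall (α := α × β × γ) (U := U) (S := fun k z => S k z.1 z.2.1 z.2.2)
    (P := fun k z => P k z.1 z.2.1 z.2.2)
    fun z hz => h (fun k => (z k).1) (fun k => (z k).2.1) (fun k => (z k).2.2) hz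
  exact h1.mono fun k hk x y z hxy => hk (x, y, z) hxy

theorem charZero (U : Ultrafilter ℕ) : CharZero (Cs U) := by
  refine charZero_of_inj_zero fun n hn => ?_
  have h1 : gm U (fun _ => (n : ℂ)) = gm U (fun _ => (0 : ℂ)) := by
    have h2 : gmHom U ((n : ℕ) : ℕ → ℂ) = 0 := by
      rw [map_natCast]
      exact hn
    exact h2
  obtain ⟨k, hk⟩ := (gm_eq.1 h1).exists
  exact_mod_cast hk

theorem algClosed (U : Ultrafilter ℕ) : IsAlgClosed (Cs U) := by
  refine IsAlgClosed.of_exists_root _ fun p hp hirr => ?_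
  have hd : 0 < p.natDegree := hirr.natDegree_pos
  choose a ha using fun j => gm_surj (U := U) (p.coeff j)
  -- a root for every k
  have hroot : ∀ k, ∃ r : ℂ, r ^ p.natDegree
      + ∑ j ∈ Finset.range p.natDegree, a j k * r ^ j = 0 := by
    intro k
    let q : Polynomial ℂ := Polynomial.X ^ p.natDegree
      + ∑ j ∈ Finset.range p.natDegree, Polynomial.C (a j k) * Polynomial.X ^ j
    have hlt : (∑ j ∈ Finset.range p.natDegree,
        Polynomial.C (a j k) * Polynomial.X ^ j : Polynomial ℂ).degree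
        < (p.natDegree : WithBot ℕ) := by
      refine (Polynomial.degree_sum_le _ _).trans_lt ?_
      rw [Finset.sup_lt_iff (WithBot.bot_lt_coe _)]
      intro j hj
      refine (Polynomial.degree_C_mul_X_pow_le j (a j k)).trans_lt ?_
      exact_mod_cast Finset.mem_range.1 hj
    have hq : q.degree = (p.natDegree : WithBot ℕ) := by
      have h1 : (Polynomial.X ^ p.natDegree : Polynomial ℂ).degree
          = (p.natDegree : WithBot ℕ) := Polynomial.degree_X_pow _
      rw [← h1] at hlt ⊢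
      exact Polynomial.degree_add_eq_left_of_degree_lt hlt
    have hq0 : q.degree ≠ 0 := by
      rw [hq]
      exact_mod_cast hd.ne'
    obtain ⟨r, hr⟩ := IsAlgClosed.exists_root q hq0
    refine ⟨r, ?_⟩
    have h2 := hr.eq_zero
    simpa [q, Polynomial.eval_finsetSum] using h2
  choose r hr using hroot
  refine ⟨gm U r, ?_⟩
  have h1 : p.eval (gm U r) = gmHom U (r ^ p.natDegree
      + ∑ j ∈ Finset.range p.natDegree, a j * r ^ j) := by
    rw [map_add, map_pow, map_sum, Polynomial.eval_eq_sum_range, Finset.sum_range_succ]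
    have hl : p.coeff p.natDegree = 1 := hp
    rw [hl, one_mul, add_comm]
    congr 1
    refine Finset.sum_congr rfl fun j _ => ?_
    rw [map_mul, map_pow, gmHom_apply, gmHom_apply, ha]
  have h2 : (r ^ p.natDegree + ∑ j ∈ Finset.range p.natDegree, a j * r ^ j : ℕ → ℂ) = 0 := by
    funext k
    simpa [Finset.sum_apply] using hr k
  rw [h1, h2, map_zero]

end Pool.Agent.BD
end

section

/-!
# TASK BD HF: the field of the nonstandard rationals of small height

Write `B k = (N k : ℤ) + 2 ≥ 2`.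

`IsH.add` etc.: for `z` with `a, b, m` and `z'` with `a', b', m'`: `z + z'` is the germ of `(a b' + a' b) / (b b')`, `|a b' + a' b| ≤ 2 B ^ (m + m') ≤ B ^ (m + m' + 1)`; product
`(a a') / (b b')`; `-z`: `(-a) / b`; inverse: if `z = 0` then `z⁻¹ = 0 = 0 / 1`; otherwise `a k ≠ 0` for almost all `k` (`Filter.Germ.coe_eq`, `Ultrafilter.eventually_not`) and `z⁻¹` is the germ of
`b / a`; `0 = 0 / 1`, `1 = 1 / 1`. Integers: `n = n / 1` with `|n k| ≤ B k ^ m`.

`common_den`: choose `a j, b j, m j` for every `h j`. Let `D = ∏ j, b j`, `a' j = a j * ∏_(i ≠ j) b i`, `m' = ∑ j, m j + 1`... (all `|.| ≤ B ^ (∑ m j)`; use `B ≥ 1`).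
-/

set_option autoImplicit false

open Filter

namespace Pool.Agent.BD

/-- germs of rationals of height at most a power of `N k + 2` -/
def IsH (U : Ultrafilter ℕ) (N : ℕ → ℕ) (z : Cs U) : Prop :=
  ∃ (a b : ℕ → ℤ) (m : ℕ), (∀ᶠ k in (U : Filter ℕ), b k ≠ 0 ∧ |a k| ≤ ((N k : ℤ) + 2) ^ m ∧
    |b k| ≤ ((N k : ℤ) + 2) ^ m) ∧ z = gm U (fun k => (a k : ℂ) / (b k : ℂ))

theorem IsH.add {U : Ultrafilter ℕ} {N : ℕ → ℕ} {z z' : Cs U} (h : IsH U N z) (h' : IsH U N z') :
    IsH U N (z + z') := by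
  obtain ⟨a, b, m, hb, rfl⟩ := h
  obtain ⟨a', b', m', hb', rfl⟩ := h'
  refine ⟨fun k => a k * b' k + a' k * b k, fun k => b k * b' k, m + m' + 1, ?_, ?_⟩
  · filter_upwards [hb, hb'] with k hk hk'
    obtain ⟨h0, h1, h2⟩ := hk
    obtain ⟨h0', h1', h2'⟩ := hk'
    have hB : (2 : ℤ) ≤ (N k : ℤ) + 2 := by omega
    generalize (N k : ℤ) + 2 = B at *
    have hB0 : (0 : ℤ) ≤ B := by omega
    have hBm : 0 ≤ B ^ m := pow_nonneg hB0 m
    have hBm' : 0 ≤ B ^ m' := pow_nonneg hB0 m'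
    have hBs : 0 ≤ B ^ (m + m') := pow_nonneg hB0 _
    have e1 : |a k * b' k| ≤ B ^ (m + m') := by
      rw [abs_mul, pow_add]; exact mul_le_mul h1 h2' (abs_nonneg _) hBm
    have e2 : |a' k * b k| ≤ B ^ (m + m') := by
      rw [abs_mul, pow_add, mul_comm (B ^ m)]; exact mul_le_mul h1' h2 (abs_nonneg _) hBm'
    have e3 : |b k * b' k| ≤ B ^ (m + m') := by
      rw [abs_mul, pow_add]; exact mul_le_mul h2 h2' (abs_nonneg _) hBm
    have e4 : 2 * B ^ (m + m') ≤ B ^ (m + m' + 1) := by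
      rw [pow_succ, mul_comm 2]; exact mul_le_mul_of_nonneg_left hB hBs
    refine ⟨mul_ne_zero h0 h0', ?_, ?_⟩
    · have := abs_add_le (a k * b' k) (a' k * b k)
      linarith
    · linarith
  · rw [← gm_add, gm_eq]
    filter_upwards [hb, hb'] with k hk hk'
    have h1 : (b k : ℂ) ≠ 0 := by exact_mod_cast hk.1
    have h2 : (b' k : ℂ) ≠ 0 := by exact_mod_cast hk'.1
    simp only [Pi.add_apply]
    push_cast
    field_simp

theorem IsH.mul {U : Ultrafilter ℕ} {N : ℕ → ℕ} {z z' : Cs U} (h : IsH U N z) (h' : IsH U N z') :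
    IsH U N (z * z') := by
  obtain ⟨a, b, m, hb, rfl⟩ := h
  obtain ⟨a', b', m', hb', rfl⟩ := h'
  refine ⟨fun k => a k * a' k, fun k => b k * b' k, m + m', ?_, ?_⟩
  · filter_upwards [hb, hb'] with k hk hk'
    obtain ⟨h0, h1, h2⟩ := hk
    obtain ⟨h0', h1', h2'⟩ := hk'
    have hB : (2 : ℤ) ≤ (N k : ℤ) + 2 := by omega
    generalize (N k : ℤ) + 2 = B at *
    have hB0 : (0 : ℤ) ≤ B := by omega
    have hBm : 0 ≤ B ^ m := pow_nonneg hB0 m
    refine ⟨mul_ne_zero h0 h0', ?_, ?_⟩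
    · rw [abs_mul, pow_add]; exact mul_le_mul h1 h1' (abs_nonneg _) hBm
    · rw [abs_mul, pow_add]; exact mul_le_mul h2 h2' (abs_nonneg _) hBm
  · rw [← gm_mul, gm_eq]
    filter_upwards with k
    simp only [Pi.mul_apply]
    push_cast
    rw [div_mul_div_comm]

theorem IsH.neg {U : Ultrafilter ℕ} {N : ℕ → ℕ} {z : Cs U} (h : IsH U N z) : IsH U N (-z) := by
  obtain ⟨a, b, m, hb, rfl⟩ := h
  refine ⟨fun k => - a k, b, m, ?_, ?_⟩
  · filter_upwards [hb] with k hk
    refine ⟨hk.1, ?_, hk.2.2⟩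
    rw [abs_neg]; exact hk.2.1
  · have : - gm U (fun k => (a k : ℂ) / (b k : ℂ)) =
        gm U (- (fun k => (a k : ℂ) / (b k : ℂ))) := rfl
    rw [this, gm_eq]
    filter_upwards with k
    simp only [Pi.neg_apply]
    push_cast
    rw [neg_div]

theorem IsH.inv {U : Ultrafilter ℕ} {N : ℕ → ℕ} {z : Cs U} (h : IsH U N z) : IsH U N z⁻¹ := by
  obtain ⟨a, b, m, hb, rfl⟩ := h
  by_cases hz : ∀ᶠ k in (U : Filter ℕ), a k = 0
  · refine ⟨fun _ => 0, fun _ => 1, 0, ?_, ?_⟩
    · filter_upwards with k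
      simp
    · rw [← gm_inv, gm_eq]
      filter_upwards [hz] with k hk
      simp [hk]
  · have hz' : ∀ᶠ k in (U : Filter ℕ), a k ≠ 0 := Ultrafilter.eventually_not.2 hz
    refine ⟨b, a, m, ?_, ?_⟩
    · filter_upwards [hb, hz'] with k hk hk'
      exact ⟨hk', hk.2.2, hk.2.1⟩
    · rw [← gm_inv, gm_eq]
      filter_upwards with k
      simp only [Pi.inv_apply]
      rw [inv_div]

theorem IsH.zero (U : Ultrafilter ℕ) (N : ℕ → ℕ) : IsH U N 0 := by
  refine ⟨fun _ => 0, fun _ => 1, 0, ?_, ?_⟩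
  · filter_upwards with k
    simp
  · have : (0 : Cs U) = gm U 0 := rfl
    rw [this, gm_eq]
    filter_upwards with k
    simp

theorem IsH.one (U : Ultrafilter ℕ) (N : ℕ → ℕ) : IsH U N 1 := by
  refine ⟨fun _ => 1, fun _ => 1, 0, ?_, ?_⟩
  · filter_upwards with k
    simp
  · have : (1 : Cs U) = gm U 1 := rfl
    rw [this, gm_eq]
    filter_upwards with k
    simp

/-- the field of the germs of rationals of small height -/
def HF (U : Ultrafilter ℕ) (N : ℕ → ℕ) : Subfield (Cs U) where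
  carrier := {z | IsH U N z}
  mul_mem' := IsH.mul
  one_mem' := IsH.one U N
  add_mem' := IsH.add
  zero_mem' := IsH.zero U N
  neg_mem' := IsH.neg
  inv_mem' := fun _ => IsH.inv

theorem mem_HF {U : Ultrafilter ℕ} {N : ℕ → ℕ} {z : Cs U} : z ∈ HF U N ↔ IsH U N z := Iff.rfl

theorem common_den {U : Ultrafilter ℕ} {N : ℕ → ℕ} {ι : Type} [Finite ι] (h : ι → Cs U)
    (hh : ∀ j, h j ∈ HF U N) : ∃ (a : ι → ℕ → ℤ) (D : ℕ → ℤ) (m : ℕ),
      (∀ᶠ k in (U : Filter ℕ), D k ≠ 0 ∧ |D k| ≤ ((N k : ℤ) + 2) ^ m ∧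
        ∀ j, |a j k| ≤ ((N k : ℤ) + 2) ^ m) ∧
      ∀ j, h j = gm U (fun k => (a j k : ℂ) / (D k : ℂ)) := by
  classical
  have := Fintype.ofFinite ι
  choose a b m hab he using (fun j => (hh j : IsH U N (h j)))
  have hall : ∀ᶠ k in (U : Filter ℕ), ∀ j, b j k ≠ 0 ∧ |a j k| ≤ ((N k : ℤ) + 2) ^ (m j) ∧
      |b j k| ≤ ((N k : ℤ) + 2) ^ (m j) := Filter.eventually_all.2 hab
  refine ⟨fun j k => a j k * ∏ i ∈ Finset.univ.erase j, b i k, fun k => ∏ j, b j k,
    ∑ j, m j, ?_, ?_⟩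
  · filter_upwards [hall] with k hk
    have hB : (2 : ℤ) ≤ (N k : ℤ) + 2 := by omega
    generalize (N k : ℤ) + 2 = B at *
    have hB0 : (0 : ℤ) ≤ B := by omega
    refine ⟨Finset.prod_ne_zero_iff.2 (fun j _ => (hk j).1), ?_, ?_⟩
    · rw [Finset.abs_prod, ← Finset.prod_pow_eq_pow_sum]
      exact Finset.prod_le_prod (fun j _ => abs_nonneg _) (fun j _ => (hk j).2.2)
    · intro j
      rw [abs_mul, Finset.abs_prod, ← Finset.add_sum_erase Finset.univ m (Finset.mem_univ j),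
        pow_add, ← Finset.prod_pow_eq_pow_sum]
      refine mul_le_mul (hk j).2.1 ?_ ?_ (pow_nonneg hB0 _)
      · exact Finset.prod_le_prod (fun j _ => abs_nonneg _) (fun j _ => (hk j).2.2)
      · exact Finset.prod_nonneg (fun j _ => abs_nonneg _)
  · intro j
    rw [he j, gm_eq]
    filter_upwards [hall] with k hk
    have h1 : ∀ i, (b i k : ℂ) ≠ 0 := fun i => by exact_mod_cast (hk i).1
    have h2 : (∏ i ∈ Finset.univ.erase j, (b i k : ℂ)) ≠ 0 :=
      Finset.prod_ne_zero_iff.2 (fun i _ => h1 i)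
    push_cast
    rw [← Finset.mul_prod_erase Finset.univ (fun i => (b i k : ℂ)) (Finset.mem_univ j)]
    rw [mul_div_mul_right _ _ h2]

end Pool.Agent.BD
end

section

/-!
# TASK BD WF: weak Freiman theorem, and the index lemma

`weak_freiman`. Let `w ∈ W`. By induction on `j` there are for every `j` a function `n j : Fin r → ℕ` with `∑ i, n j i = j` and `u j ∈ W` with `(j + 1) • w = ∑ i, n j i • f i + u j`
(`u 0 = w`; `(j + 2) w = ∑ n j i f i + (u j + w)` and `u j + w = f i' + w''`: add `1` to the coordinate `i'`); the `n j i` are nondecreasing in `j`, and `n j i ≤ j`. Among `u 0, ..., u N` (`N = W.card`) two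
coincide, `u j = u j'` with `j < j' ≤ N` (`Finset.exists_ne_map_eq_of_card_lt_of_maps_to`); subtract: `(j' - j) • w = ∑ (n j' i - n j i) • f i`, `1 ≤ j' - j ≤ N`, `|n j' i - n j i| ≤ N`.

`index_lemma`. Let `π : M → M ⧸ A` and `T = W.image (π ∘ ψ)`, a finite set which is nonempty, closed under addition and negation, so the carrier of a finite subgroup `Γ` of `M ⧸ A` with
`q = Nat.card Γ = T.card ≤ W.card` elements, `q ≥ 1`. `q • γ = 0` for `γ ∈ Γ` (`card_nsmul_eq_zero'`), so `q • ψ w ∈ A`.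
-/

set_option autoImplicit false

namespace Pool.Agent.BD

theorem weak_freiman {M : Type} [AddCommGroup M] {r : ℕ} {W : Finset M} {f : Fin r → M}
    (hadd : ∀ w ∈ W, ∀ w' ∈ W, ∃ i, ∃ w'' ∈ W, w + w' = f i + w'') {w : M} (hw : w ∈ W) :
    ∃ (q : ℕ) (n : Fin r → ℤ), 1 ≤ q ∧ q ≤ W.card ∧ (∀ i, |n i| ≤ W.card) ∧
      q • w = ∑ i, n i • f i := by
  classical
  obtain ⟨i0, _⟩ := hadd w hw w hw
  have hne : Nonempty (Fin r) := ⟨i0⟩
  have hne2 : Nonempty M := ⟨0⟩
  choose! i g hg using hadd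
  let st : ℕ → (Fin r → ℕ) × M := fun j => Nat.rec (fun _ => 0, w)
    (fun _ s => (fun k => s.1 k + if k = i s.2 w then 1 else 0, g s.2 w)) j
  have hst : ∀ j, st (j + 1) = (fun k => (st j).1 k + if k = i (st j).2 w then 1 else 0, g (st j).2 w) :=
    fun j => rfl
  have hu : ∀ j, (st j).2 ∈ W := by
    intro j
    induction j with
    | zero => exact hw
    | succ j ih =>
      rw [hst]
      exact (hg _ ih w hw).1
  have heq : ∀ j, (j + 1) • w = ∑ k, (st j).1 k • f k + (st j).2 := by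
    intro j
    induction j with
    | zero =>
      have h0 : st 0 = (fun _ => 0, w) := rfl
      rw [h0]
      simp
    | succ j ih =>
      rw [hst, succ_nsmul, ih, add_assoc, (hg _ (hu j) w hw).2, ← add_assoc]
      congr 1
      simp only [add_smul, Finset.sum_add_distrib, ite_smul, one_smul, zero_smul,
        Finset.sum_ite_eq', Finset.mem_univ, if_true]
  have hmono : ∀ k, Monotone (fun j => (st j).1 k) := by
    intro k
    refine monotone_nat_of_le_succ fun j => ?_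
    rw [hst]
    simp only
    omega
  have hle : ∀ j k, (st j).1 k ≤ j := by
    intro j k
    induction j with
    | zero => exact le_refl _
    | succ j ih =>
      rw [hst]
      simp only
      split_ifs <;> omega
  obtain ⟨a, ha, b, hb, hab, hEq⟩ := Finset.exists_ne_map_eq_of_card_lt_of_maps_to
    (s := Finset.range (W.card + 1)) (t := W) (f := fun j => (st j).2)
    (by rw [Finset.card_range]; omega) (fun j _ => hu j)
  have key : ∀ a b : ℕ, a < b → b ≤ W.card → (st a).2 = (st b).2 →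
      ∃ (q : ℕ) (n : Fin r → ℤ), 1 ≤ q ∧ q ≤ W.card ∧ (∀ i, |n i| ≤ W.card) ∧ q • w = ∑ i, n i • f i := by
    intro a b hlt hbW hE
    refine ⟨b - a, fun k => ((st b).1 k : ℤ) - ((st a).1 k : ℤ), by omega, by omega, ?_, ?_⟩
    · intro k
      have h1 : (st a).1 k ≤ (st b).1 k := hmono k hlt.le
      have h2 := hle b k
      show |((st b).1 k : ℤ) - ((st a).1 k : ℤ)| ≤ (W.card : ℤ)
      rw [abs_of_nonneg (by omega)]
      omega
    · have h1 := heq b
      have h2 := heq a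
      rw [← hE] at h1
      have h3 : (b + 1) • w = (b - a) • w + (a + 1) • w := by
        rw [← add_nsmul]
        congr 1
        omega
      rw [h3, h2] at h1
      have h4 : (b - a) • w + ∑ k, (st a).1 k • f k = ∑ k, (st b).1 k • f k := by
        apply add_right_cancel (b := (st a).2)
        rw [← h1]
        abel
      have h5 : (b - a) • w = ∑ k, (st b).1 k • f k - ∑ k, (st a).1 k • f k := by
        rw [← h4]
        abel
      rw [h5, ← Finset.sum_sub_distrib]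
      refine Finset.sum_congr rfl fun k _ => ?_
      rw [sub_smul, natCast_zsmul, natCast_zsmul]
  rw [Finset.mem_range] at ha hb
  rcases lt_or_gt_of_ne hab with h | h
  · exact key a b h (by omega) hEq
  · exact key b a h (by omega) hEq.symm

theorem index_lemma {M' M : Type} [AddCommGroup M'] [AddCommGroup M] (A : AddSubgroup M)
    {W : Finset M'} (hW : W.Nonempty) (ψ : M' → M)
    (hneg : ∀ w ∈ W, ∃ w' ∈ W, ψ w + ψ w' ∈ A)
    (hadd : ∀ w ∈ W, ∀ w' ∈ W, ∃ w'' ∈ W, ψ w + ψ w' - ψ w'' ∈ A) :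
    ∃ q : ℕ, 1 ≤ q ∧ q ≤ W.card ∧ ∀ w ∈ W, q • ψ w ∈ A := by
  classical
  let T : Finset (M ⧸ A) := W.image (fun w => (QuotientAddGroup.mk (ψ w) : M ⧸ A))
  have hT : ∀ x, x ∈ T ↔ ∃ w ∈ W, (QuotientAddGroup.mk (ψ w) : M ⧸ A) = x := fun x => Finset.mem_image
  have haddT : ∀ x ∈ T, ∀ y ∈ T, x + y ∈ T := by
    intro x hx y hy
    obtain ⟨w, hw, rfl⟩ := (hT x).1 hx
    obtain ⟨w', hw', rfl⟩ := (hT y).1 hy
    obtain ⟨w'', hw'', h⟩ := hadd w hw w' hw'
    rw [hT]
    refine ⟨w'', hw'', ?_⟩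
    have h1 : (QuotientAddGroup.mk (ψ w + ψ w' - ψ w'') : M ⧸ A) = 0 :=
      (QuotientAddGroup.eq_zero_iff _).2 h
    rw [QuotientAddGroup.mk_sub, QuotientAddGroup.mk_add, sub_eq_zero] at h1
    exact h1.symm
  have hnegT : ∀ x ∈ T, -x ∈ T := by
    intro x hx
    obtain ⟨w, hw, rfl⟩ := (hT x).1 hx
    obtain ⟨w', hw', h⟩ := hneg w hw
    rw [hT]
    refine ⟨w', hw', ?_⟩
    have h1 : (QuotientAddGroup.mk (ψ w + ψ w') : M ⧸ A) = 0 := (QuotientAddGroup.eq_zero_iff _).2 h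
    rw [QuotientAddGroup.mk_add] at h1
    exact (neg_eq_of_add_eq_zero_right h1).symm
  have hzero : (0 : M ⧸ A) ∈ T := by
    obtain ⟨w, hw⟩ := hW
    have h1 : (QuotientAddGroup.mk (ψ w) : M ⧸ A) ∈ T := (hT _).2 ⟨w, hw, rfl⟩
    have h2 := haddT _ h1 _ (hnegT _ h1)
    rwa [add_neg_cancel] at h2
  let Γ : AddSubgroup (M ⧸ A) :=
    { carrier := (T : Set (M ⧸ A))
      add_mem' := fun {x y} hx hy => Finset.mem_coe.2 (haddT x (Finset.mem_coe.1 hx) y (Finset.mem_coe.1 hy))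
      zero_mem' := Finset.mem_coe.2 hzero
      neg_mem' := fun {x} hx => Finset.mem_coe.2 (hnegT x (Finset.mem_coe.1 hx)) }
  have hmem : ∀ x, x ∈ Γ ↔ x ∈ T := fun x => Iff.rfl
  have hcard : Nat.card Γ = T.card := by
    have h1 : Nat.card Γ = Nat.card (T : Set (M ⧸ A)) := rfl
    rw [h1, Nat.card_coe_set_eq, Set.ncard_coe_finset]
  refine ⟨T.card, ?_, Finset.card_image_le, ?_⟩
  · exact Finset.card_pos.2 ⟨0, hzero⟩
  · intro w hw
    have h1 : (QuotientAddGroup.mk (ψ w) : M ⧸ A) ∈ T := (hT _).2 ⟨w, hw, rfl⟩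
    have h2 : Nat.card Γ • (⟨_, (hmem _).2 h1⟩ : Γ) = 0 := card_nsmul_eq_zero'
    have h3 := congrArg (fun z : Γ => (z : M ⧸ A)) h2
    simp only [AddSubgroup.coe_nsmul, ZeroMemClass.coe_zero] at h3
    rw [hcard] at h3
    rw [← QuotientAddGroup.eq_zero_iff]
    exact h3

end Pool.Agent.BD
end

section

/-!
# TASK BD C1: sequences of elements of W and the H-space V

`coef_mem`: `gm (n k (a k) i / q k (a k))` is in `H` with `m = 1` (`|n| ≤ N k`, `1 ≤ q ≤ N k` for the `k` with `a k ∈ W k`; use `N k ≤ (N k + 2) ^ 1`).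

`gm_a`: for almost all `k`, `a k = ∑ i, (n k (a k) i / q k (a k)) * f i k` (`d.hq`, divide by `q ≠ 0`); the germ map is a ring homomorphism.

`mem_V`: from `gm_a` and `coef_mem` (`Submodule.sum_mem`, `Submodule.smul_mem`; the action of `h : H` on `z : Cs` is `(h : Cs) * z`).

`lin`: `Λ ⟨gm a, _⟩ = ∑ i, coef_i * Λ ⟨F i, _⟩ = ∑ i, coef_i * gm (g i) = gm (ψ ..)`: linearity of `Λ` over `H`, then `gm` is a ring homomorphism.
-/

set_option autoImplicit false

open Filter

namespace Pool.Agent.BD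

/-- The data of a sequence of counterexamples. -/
structure Dat (r : ℕ) where
  U : Ultrafilter ℕ
  W : ℕ → Finset ℂ
  f : Fin r → ℕ → ℂ
  s : ℕ → ℂ
  t : ℕ → ℂ
  c : ℕ → ℂ
  sym : ∀ k, ∀ w ∈ W k, -w ∈ W k
  add : ∀ k, ∀ w ∈ W k, ∀ w' ∈ W k, ∃ i, ∃ w'' ∈ W k, w + w' = f i k + w''
  ne : ∀ k, c k ≠ 0
  big : ∀ n : ℕ, ∀ᶠ k in (U : Filter ℕ), n ≤ (W k).card
  q : ℕ → ℂ → ℕ
  n : ℕ → ℂ → Fin r → ℤ
  hq : ∀ k, ∀ w ∈ W k, 1 ≤ q k w ∧ q k w ≤ (W k).card ∧ (∀ i, |n k w i| ≤ ((W k).card : ℤ)) ∧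
    (q k w : ℂ) * w = ∑ i, (n k w i : ℂ) * f i k

variable {r : ℕ} (d : Dat r)

/-- the number of elements -/
def Dat.N (k : ℕ) : ℕ := (d.W k).card

/-- the field -/
abbrev Dat.H : Subfield (Cs d.U) := HF d.U d.N

/-- the germ of `f i` -/
def Dat.F (i : Fin r) : Cs d.U := gm d.U (d.f i)

/-- the space -/
noncomputable def Dat.V : Submodule d.H (Cs d.U) := Submodule.span d.H (Set.range d.F)

theorem Dat.F_mem (i : Fin r) : d.F i ∈ d.V := Submodule.subset_span (Set.mem_range_self i)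

/-- the specialised value of `w` -/
noncomputable def Dat.psi (g : Fin r → ℕ → ℂ) (k : ℕ) (w : ℂ) : ℂ :=
  ∑ i, ((d.n k w i : ℂ) / (d.q k w : ℂ)) * g i k

theorem Dat.coef_mem {a : ℕ → ℂ} (ha : ∀ᶠ k in (d.U : Filter ℕ), a k ∈ d.W k) (i : Fin r) :
    gm d.U (fun k => (d.n k (a k) i : ℂ) / (d.q k (a k) : ℂ)) ∈ d.H := by
  refine mem_HF.2 ⟨fun k => d.n k (a k) i, fun k => (d.q k (a k) : ℤ), 1, ?_, ?_⟩
  · filter_upwards [ha] with k hk
    obtain ⟨h1, h2, h3, _⟩ := d.hq k (a k) hk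
    have h4 := h3 i
    have hN : d.N k = (d.W k).card := rfl
    rw [pow_one, hN]
    refine ⟨by omega, by omega, ?_⟩
    rw [abs_of_nonneg (by omega)]
    omega
  · have h1 : (fun k => (d.n k (a k) i : ℂ) / (d.q k (a k) : ℂ)) =
        fun k => (d.n k (a k) i : ℂ) / (((d.q k (a k) : ℕ) : ℤ) : ℂ) := by
      funext k
      rw [Int.cast_natCast]
    rw [h1]

private theorem C1_sum (U : Ultrafilter ℕ) (c g : Fin r → ℕ → ℂ) :
    ∑ i, gm U (c i) * gm U (g i) = gm U (fun k => ∑ i, c i k * g i k) := by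
  have h1 : (fun k => ∑ i, c i k * g i k) = ∑ i, c i * g i := by
    funext k
    rw [Finset.sum_apply]
    rfl
  rw [h1, ← gmHom_apply, map_sum]
  refine Finset.sum_congr rfl fun i _ => ?_
  rw [map_mul]
  rfl

theorem Dat.gm_a {a : ℕ → ℂ} (ha : ∀ᶠ k in (d.U : Filter ℕ), a k ∈ d.W k) :
    gm d.U a = ∑ i, gm d.U (fun k => (d.n k (a k) i : ℂ) / (d.q k (a k) : ℂ)) * d.F i := by
  have h0 := C1_sum d.U (fun i k => (d.n k (a k) i : ℂ) / (d.q k (a k) : ℂ)) d.f
  have h1 : ∑ i, gm d.U (fun k => (d.n k (a k) i : ℂ) / (d.q k (a k) : ℂ)) * d.F i =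
      gm d.U (fun k => ∑ i, (d.n k (a k) i : ℂ) / (d.q k (a k) : ℂ) * d.f i k) := h0
  rw [h1, gm_eq]
  filter_upwards [ha] with k hk
  obtain ⟨h2, _, _, h3⟩ := d.hq k (a k) hk
  have hq : (d.q k (a k) : ℂ) ≠ 0 := Nat.cast_ne_zero.2 (by omega)
  have h4 : a k = (d.q k (a k) : ℂ)⁻¹ * ((d.q k (a k) : ℂ) * a k) := by
    rw [← mul_assoc, inv_mul_cancel₀ hq, one_mul]
  calc a k = (d.q k (a k) : ℂ)⁻¹ * ((d.q k (a k) : ℂ) * a k) := h4
    _ = ∑ i, (d.n k (a k) i : ℂ) / (d.q k (a k) : ℂ) * d.f i k := by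
        rw [h3, Finset.mul_sum]
        refine Finset.sum_congr rfl fun i _ => ?_
        rw [div_eq_mul_inv]
        ring

theorem Dat.mem_V {a : ℕ → ℂ} (ha : ∀ᶠ k in (d.U : Filter ℕ), a k ∈ d.W k) : gm d.U a ∈ d.V := by
  rw [d.gm_a ha]
  refine Submodule.sum_mem _ fun i _ => ?_
  exact Submodule.smul_mem d.V (⟨_, d.coef_mem ha i⟩ : d.H) (d.F_mem i)

theorem Dat.lin {a : ℕ → ℂ} (ha : ∀ᶠ k in (d.U : Filter ℕ), a k ∈ d.W k) (Λ : d.V →ₗ[d.H] Cs d.U)
    {g : Fin r → ℕ → ℂ} (hg : ∀ i, Λ ⟨d.F i, d.F_mem i⟩ = gm d.U (g i)) :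
    Λ ⟨gm d.U a, d.mem_V ha⟩ = gm d.U (fun k => d.psi g k (a k)) := by
  have h1 : (⟨gm d.U a, d.mem_V ha⟩ : d.V) =
      ∑ i, (⟨_, d.coef_mem ha i⟩ : d.H) • (⟨d.F i, d.F_mem i⟩ : d.V) := by
    apply Subtype.ext
    rw [Submodule.coe_sum]
    exact d.gm_a ha
  have h2 : Λ ⟨gm d.U a, d.mem_V ha⟩ =
      ∑ i, gm d.U (fun k => (d.n k (a k) i : ℂ) / (d.q k (a k) : ℂ)) * gm d.U (g i) := by
    rw [h1, map_sum]
    refine Finset.sum_congr rfl fun i _ => ?_
    rw [map_smul, hg i]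
    rfl
  rw [h2]
  exact C1_sum d.U (fun i k => (d.n k (a k) i : ℂ) / (d.q k (a k) : ℂ)) g

end Pool.Agent.BD
end

section

/-!
# TASK BD IA: integer polynomials in an algebraic number

`cauchy_bound`. If `‖z‖ ≤ 1` clear. Let `x = ‖z‖ > 1`. `δ ≥ 1` (for `δ = 0` the equation says `G 0 = 0`). `x ^ δ ≤ ‖G_δ z ^ δ‖ = ‖∑_(j < δ) G_j z ^ j‖ ≤ M ∑_(j < δ) x ^ j = M (x ^ δ - 1) / (x - 1) ≤ M x ^ δ / (x - 1)`
(`Fin.sum_univ_castSucc`, `geom_sum_eq`), so `x - 1 ≤ M`.

`norm_ev_le`: every term is at most `M (1 + M) ^ δ`.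

`integral_ev`. `x = G_δ θ` is integral over `ℤ`: `isIntegral_leadingCoeff_smul` for the polynomial `P = ∑ j, C (G j) * X ^ j` with `P.leadingCoeff = G_δ` (its degree is `δ`), or directly: multiply the equation by
`G_δ ^ (δ - 1)`: `x ^ δ + ∑_(j < δ) G_j G_δ ^ (δ - 1 - j) x ^ j = 0`. Then `G_δ ^ δ ∑ A_j θ ^ j = ∑ A_j G_δ ^ (δ - j) x ^ j` is integral.
-/

set_option autoImplicit false

namespace Pool.Agent.BD

/-- value of an integer polynomial -/
def ev {F : Type} [Field F] {δ : ℕ} (A : Fin (δ + 1) → ℤ) (θ : F) : F := ∑ j, (A j : F) * θ ^ (j : ℕ)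

theorem map_ev {F F' : Type} [Field F] [Field F'] (σ : F →+* F') {δ : ℕ} (A : Fin (δ + 1) → ℤ)
    (θ : F) : σ (ev A θ) = ev A (σ θ) := by
  unfold ev
  rw [map_sum]
  simp only [map_mul, map_intCast, map_pow]

theorem cauchy_bound {δ : ℕ} {G : Fin (δ + 1) → ℤ} {z : ℂ} {M : ℝ} (hM : 1 ≤ M)
    (hG : G (Fin.last δ) ≠ 0) (hGM : ∀ j, (|G j| : ℝ) ≤ M) (hz : ev G z = 0) : ‖z‖ ≤ 1 + M := by
  by_contra hcon
  push Not at hcon
  set x := ‖z‖ with hx
  have hx1 : 1 < x := by linarith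
  unfold ev at hz
  rw [Fin.sum_univ_castSucc] at hz
  have h1 : ((G (Fin.last δ) : ℤ) : ℂ) * z ^ ((Fin.last δ : Fin (δ + 1)) : ℕ)
      = - ∑ j : Fin δ, ((G j.castSucc : ℤ) : ℂ) * z ^ ((j.castSucc : Fin (δ + 1)) : ℕ) :=
    eq_neg_of_add_eq_zero_right hz
  have h2 : ‖((G (Fin.last δ) : ℤ) : ℂ) * z ^ ((Fin.last δ : Fin (δ + 1)) : ℕ)‖
      ≤ ∑ j : Fin δ, M * x ^ (j : ℕ) := by
    rw [h1, norm_neg]
    refine (norm_sum_le _ _).trans ?_
    refine Finset.sum_le_sum ?_
    intro j _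
    rw [norm_mul, norm_pow, Complex.norm_intCast, Fin.val_castSucc]
    exact mul_le_mul_of_nonneg_right (hGM _) (pow_nonneg (norm_nonneg z) _)
  rw [norm_mul, norm_pow, Complex.norm_intCast, Fin.val_last, ← Finset.mul_sum,
    Fin.sum_univ_eq_sum_range (fun j => x ^ j) δ] at h2
  have hG1 : (1 : ℝ) ≤ |((G (Fin.last δ) : ℤ) : ℝ)| := by
    have : (1 : ℤ) ≤ |G (Fin.last δ)| := Int.one_le_abs hG
    exact_mod_cast this
  have hgs : (∑ j ∈ Finset.range δ, x ^ j) * (x - 1) = x ^ δ - 1 := geom_sum_mul x δ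
  have hxd : 0 < x ^ δ := pow_pos (by linarith) δ
  have h3 : x ^ δ ≤ M * ∑ j ∈ Finset.range δ, x ^ j := by
    refine le_trans ?_ h2
    have := mul_le_mul_of_nonneg_right hG1 hxd.le
    simpa using this
  have h4 : x ^ δ * (x - 1) ≤ M * (x ^ δ - 1) := by
    have := mul_le_mul_of_nonneg_right h3 (by linarith : (0 : ℝ) ≤ x - 1)
    rw [mul_assoc, hgs] at this
    exact this
  have h5 : x ^ δ * (x - 1) < x ^ δ * M := by nlinarith
  have h6 : x - 1 < M := lt_of_mul_lt_mul_left h5 hxd.le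
  linarith

theorem norm_ev_le {δ : ℕ} {A : Fin (δ + 1) → ℤ} {z : ℂ} {M : ℝ} (hM : 1 ≤ M)
    (hA : ∀ j, (|A j| : ℝ) ≤ M) (hz : ‖z‖ ≤ 1 + M) : ‖ev A z‖ ≤ (δ + 1) * M * (1 + M) ^ δ := by
  unfold ev
  refine (norm_sum_le _ _).trans ?_
  have h : ∀ j ∈ (Finset.univ : Finset (Fin (δ + 1))),
      ‖((A j : ℤ) : ℂ) * z ^ (j : ℕ)‖ ≤ M * (1 + M) ^ δ := by
    intro j _
    rw [norm_mul, norm_pow, Complex.norm_intCast]
    refine mul_le_mul (hA j) ?_ (pow_nonneg (norm_nonneg z) _) (by linarith)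
    refine (pow_le_pow_left₀ (norm_nonneg z) hz _).trans ?_
    exact pow_le_pow_right₀ (by linarith) (Nat.lt_succ_iff.1 j.2)
  refine (Finset.sum_le_card_nsmul _ _ _ h).trans ?_
  rw [Finset.card_univ, Fintype.card_fin, nsmul_eq_mul]
  push_cast
  rw [mul_assoc]

theorem integral_ev {F : Type} [Field F] [CharZero F] {δ : ℕ} {G : Fin (δ + 1) → ℤ} {θ : F}
    (hG : G (Fin.last δ) ≠ 0) (hz : ev G θ = 0) (A : Fin (δ + 1) → ℤ) :
    IsIntegral ℤ ((G (Fin.last δ) : F) ^ δ * ev A θ) := by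
  classical
  set P : Polynomial ℤ := ∑ j : Fin (δ + 1), Polynomial.C (G j) * Polynomial.X ^ (j : ℕ) with hP
  have hcoeff : P.coeff δ = G (Fin.last δ) := by
    rw [hP, Polynomial.finsetSum_coeff]
    rw [Finset.sum_eq_single (Fin.last δ)]
    · rw [Polynomial.coeff_C_mul_X_pow]
      simp
    · intro j _ hj
      rw [Polynomial.coeff_C_mul_X_pow]
      have : δ ≠ (j : ℕ) := by
        intro h
        apply hj
        apply Fin.ext
        simp [h]
      simp [this]
    · intro h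
      exact absurd (Finset.mem_univ _) h
  have hdeg : P.natDegree ≤ δ := by
    rw [hP]
    refine Polynomial.natDegree_sum_le_of_forall_le _ _ ?_
    intro j _
    exact (Polynomial.natDegree_C_mul_X_pow_le _ _).trans (Nat.lt_succ_iff.1 j.2)
  have hnat : P.natDegree = δ := by
    refine le_antisymm hdeg (Polynomial.le_natDegree_of_ne_zero ?_)
    rw [hcoeff]
    exact hG
  have hlead : P.leadingCoeff = G (Fin.last δ) := by
    rw [Polynomial.leadingCoeff, hnat, hcoeff]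
  have haev : Polynomial.aeval θ P = 0 := by
    rw [hP, map_sum]
    rw [← hz]
    unfold ev
    refine Finset.sum_congr rfl ?_
    intro j _
    simp
  have hint : IsIntegral ℤ ((G (Fin.last δ) : F) * θ) := by
    have h := isIntegral_leadingCoeff_smul P θ haev
    rw [hlead] at h
    simpa [zsmul_eq_mul] using h
  have hsum : (G (Fin.last δ) : F) ^ δ * ev A θ
      = ∑ j : Fin (δ + 1), (A j : F) * (G (Fin.last δ) : F) ^ (δ - (j : ℕ))
          * ((G (Fin.last δ) : F) * θ) ^ (j : ℕ) := by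
    unfold ev
    rw [Finset.mul_sum]
    refine Finset.sum_congr rfl ?_
    intro j _
    have hj : (j : ℕ) ≤ δ := Nat.lt_succ_iff.1 j.2
    have : (G (Fin.last δ) : F) ^ δ
        = (G (Fin.last δ) : F) ^ (δ - (j : ℕ)) * (G (Fin.last δ) : F) ^ (j : ℕ) := by
      rw [← pow_add, Nat.sub_add_cancel hj]
    rw [this, mul_pow]
    ring
  rw [hsum]
  refine IsIntegral.sum _ ?_
  intro j _
  refine IsIntegral.mul (IsIntegral.mul ?_ (IsIntegral.pow ?_ _)) (IsIntegral.pow hint _)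
  · exact isIntegral_algebraMap (R := ℤ) (A := F) (x := A j)
  · exact isIntegral_algebraMap (R := ℤ) (A := F) (x := G (Fin.last δ))

end Pool.Agent.BD
end

section

/-!
# TASK BD SP: specialisation (Zariski's lemma)

PROOF. Let `R = Algebra.adjoin H S`, a nontrivial commutative ring, `Algebra.FiniteType H R` (`Subalgebra.fg_adjoin_finset`, `Subalgebra.fg_iff_finiteType`). Take a maximal ideal `M` of `R`
(`Ideal.exists_maximal`), `F = R ⧸ M` is a field (`Ideal.Quotient.field`), `Algebra.FiniteType H F` (`Algebra.FiniteType.of_surjective`), so `Module.Finite H F` by Zariski's lemma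
(`finite_of_finite_type_of_isJacobsonRing`; a field is a Jacobson ring). Hence `F` is algebraic over `H` and there is `e : F →ₐ[H] Ω` (`IsAlgClosed.lift`). Let
`φ = e.comp (Ideal.Quotient.mkₐ H M)`. Primitive element (`Field.exists_primitive_element H F`; characteristic zero gives separability): `H⟮α⟯ = ⊤`. Put `θ = e α`, `g = minpoly H α`,
`δ = g.natDegree`, `G j = g.coeff j` (`G (Fin.last δ) = 1 ≠ 0`): `∑ j, G j * θ ^ j = e (aeval α g) = 0`. Every element of `F` is `aeval α p` with `p.natDegree < δ` or `p.natDegree ≤ δ`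
(`IntermediateField.adjoin.powerBasis`, or `p %ₘ g`), so `φ z = ∑ j, p_j θ ^ j` with `p_j = p.coeff j ∈ H`.
-/

set_option autoImplicit false

namespace Pool.Agent.BD

theorem exists_spec {Ω : Type} [Field Ω] [IsAlgClosed Ω] [CharZero Ω] (H : Subfield Ω)
    (S : Finset Ω) : ∃ (φ : Algebra.adjoin H (S : Set Ω) →ₐ[H] Ω) (θ : Ω) (δ : ℕ)
      (G : Fin (δ + 1) → Ω), (∀ j, G j ∈ H) ∧ G (Fin.last δ) ≠ 0 ∧ ∑ j, G j * θ ^ (j : ℕ) = 0 ∧
      ∀ z, ∃ p : Fin (δ + 1) → Ω, (∀ j, p j ∈ H) ∧ φ z = ∑ j, p j * θ ^ (j : ℕ) := by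
  classical
  have hft : Algebra.FiniteType H (Algebra.adjoin H (S : Set Ω)) :=
    (Subalgebra.fg_iff_finiteType _).1 (Subalgebra.fg_adjoin_finset S)
  obtain ⟨M, hM⟩ := Ideal.exists_maximal (Algebra.adjoin H (S : Set Ω))
  let _ : Field (Algebra.adjoin H (S : Set Ω) ⧸ M) := Ideal.Quotient.field M
  have hft' : Algebra.FiniteType H (Algebra.adjoin H (S : Set Ω) ⧸ M) :=
    Algebra.FiniteType.of_surjective (Ideal.Quotient.mkₐ H M) (Ideal.Quotient.mkₐ_surjective H M)
  have _ : Module.Finite H (Algebra.adjoin H (S : Set Ω) ⧸ M) :=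
    finite_of_finite_type_of_isJacobsonRing H (Algebra.adjoin H (S : Set Ω) ⧸ M)
  have _ : Algebra.IsAlgebraic H (Algebra.adjoin H (S : Set Ω) ⧸ M) :=
    Algebra.IsAlgebraic.of_finite H _
  let e : (Algebra.adjoin H (S : Set Ω) ⧸ M) →ₐ[H] Ω := IsAlgClosed.lift
  obtain ⟨α, hα⟩ := Field.exists_primitive_element H (Algebra.adjoin H (S : Set Ω) ⧸ M)
  have hint : IsIntegral H α := Algebra.IsIntegral.isIntegral α
  have hsum : ∀ p : Polynomial H, p.natDegree ≤ (minpoly H α).natDegree →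
      ∑ j : Fin ((minpoly H α).natDegree + 1), (p.coeff j : Ω) * (e α) ^ (j : ℕ) =
        e (Polynomial.aeval α p) := by
    intro p hp
    rw [← Polynomial.aeval_algHom_apply, Polynomial.aeval_eq_sum_range' (Nat.lt_succ_of_le hp),
      Finset.sum_range]
    refine Finset.sum_congr rfl fun j _ => ?_
    rw [Algebra.smul_def]
    rfl
  refine ⟨e.comp (Ideal.Quotient.mkₐ H M), e α, (minpoly H α).natDegree,
    fun j => ((minpoly H α).coeff j : Ω), fun j => ((minpoly H α).coeff j).2, ?_, ?_, ?_⟩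
  · have h1 : (minpoly H α).coeff ((Fin.last (minpoly H α).natDegree : Fin _) : ℕ) = 1 :=
      (minpoly.monic hint).coeff_natDegree
    change ((minpoly H α).coeff ((Fin.last (minpoly H α).natDegree : Fin _) : ℕ) : Ω) ≠ 0
    rw [h1]
    exact one_ne_zero
  · rw [hsum _ le_rfl, minpoly.aeval, map_zero]
  · intro z
    have hz : Ideal.Quotient.mkₐ H M z ∈ (⊤ : IntermediateField H _) := trivial
    rw [← hα, ← IntermediateField.mem_toSubalgebra,
      IntermediateField.adjoin_simple_toSubalgebra_of_isAlgebraic hint.isAlgebraic,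
      Algebra.adjoin_singleton_eq_range_aeval] at hz
    obtain ⟨q, hq⟩ := hz
    refine ⟨fun j => ((q %ₘ minpoly H α).coeff j : Ω), fun j => ((q %ₘ minpoly H α).coeff j).2, ?_⟩
    rw [hsum _ (Polynomial.natDegree_modByMonic_le _ (minpoly.monic hint))]
    have h2 : Polynomial.aeval α (q %ₘ minpoly H α) = Polynomial.aeval α q :=
      Polynomial.aeval_modByMonic_eq_self_of_root (minpoly.aeval H α)
    rw [h2]
    change e (Ideal.Quotient.mkₐ H M z) = e (Polynomial.aeval α q)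
    rw [← hq]
    rfl

end Pool.Agent.BD
end

section

/-!
# TASK BD NA: the number of ideals that divide an ideal of a number field

PROOF of `card_primes_le`. The elements of `S` are pairwise coprime (distinct maximal ideals; nonzero because they contain `p ≠ 0`), so their product divides
`span {p}`, and `∏ absNorm P ∣ absNorm (span {p}) = p ^ finrank ℚ K` (`Ideal.absNorm_span_singleton`, `Algebra.norm_algebraMap` for `ℤ`). Each `absNorm P` divides
`p ^ n` and is not `1`, so it is `p ^ k` with `k ≥ 1` (`Nat.dvd_prime_pow`), so `p ≤ absNorm P` and `p ^ #S ≤ ∏ absNorm P ≤ p ^ n`; hence `#S ≤ n`.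

PROOF of `card_dvd_le`. Let `n = absNorm J ≠ 0`, `M = UniqueFactorizationMonoid.normalizedFactors J`. The map `I ↦ normalizedFactors I` is injective on nonzero ideals
(product of the factors, ideals have only one unit) and `normalizedFactors I ≤ M` for `I ∣ J`; so `#S ≤ (Finset.Iic M).card = ∏ P ∈ M.toFinset, (M.count P + 1)`
(`Multiset.card_Iic`). For `P ∈ M.toFinset`: `P` is prime, `absNorm P ∈ P` (`Ideal.absNorm_mem`), so some prime number `pr P ∣ absNorm P` lies in `P` (a prime ideal that contains a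
product contains a factor; `absNorm P ≠ 0`, induct on the prime factors). `P ^ (M.count P) ∣ J`, so `(pr P) ^ (M.count P) ∣ (absNorm P) ^ (M.count P) ∣ n` and
`M.count P ≤ n.factorization (pr P)`, `pr P ∈ n.primeFactors` (as `M.count P ≥ 1`). Group the product by `pr P` (`Finset.prod_fiberwise_of_maps_to`): every fibre has at most
`finrank ℚ K` elements by `card_primes_le`, so `∏ ≤ ∏ p ∈ n.primeFactors, (n.factorization p + 1) ^ finrank = (n.divisors.card) ^ finrank` (`Nat.card_divisors`).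
-/

set_option autoImplicit false

open NumberField

namespace Pool.Agent.BD

theorem card_primes_le {K : Type} [Field K] [NumberField K] {p : ℕ} (hp : p.Prime)
    (S : Finset (Ideal (𝓞 K))) (hS : ∀ P ∈ S, P.IsPrime ∧ (p : 𝓞 K) ∈ P) :
    S.card ≤ Module.finrank ℚ K := by
  classical
  have hp0 : (p : 𝓞 K) ≠ 0 := by
    exact_mod_cast hp.ne_zero
  have hne : ∀ P ∈ S, P ≠ ⊥ := by
    intro P hP h
    have h2 := (hS P hP).2
    rw [h, Ideal.mem_bot] at h2
    exact hp0 h2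
  have hprime : ∀ P ∈ S, Prime P := fun P hP =>
    Ideal.prime_of_isPrime (hne P hP) (hS P hP).1
  have hdvd : (∏ P ∈ S, P) ∣ Ideal.span {(p : 𝓞 K)} := by
    refine Finset.prod_primes_dvd _ hprime ?_
    intro P hP
    rw [Ideal.dvd_span_singleton]
    exact (hS P hP).2
  have hle : Ideal.absNorm (∏ P ∈ S, P) ∣ Ideal.absNorm (Ideal.span {(p : 𝓞 K)}) :=
    map_dvd Ideal.absNorm hdvd
  rw [Ideal.absNorm_span_natCast, RingOfIntegers.rank, map_prod] at hle
  have hge : ∀ P ∈ S, p ≤ Ideal.absNorm P := by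
    intro P hP
    have h1 : Ideal.absNorm P ∣ p ^ Module.finrank ℚ K :=
      (Finset.dvd_prod_of_mem _ hP).trans hle
    obtain ⟨k, -, hk⟩ := (Nat.dvd_prime_pow hp).1 h1
    have hk0 : k ≠ 0 := by
      intro h0
      rw [h0, pow_zero] at hk
      exact (hS P hP).1.ne_top (Ideal.absNorm_eq_one_iff.1 hk)
    rw [hk]
    exact Nat.le_self_pow hk0 p
  have hpow : p ^ S.card ≤ ∏ P ∈ S, Ideal.absNorm P := by
    have := Finset.prod_le_prod' (s := S) (f := fun _ => p) (g := fun P => Ideal.absNorm P) hge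
    simpa using this
  have hfin : p ^ S.card ≤ p ^ Module.finrank ℚ K :=
    hpow.trans (Nat.le_of_dvd (pow_pos hp.pos _) hle)
  exact (Nat.pow_le_pow_iff_right hp.one_lt).1 hfin

/-- A prime ideal that contains a nonzero natural number contains a prime divisor of it. -/
private theorem NA_exists_prime {K : Type} [Field K] [NumberField K] (P : Ideal (𝓞 K))
    (hP : P.IsPrime) (n : ℕ) (hn : n ≠ 0) (h : (n : 𝓞 K) ∈ P) :
    ∃ p : ℕ, p.Prime ∧ p ∣ n ∧ (p : 𝓞 K) ∈ P := by
  induction n using Nat.recOnMul with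
  | zero => exact absurd rfl hn
  | one =>
    exfalso
    apply hP.ne_top
    rw [Ideal.eq_top_iff_one]
    simpa using h
  | prime p hp => exact ⟨p, hp, dvd_rfl, h⟩
  | mul a b iha ihb =>
    rw [Nat.cast_mul] at h
    rcases hP.mem_or_mem h with h1 | h1
    · obtain ⟨p, hp, hd, hm⟩ := iha (left_ne_zero_of_mul hn) h1
      exact ⟨p, hp, hd.trans (dvd_mul_right _ _), hm⟩
    · obtain ⟨p, hp, hd, hm⟩ := ihb (right_ne_zero_of_mul hn) h1
      exact ⟨p, hp, hd.trans (dvd_mul_left _ _), hm⟩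

theorem card_dvd_le {K : Type} [Field K] [NumberField K] {J : Ideal (𝓞 K)} (hJ : J ≠ ⊥)
    (S : Finset (Ideal (𝓞 K))) (hS : ∀ I ∈ S, I ∣ J) :
    S.card ≤ ((Ideal.absNorm J).divisors.card) ^ (Module.finrank ℚ K) := by
  classical
  set n := Ideal.absNorm J with hn
  have hn0 : n ≠ 0 := by
    intro h
    exact hJ (Ideal.absNorm_eq_zero_iff.1 h)
  set M := UniqueFactorizationMonoid.normalizedFactors J with hM
  have hJ0 : J ≠ 0 := hJ
  have hI0 : ∀ I ∈ S, I ≠ 0 := by
    intro I hI h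
    have h1 := hS I hI
    rw [h, zero_dvd_iff] at h1
    exact hJ0 h1
  have hcard : S.card ≤ (Finset.Iic M).card := by
    refine Finset.card_le_card_of_injOn
      (fun I => UniqueFactorizationMonoid.normalizedFactors I) ?_ ?_
    · intro I hI
      have hI' : I ∈ S := hI
      simp only [Finset.coe_Iic, Set.mem_Iic]
      exact (UniqueFactorizationMonoid.dvd_iff_normalizedFactors_le_normalizedFactors
        (hI0 I hI') hJ0).1 (hS I hI')
    · intro I hI I' hI' h
      have h1 := UniqueFactorizationMonoid.prod_normalizedFactors_eq (hI0 I hI)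
      have h2 := UniqueFactorizationMonoid.prod_normalizedFactors_eq (hI0 I' hI')
      simp only at h
      rw [h] at h1
      have h3 : normalize I = normalize I' := by rw [← h1, ← h2]
      simpa using h3
  rw [Multiset.card_Iic] at hcard
  have hPp : ∀ P ∈ M.toFinset, ∃ p : ℕ, p.Prime ∧ p ∣ Ideal.absNorm P ∧ (p : 𝓞 K) ∈ P := by
    intro P hP
    have hPM : P ∈ M := Multiset.mem_toFinset.1 hP
    have hPpr : Prime P := UniqueFactorizationMonoid.prime_of_normalized_factor P hPM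
    have hP0 : Ideal.absNorm P ≠ 0 := by
      intro h
      exact hPpr.ne_zero (Ideal.absNorm_eq_zero_iff.1 h)
    exact NA_exists_prime P (Ideal.isPrime_of_prime hPpr) _ hP0 (Ideal.absNorm_mem P)
  choose! pr hpr1 hpr2 hpr3 using hPp
  have hpow : ∀ P ∈ M.toFinset, (pr P) ^ (M.count P) ∣ n := by
    intro P hP
    have hd : P ^ (M.count P) ∣ J := by
      have h1 : Multiset.replicate (M.count P) P ≤ M := Multiset.le_count_iff_replicate_le.1 le_rfl
      have h2 := Multiset.prod_dvd_prod_of_le h1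
      rw [Multiset.prod_replicate] at h2
      exact h2.trans (UniqueFactorizationMonoid.prod_normalizedFactors hJ0).dvd
    have h3 : Ideal.absNorm (P ^ (M.count P)) ∣ Ideal.absNorm J := map_dvd Ideal.absNorm hd
    rw [map_pow] at h3
    exact (pow_dvd_pow_of_dvd (hpr2 P hP) _).trans h3
  have hcount : ∀ P ∈ M.toFinset, M.count P ≤ n.factorization (pr P) := by
    intro P hP
    exact ((hpr1 P hP).pow_dvd_iff_le_factorization hn0).1 (hpow P hP)
  have hmaps : ∀ P ∈ M.toFinset, pr P ∈ n.primeFactors := by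
    intro P hP
    rw [Nat.mem_primeFactors]
    refine ⟨hpr1 P hP, ?_, hn0⟩
    have h1 : 1 ≤ M.count P := Multiset.one_le_count_iff_mem.2 (Multiset.mem_toFinset.1 hP)
    have h2 : (pr P) ^ 1 ∣ (pr P) ^ (M.count P) := pow_dvd_pow _ h1
    rw [pow_one] at h2
    exact h2.trans (hpow P hP)
  calc S.card ≤ ∏ P ∈ M.toFinset, (M.count P + 1) := hcard
    _ ≤ ∏ P ∈ M.toFinset, (n.factorization (pr P) + 1) := by
        refine Finset.prod_le_prod' ?_
        intro P hP
        exact Nat.add_le_add_right (hcount P hP) 1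
    _ = ∏ p ∈ n.primeFactors, ∏ P ∈ M.toFinset with pr P = p, (n.factorization (pr P) + 1) := by
        rw [Finset.prod_fiberwise_of_maps_to hmaps]
    _ ≤ ∏ p ∈ n.primeFactors, (n.factorization p + 1) ^ (Module.finrank ℚ K) := by
        refine Finset.prod_le_prod' ?_
        intro p hp
        have h1 : ∏ P ∈ M.toFinset with pr P = p, (n.factorization (pr P) + 1)
            = (n.factorization p + 1) ^ (M.toFinset.filter (fun P => pr P = p)).card := by
          rw [← Finset.prod_const]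
          refine Finset.prod_congr rfl ?_
          intro P hP
          rw [(Finset.mem_filter.1 hP).2]
        rw [h1]
        refine Nat.pow_le_pow_right (Nat.succ_pos _) ?_
        refine card_primes_le (Nat.prime_of_mem_primeFactors hp) _ ?_
        intro P hP
        obtain ⟨hP1, hP2⟩ := Finset.mem_filter.1 hP
        refine ⟨Ideal.isPrime_of_prime
          (UniqueFactorizationMonoid.prime_of_normalized_factor P (Multiset.mem_toFinset.1 hP1)), ?_⟩
        rw [← hP2]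
        exact hpr3 P hP1
    _ = (n.divisors.card) ^ (Module.finrank ℚ K) := by
        rw [Nat.card_divisors hn0, Finset.prod_pow]

end Pool.Agent.BD
end
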