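import Mathlib
import Pool.Agent.Lib.MP_d807e3_co.Mg.G001
import Pool.Agent.Lib.MP_d807e3_co.Divisors

section

/-!
# TASK BD NB: few algebraic integers of bounded degree with bounded conjugates

PROOF. Let `M = max B 1 ^ δ * 2 ^ δ`. For `x ∈ S` let `P = minpoly ℤ x` (`x` is integral over `ℤ`; `minpoly ℚ (x : K) = P.map (Int.castRingHom ℚ)`,
`minpoly.isIntegrallyClosed_eq_field_fractions`): `P` is monic of degree `≤ finrank ℚ K ≤ δ` (`minpoly.natDegree_le`) and `|P.coeff i| ≤ M` for all `i`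
(`NumberField.Embeddings.coeff_bdd_of_norm_le` with `A = ℂ`: the bound is `max B 1 ^ finrank * choose finrank (finrank / 2)`, and `choose n (n / 2) ≤ 2 ^ n`). Map `x` to the vector
`(P.coeff i)_(i : Fin (δ + 1))`, which lies in a box with at most `(2 ⌈M⌉₊ + 1) ^ (δ + 1)` elements (`Fintype.piFinset`, `Finset.Icc (-M') M'`). Two `x` with the same vector have the same
`P` (degree `≤ δ`), and `P` has at most `δ` roots in `K` (`Polynomial.card_roots'` for `P.map`). So `S.card ≤ δ * (2 ⌈M⌉₊ + 1) ^ (δ + 1)` (`Finset.card_le_mul_card_image`).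
-/

set_option autoImplicit false

open NumberField

namespace Pool.Agent.BD

/-- The coefficients of the minimal polynomial are bounded. -/
private lemma NB_coeff (δ : ℕ) (B : ℝ) (K : Type) [Field K] [NumberField K]
    (hK : Module.finrank ℚ K ≤ δ) (x : 𝓞 K) (hx : ∀ σ : K →+* ℂ, ‖σ (x : K)‖ ≤ B) (i : ℕ) :
    |(minpoly ℤ (x : K)).coeff i| ≤ (⌈max B 1 ^ δ * 2 ^ δ⌉₊ : ℤ) := by
  have hint : IsIntegral ℤ (x : K) := x.isIntegral_coe
  have h1 := Embeddings.coeff_bdd_of_norm_le (K := K) (A := ℂ) (x := (x : K)) hx i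
  rw [minpoly.isIntegrallyClosed_eq_field_fractions' ℚ hint, Polynomial.coeff_map] at h1
  have h2 : ‖(algebraMap ℤ ℚ) ((minpoly ℤ (x : K)).coeff i)‖ =
      ((|(minpoly ℤ (x : K)).coeff i| : ℤ) : ℝ) := by
    rw [eq_intCast, Int.cast_abs, Int.norm_cast_rat]
    exact Int.norm_eq_abs _
  rw [h2] at h1
  have h3 : max B 1 ^ Module.finrank ℚ K * ((Module.finrank ℚ K).choose (Module.finrank ℚ K / 2) : ℝ) ≤
      max B 1 ^ δ * 2 ^ δ := by
    have hB : 1 ≤ max B 1 := le_max_right _ _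
    refine mul_le_mul (pow_le_pow_right₀ hB hK) ?_ (Nat.cast_nonneg _) (by positivity)
    have h4 : (Module.finrank ℚ K).choose (Module.finrank ℚ K / 2) ≤ 2 ^ Module.finrank ℚ K :=
      Nat.choose_le_two_pow _ _
    calc ((Module.finrank ℚ K).choose (Module.finrank ℚ K / 2) : ℝ) ≤ 2 ^ Module.finrank ℚ K := by
          exact_mod_cast h4
      _ ≤ 2 ^ δ := pow_le_pow_right₀ one_le_two hK
  have h5 : ((|(minpoly ℤ (x : K)).coeff i| : ℤ) : ℝ) ≤ ((⌈max B 1 ^ δ * 2 ^ δ⌉₊ : ℤ) : ℝ) := by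
    refine (h1.trans h3).trans ?_
    have := Nat.le_ceil (max B 1 ^ δ * 2 ^ δ)
    exact_mod_cast this
  exact_mod_cast h5

private lemma NB_deg (δ : ℕ) (K : Type) [Field K] [NumberField K]
    (hK : Module.finrank ℚ K ≤ δ) (x : 𝓞 K) : (minpoly ℤ (x : K)).natDegree ≤ δ := by
  have hint : IsIntegral ℤ (x : K) := x.isIntegral_coe
  have h1 : (minpoly ℚ (x : K)).natDegree ≤ Module.finrank ℚ K := minpoly.natDegree_le _
  rw [minpoly.isIntegrallyClosed_eq_field_fractions' ℚ hint,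
    (minpoly.monic hint).natDegree_map] at h1
  exact h1.trans hK

theorem northcott (δ : ℕ) (B : ℝ) : ∃ C : ℕ, ∀ (K : Type) [Field K] [NumberField K],
    Module.finrank ℚ K ≤ δ → ∀ S : Finset (𝓞 K),
      (∀ x ∈ S, ∀ σ : K →+* ℂ, ‖σ (x : K)‖ ≤ B) → S.card ≤ C := by
  classical
  refine ⟨δ * (2 * ⌈max B 1 ^ δ * 2 ^ δ⌉₊ + 1) ^ (δ + 1), ?_⟩
  intro K _ _ hK S hS
  let f : 𝓞 K → (Fin (δ + 1) → ℤ) := fun x i => (minpoly ℤ (x : K)).coeff i
  have hfib : ∀ a ∈ S.image f, (S.filter fun x => f x = a).card ≤ δ := by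
    intro a ha
    obtain ⟨x₀, hx₀, rfl⟩ := Finset.mem_image.1 ha
    have hint : IsIntegral ℤ (x₀ : K) := x₀.isIntegral_coe
    have hsame : ∀ x ∈ S.filter (fun x => f x = f x₀), minpoly ℤ (x : K) = minpoly ℤ (x₀ : K) := by
      intro x hx
      have h1 : f x = f x₀ := (Finset.mem_filter.1 hx).2
      ext i
      by_cases hi : i < δ + 1
      · exact congrFun h1 ⟨i, hi⟩
      · rw [Polynomial.coeff_eq_zero_of_natDegree_lt (by
            have := NB_deg δ K hK x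
            omega),
          Polynomial.coeff_eq_zero_of_natDegree_lt (by
            have := NB_deg δ K hK x₀
            omega)]
    have hne : (minpoly ℤ (x₀ : K)).map (algebraMap ℤ K) ≠ 0 :=
      ((minpoly.monic hint).map _).ne_zero
    have h2 : (S.filter fun x => f x = f x₀).card ≤
        ((minpoly ℤ (x₀ : K)).map (algebraMap ℤ K)).roots.toFinset.card := by
      refine Finset.card_le_card_of_injOn (fun x => (x : K)) ?_ ?_
      · intro x hx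
        have hx' : x ∈ S.filter (fun x => f x = f x₀) := hx
        rw [Finset.mem_coe, Multiset.mem_toFinset, Polynomial.mem_roots hne, Polynomial.IsRoot.def,
          Polynomial.eval_map_algebraMap, ← hsame x hx']
        exact minpoly.aeval ℤ (x : K)
      · intro x _ y _ hxy
        exact RingOfIntegers.ext hxy
    refine h2.trans ((Multiset.toFinset_card_le _).trans ((Polynomial.card_roots' _).trans ?_))
    rw [(minpoly.monic hint).natDegree_map]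
    exact NB_deg δ K hK x₀
  have himg : (S.image f).card ≤ (2 * ⌈max B 1 ^ δ * 2 ^ δ⌉₊ + 1) ^ (δ + 1) := by
    have h1 : S.image f ⊆ Fintype.piFinset (fun _ : Fin (δ + 1) =>
        Finset.Icc (-(⌈max B 1 ^ δ * 2 ^ δ⌉₊ : ℤ)) ⌈max B 1 ^ δ * 2 ^ δ⌉₊) := by
      intro a ha
      obtain ⟨x, hx, rfl⟩ := Finset.mem_image.1 ha
      rw [Fintype.mem_piFinset]
      intro i
      rw [Finset.mem_Icc]
      exact abs_le.1 (NB_coeff δ B K hK x (hS x hx) i)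
    refine (Finset.card_le_card h1).trans (le_of_eq ?_)
    rw [Fintype.card_piFinset, Finset.prod_const, Finset.card_univ, Fintype.card_fin, Int.card_Icc]
    congr 1
    omega
  calc S.card ≤ δ * (S.image f).card := Finset.card_le_mul_card_image S δ hfib
    _ ≤ δ * (2 * ⌈max B 1 ^ δ * 2 ^ δ⌉₊ + 1) ^ (δ + 1) := Nat.mul_le_mul_left _ himg

end Pool.Agent.BD
end

section

/-!
# TASK BD NC: few generators of the same ideal with bounded conjugates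

PROOF of `norm_lower`. `1 ≤ |Algebra.norm ℤ c|` (nonzero integer) `= ∏ τ, ‖τ c‖` (`Algebra.norm_eq_prod_embeddings` for `ℚ`, `K`, `ℂ`; the embeddings `K →ₐ[ℚ] ℂ` are the ring
homomorphisms). All factors are `≤ H ^ 2` (`c = x y`) so for each `σ`: `1 ≤ ‖σ c‖ * (H ^ 2) ^ (finrank - 1)`; as `‖σ y‖ ≤ H`, `1 ≤ ‖σ x‖ * H * (H ^ 2) ^ (finrank - 1) ≤ ‖σ x‖ * H ^ (2 * δ)`.

PROOF of `fibre`. Let `C₀` be the constant of `northcott δ (Real.exp 1)`, `l = Real.log H ≥ 0`. For `x ∈ X` and `σ` let `v x σ = ⌊Real.log ‖σ x‖⌋`; by `norm_lower`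
`-2 δ l ≤ log ‖σ x‖ ≤ l`, so `v x σ` is one of at most `(2 δ + 1) l + 2` integers, and the vectors `v x` (functions on the finite type `K →+* ℂ` with `finrank ℚ K ≤ δ` elements,
`NumberField.Embeddings.card`) are at most `((2 δ + 1) l + 2) ^ δ` in number. If `v x = v x'` then `‖σ x‖ ≤ e ‖σ x'‖` for all `σ`. Fix `x'` in a fibre of `v`; for `x` in the same fibre `x = u x'` with a unit `u`
(`Ideal.span_singleton_eq_span_singleton`, associated), all `‖σ u‖ ≤ e`, and `x ↦ u` is injective; so the fibre has at most `C₀` elements.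
So `X.card ≤ C₀ * ((2 δ + 1) l + 2) ^ δ`; finally `l ≤ H ^ ε' / ε'` (`Real.log_le_rpow_div`) with `ε' = ε / (δ + 1)` gives the claim with some `C`.
-/

set_option autoImplicit false

open NumberField

namespace Pool.Agent.BD

private theorem NC_prod {K : Type} [Field K] [NumberField K] {x : 𝓞 K} (hx : x ≠ 0) :
    1 ≤ ∏ τ : K →+* ℂ, ‖τ (x : K)‖ := by
  have h1 := Algebra.norm_eq_prod_embeddings ℚ ℂ (x : K)
  have h2 : ‖(algebraMap ℚ ℂ) (Algebra.norm ℚ (x : K))‖ = ∏ τ : K →+* ℂ, ‖τ (x : K)‖ := by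
    rw [h1, norm_prod, ← Fintype.prod_equiv (RingHom.equivRatAlgHom K ℂ) (fun f => ‖f (x : K)‖)
      (fun φ => ‖φ (x : K)‖) fun _ => by simp [RingHom.equivRatAlgHom_apply]]
  rw [← h2, ← Algebra.coe_norm_int]
  have h3 : Algebra.norm ℤ x ≠ 0 := Algebra.norm_ne_zero_iff.mpr hx
  have h4 : (1 : ℤ) ≤ |Algebra.norm ℤ x| := Int.one_le_abs h3
  have h5 : ‖(algebraMap ℚ ℂ) ((Algebra.norm ℤ x : ℤ) : ℚ)‖ = ((|Algebra.norm ℤ x| : ℤ) : ℝ) := by
    rw [map_intCast, Complex.norm_intCast, Int.cast_abs]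
  rw [h5]
  exact_mod_cast h4

theorem norm_lower {K : Type} [Field K] [NumberField K] {δ : ℕ} (hδ : Module.finrank ℚ K ≤ δ)
    {H : ℝ} (hH : 1 ≤ H) {x y : 𝓞 K} (hx : x ≠ 0) (hy : y ≠ 0)
    (h : ∀ σ : K →+* ℂ, ‖σ (x : K)‖ ≤ H ∧ ‖σ (y : K)‖ ≤ H) (σ : K →+* ℂ) :
    1 ≤ ‖σ (x : K)‖ * H ^ (2 * δ) := by
  classical
  have h1 := NC_prod hx
  rw [← Finset.mul_prod_erase Finset.univ _ (Finset.mem_univ σ)] at h1
  refine h1.trans (mul_le_mul_of_nonneg_left ?_ (norm_nonneg _))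
  have h2 : ∏ τ ∈ Finset.univ.erase σ, ‖τ (x : K)‖ ≤ ∏ _τ ∈ (Finset.univ : Finset (K →+* ℂ)).erase σ, H :=
    Finset.prod_le_prod (fun _ _ => norm_nonneg _) fun τ _ => (h τ).1
  refine h2.trans ?_
  rw [Finset.prod_const]
  refine pow_le_pow_right₀ hH ?_
  have h3 : ((Finset.univ : Finset (K →+* ℂ)).erase σ).card ≤ Fintype.card (K →+* ℂ) :=
    (Finset.card_erase_le).trans_eq Finset.card_univ
  rw [NumberField.Embeddings.card K ℂ] at h3
  omega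

theorem fibre (δ : ℕ) {ε : ℝ} (hε : 0 < ε) : ∃ C : ℝ, 1 ≤ C ∧
    ∀ (K : Type) [Field K] [NumberField K], Module.finrank ℚ K ≤ δ → ∀ (H : ℝ), 1 ≤ H →
    ∀ (X : Finset (𝓞 K)), (∀ x ∈ X, x ≠ 0 ∧ ∃ y : 𝓞 K, y ≠ 0 ∧
      ∀ σ : K →+* ℂ, ‖σ (x : K)‖ ≤ H ∧ ‖σ (y : K)‖ ≤ H) →
    (∀ x ∈ X, ∀ x' ∈ X, Ideal.span {x} = Ideal.span {x'}) → (X.card : ℝ) ≤ C * H ^ ε := by
  classical
  obtain ⟨C₀, hC₀⟩ := northcott δ (Real.exp 1)
  set ε' : ℝ := ε / (δ + 1) with hε'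
  have hδ1 : (0 : ℝ) < (δ : ℝ) + 1 := by positivity
  have hε'0 : 0 < ε' := div_pos hε hδ1
  set D : ℝ := (2 * δ + 1) / ε' + 2 with hD
  have hD1 : 1 ≤ D := by
    have : 0 ≤ (2 * (δ : ℝ) + 1) / ε' := by positivity
    linarith
  refine ⟨(C₀ + 1) * D ^ δ, ?_, ?_⟩
  · have h1 : (1 : ℝ) ≤ (C₀ : ℝ) + 1 := by
      have : (0 : ℝ) ≤ C₀ := Nat.cast_nonneg _
      linarith
    exact one_le_mul_of_one_le_of_one_le h1 (one_le_pow₀ hD1)
  · intro K _ _ hK H hH X hX hI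
    set l : ℝ := Real.log H with hl
    have hl0 : 0 ≤ l := Real.log_nonneg hH
    have hHpos : 0 < H := by linarith
    have hpos : ∀ x ∈ X, ∀ σ : K →+* ℂ, 0 < ‖σ (x : K)‖ := by
      intro x hx σ
      rw [norm_pos_iff, map_ne_zero]
      exact RingOfIntegers.coe_ne_zero_iff.mpr (hX x hx).1
    have hlow : ∀ x ∈ X, ∀ σ : K →+* ℂ, -(2 * δ * l) ≤ Real.log ‖σ (x : K)‖ := by
      intro x hx σ
      obtain ⟨hx0, y, hy0, hy⟩ := hX x hx
      have h1 := norm_lower hK hH hx0 hy0 hy σ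
      have h2 := Real.log_le_log one_pos h1
      rw [Real.log_one, Real.log_mul (hpos x hx σ).ne' (pow_pos hHpos _).ne', Real.log_pow] at h2
      push_cast at h2
      rw [hl]
      linarith
    have hup : ∀ x ∈ X, ∀ σ : K →+* ℂ, Real.log ‖σ (x : K)‖ ≤ l := by
      intro x hx σ
      obtain ⟨hx0, y, hy0, hy⟩ := hX x hx
      exact Real.log_le_log (hpos x hx σ) (hy σ).1
    let v : 𝓞 K → (K →+* ℂ) → ℤ := fun x σ => ⌊Real.log ‖σ (x : K)‖⌋
    have hcard1 : X.card ≤ C₀ * (X.image v).card := by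
      refine Finset.card_le_mul_card_image X C₀ fun a _ => ?_
      rcases (X.filter fun x => v x = a).eq_empty_or_nonempty with he | ⟨x', hx'⟩
      · rw [he]
        simp
      · rw [Finset.mem_filter] at hx'
        have hu : ∀ x ∈ X.filter (fun x => v x = a), ∃ u : 𝓞 K, x = x' * u ∧
            ∀ σ : K →+* ℂ, ‖σ (u : K)‖ ≤ Real.exp 1 := by
          intro x hx
          rw [Finset.mem_filter] at hx
          obtain ⟨u, hu⟩ := Ideal.span_singleton_eq_span_singleton.mp (hI x' hx'.1 x hx.1)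
          refine ⟨(u : 𝓞 K), hu.symm, fun σ => ?_⟩
          have h1 : ‖σ (x : K)‖ = ‖σ (x' : K)‖ * ‖σ (((u : 𝓞 K)) : K)‖ := by
            rw [← hu, ← norm_mul, ← map_mul]
            rfl
          have h2 : v x σ = v x' σ := by rw [hx.2, hx'.2]
          have h3 : Real.log ‖σ (x : K)‖ < Real.log ‖σ (x' : K)‖ + 1 := by
            have h4 := Int.lt_floor_add_one (Real.log ‖σ (x : K)‖)
            have h5 := Int.floor_le (Real.log ‖σ (x' : K)‖)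
            have h6 : ((⌊Real.log ‖σ (x : K)‖⌋ : ℤ) : ℝ) = ((⌊Real.log ‖σ (x' : K)‖⌋ : ℤ) : ℝ) :=
              congrArg _ h2
            linarith
          have h7 : ‖σ (x : K)‖ ≤ ‖σ (x' : K)‖ * Real.exp 1 := by
            have h8 := Real.exp_le_exp.mpr h3.le
            rwa [Real.exp_add, Real.exp_log (hpos x hx.1 σ), Real.exp_log (hpos x' hx'.1 σ)] at h8
          rw [h1] at h7
          exact le_of_mul_le_mul_left h7 (hpos x' hx'.1 σ)
        choose! u hu1 hu2 using hu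
        have hinj : Set.InjOn u (X.filter (fun x => v x = a) : Finset (𝓞 K)) := by
          intro x hx y hy hxy
          rw [hu1 x hx, hu1 y hy, hxy]
        rw [← Finset.card_image_of_injOn hinj]
        refine hC₀ K hK _ fun y hy => ?_
        rw [Finset.mem_image] at hy
        obtain ⟨x, hx, rfl⟩ := hy
        exact hu2 x hx
    have hcard2 : ((X.image v).card : ℝ) ≤ ((2 * δ + 1) * l + 2) ^ δ := by
      have hsub : X.image v ⊆ Fintype.piFinset fun _ : K →+* ℂ => Finset.Icc ⌊-(2 * δ * l)⌋ ⌊l⌋ := by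
        intro a ha
        rw [Finset.mem_image] at ha
        obtain ⟨x, hx, rfl⟩ := ha
        rw [Fintype.mem_piFinset]
        intro σ
        rw [Finset.mem_Icc]
        exact ⟨Int.floor_le_floor (hlow x hx σ), Int.floor_le_floor (hup x hx σ)⟩
      have h1 := Finset.card_le_card hsub
      rw [Fintype.card_piFinset, Finset.prod_const, Finset.card_univ, NumberField.Embeddings.card K ℂ] at h1
      have h2 : ((Finset.Icc ⌊-(2 * δ * l)⌋ ⌊l⌋).card : ℝ) ≤ (2 * δ + 1) * l + 2 := by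
        rw [Int.card_Icc]
        have h3 : (⌊-(2 * δ * l)⌋ : ℤ) ≤ ⌊l⌋ := by
          refine Int.floor_le_floor ?_
          have : 0 ≤ 2 * (δ : ℝ) * l := by positivity
          linarith
        have h4 : (((⌊l⌋ + 1 - ⌊-(2 * δ * l)⌋).toNat : ℕ) : ℝ) = (⌊l⌋ : ℝ) + 1 - (⌊-(2 * δ * l)⌋ : ℝ) := by
          have h5 : (((⌊l⌋ + 1 - ⌊-(2 * δ * l)⌋).toNat : ℕ) : ℤ) = ⌊l⌋ + 1 - ⌊-(2 * δ * l)⌋ :=
            Int.toNat_of_nonneg (by linarith)
          exact_mod_cast congrArg (fun z : ℤ => (z : ℝ)) h5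
        rw [h4]
        have h6 := Int.floor_le l
        have h7 := Int.lt_floor_add_one (-(2 * δ * l))
        linarith
      have hA : (1 : ℝ) ≤ (2 * δ + 1) * l + 2 := by
        have : 0 ≤ (2 * (δ : ℝ) + 1) * l := by positivity
        linarith
      calc ((X.image v).card : ℝ) ≤ (((Finset.Icc ⌊-(2 * δ * l)⌋ ⌊l⌋).card ^ Module.finrank ℚ K : ℕ) : ℝ) := by
            exact_mod_cast h1
        _ = ((Finset.Icc ⌊-(2 * δ * l)⌋ ⌊l⌋).card : ℝ) ^ Module.finrank ℚ K := by push_cast; rfl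
        _ ≤ ((2 * δ + 1) * l + 2) ^ Module.finrank ℚ K := pow_le_pow_left₀ (Nat.cast_nonneg _) h2 _
        _ ≤ ((2 * δ + 1) * l + 2) ^ δ := pow_le_pow_right₀ hA hK
    have hHe : 1 ≤ H ^ ε' := Real.one_le_rpow hH hε'0.le
    have hA2 : (2 * δ + 1) * l + 2 ≤ D * H ^ ε' := by
      have h1 : l ≤ H ^ ε' / ε' := Real.log_le_rpow_div hHpos.le hε'0
      have h2 : (2 * (δ : ℝ) + 1) * l ≤ (2 * δ + 1) * (H ^ ε' / ε') :=
        mul_le_mul_of_nonneg_left h1 (by positivity)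
      have h3 : (2 * (δ : ℝ) + 1) * (H ^ ε' / ε') = (2 * δ + 1) / ε' * H ^ ε' := by ring
      rw [hD, add_mul]
      linarith
    have hpow : (H ^ ε') ^ δ ≤ H ^ ε := by
      rw [← Real.rpow_natCast, ← Real.rpow_mul hHpos.le]
      refine Real.rpow_le_rpow_of_exponent_le hH ?_
      rw [hε', div_mul_eq_mul_div, div_le_iff₀ hδ1]
      nlinarith
    calc (X.card : ℝ) ≤ (C₀ : ℝ) * ((X.image v).card : ℝ) := by exact_mod_cast hcard1
      _ ≤ (C₀ : ℝ) * ((2 * δ + 1) * l + 2) ^ δ := mul_le_mul_of_nonneg_left hcard2 (Nat.cast_nonneg _)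
      _ ≤ (C₀ : ℝ) * (D * H ^ ε') ^ δ :=
          mul_le_mul_of_nonneg_left (pow_le_pow_left₀ (by positivity) hA2 δ) (Nat.cast_nonneg _)
      _ = (C₀ : ℝ) * D ^ δ * (H ^ ε') ^ δ := by rw [mul_pow, mul_assoc]
      _ ≤ (C₀ + 1) * D ^ δ * H ^ ε :=
          mul_le_mul (mul_le_mul_of_nonneg_right (by linarith) (by positivity)) hpow (by positivity) (by positivity)

end Pool.Agent.BD
end

section

/-!
# TASK BD NF: the divisor bound in number fields of bounded degree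

PROOF. Let `J = span {c} ≠ ⊥`, `n = absNorm J = |Algebra.norm ℤ c| = ∏ σ, ‖σ c‖ ≤ (H ^ 2) ^ finrank ≤ H ^ (2 δ)` (`Ideal.absNorm_span_singleton`,
`Algebra.norm_eq_prod_embeddings`; `X` may be assumed nonempty, so `‖σ c‖ = ‖σ x‖ ‖σ y‖ ≤ H ^ 2`). The ideals `span {x}`, `x ∈ X`, divide `J`, so there are at most
`(n.divisors.card) ^ δ ≤ (C₁ n ^ ε₁) ^ δ` of them (`card_dvd_le`, `divisor_bound`; `1 ≤ n.divisors.card`). Each fibre of `x ↦ span {x}` on `X` has at most `C₂ H ^ (ε / 2)` elements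
(`fibre` with `ε / 2`; `x ≠ 0`, `y ≠ 0` since `x y = c ≠ 0`). With `ε₁ = ε / (4 (δ + 1) ^ 2)` the product is at most `C₁ ^ δ * C₂ * H ^ ε` (`Finset.card_le_mul_card_image`).
-/

set_option autoImplicit false

open NumberField

namespace Pool.Agent.BD

private theorem NF_norm {K : Type} [Field K] [NumberField K] {δ : ℕ}
    (hδ : Module.finrank ℚ K ≤ δ) {H : ℝ} (hH : 1 ≤ H) (c : 𝓞 K)
    (h : ∀ σ : K →+* ℂ, ‖σ (c : K)‖ ≤ H ^ 2) :
    ((Ideal.absNorm (Ideal.span {c}) : ℕ) : ℝ) ≤ H ^ (2 * δ) := by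
  have h1 : ((Ideal.absNorm (Ideal.span {c}) : ℕ) : ℝ) = ‖((Algebra.norm ℚ (c : K) : ℚ) : ℂ)‖ := by
    rw [Ideal.absNorm_span_singleton, ← Algebra.coe_norm_int, Nat.cast_natAbs]
    simp
  have h2 : ((Algebra.norm ℚ (c : K) : ℚ) : ℂ) = ∏ σ : K →ₐ[ℚ] ℂ, σ (c : K) := by
    rw [← Algebra.norm_eq_prod_embeddings ℚ ℂ (c : K)]
    rfl
  rw [h1, h2, norm_prod]
  calc ∏ σ : K →ₐ[ℚ] ℂ, ‖σ (c : K)‖ ≤ ∏ _σ : K →ₐ[ℚ] ℂ, H ^ 2 :=
        Finset.prod_le_prod (fun σ _ => norm_nonneg _) fun σ _ => h σ.toRingHom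
    _ = (H ^ 2) ^ Module.finrank ℚ K := by
        rw [Finset.prod_const, Finset.card_univ, AlgHom.card]
    _ = H ^ (2 * Module.finrank ℚ K) := (pow_mul _ _ _).symm
    _ ≤ H ^ (2 * δ) := pow_le_pow_right₀ hH (by omega)

theorem nf (δ : ℕ) {ε : ℝ} (hε : 0 < ε) : ∃ C : ℝ, 1 ≤ C ∧
    ∀ (K : Type) [Field K] [NumberField K], Module.finrank ℚ K ≤ δ → ∀ (H : ℝ), 1 ≤ H →
    ∀ (c : 𝓞 K), c ≠ 0 → ∀ (X : Finset (𝓞 K)), (∀ x ∈ X, ∃ y : 𝓞 K, x * y = c ∧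
      ∀ σ : K →+* ℂ, ‖σ (x : K)‖ ≤ H ∧ ‖σ (y : K)‖ ≤ H) → (X.card : ℝ) ≤ C * H ^ ε := by
  classical
  have hε₁ : 0 < ε / (4 * ((δ : ℝ) + 1) ^ 2) := by positivity
  obtain ⟨C₁, hC₁, hdiv⟩ := Pool.Agent.MP_d807e3_co.divisor_bound hε₁
  obtain ⟨C₂, hC₂, hfib⟩ := fibre δ (half_pos hε)
  refine ⟨C₁ ^ δ * C₂, ?_, ?_⟩
  · have h1 : 1 ≤ C₁ ^ δ := one_le_pow₀ hC₁
    nlinarith
  intro K _ _ hδ H hH c hc X hX
  have hH0 : 0 < H := by linarith
  rcases X.eq_empty_or_nonempty with rfl | ⟨x₀, hx₀⟩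
  · rw [Finset.card_empty, Nat.cast_zero]
    positivity
  have hcb : ∀ σ : K →+* ℂ, ‖σ (c : K)‖ ≤ H ^ 2 := by
    intro σ
    obtain ⟨y, hy, hb⟩ := hX x₀ hx₀
    have e1 : (c : K) = (x₀ : K) * (y : K) := by rw [← hy]; rfl
    rw [e1, map_mul, norm_mul, sq]
    exact mul_le_mul (hb σ).1 (hb σ).2 (norm_nonneg _) hH0.le
  have hJ : Ideal.span {c} ≠ (⊥ : Ideal (𝓞 K)) := by
    rw [Ne, Ideal.span_singleton_eq_bot]
    exact hc
  obtain ⟨n, hn⟩ : ∃ n : ℕ, n = Ideal.absNorm (Ideal.span {c}) := ⟨_, rfl⟩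
  have hn0 : n ≠ 0 := by
    rw [hn, Ne, Ideal.absNorm_eq_zero_iff]
    exact hJ
  have hn1 : 1 ≤ n := by omega
  have hnH : (n : ℝ) ≤ H ^ (2 * δ) := by
    rw [hn]
    exact NF_norm hδ hH c hcb
  -- the ideals
  have hS : ((X.image fun x => Ideal.span {x}).card : ℝ) ≤ C₁ ^ δ * H ^ (ε / 2) := by
    have h1 : (X.image fun x => (Ideal.span {x} : Ideal (𝓞 K))).card ≤
        n.divisors.card ^ (Module.finrank ℚ K) := by
      rw [hn]
      refine card_dvd_le hJ _ fun I hI => ?_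
      obtain ⟨x, hx, rfl⟩ := Finset.mem_image.1 hI
      obtain ⟨y, hy, -⟩ := hX x hx
      rw [Ideal.dvd_iff_le, Ideal.span_singleton_le_span_singleton]
      exact ⟨y, hy.symm⟩
    have h2 : 1 ≤ n.divisors.card := Finset.card_pos.2 ⟨1, Nat.one_mem_divisors.2 hn0⟩
    have h3 : n.divisors.card ^ (Module.finrank ℚ K) ≤ n.divisors.card ^ δ :=
      pow_le_pow_right₀ h2 hδ
    have h4 : ((n.divisors.card : ℕ) : ℝ) ^ δ ≤
        (C₁ * (n : ℝ) ^ (ε / (4 * ((δ : ℝ) + 1) ^ 2))) ^ δ :=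
      pow_le_pow_left₀ (by positivity) (hdiv n hn1) δ
    have h5 : (n : ℝ) ^ (ε / (4 * ((δ : ℝ) + 1) ^ 2)) ≤
        (H ^ (2 * δ)) ^ (ε / (4 * ((δ : ℝ) + 1) ^ 2)) :=
      Real.rpow_le_rpow (by positivity) hnH hε₁.le
    have h6 : ((H ^ (2 * δ)) ^ (ε / (4 * ((δ : ℝ) + 1) ^ 2))) ^ δ ≤ H ^ (ε / 2) := by
      rw [← Real.rpow_natCast ((H ^ (2 * δ)) ^ (ε / (4 * ((δ : ℝ) + 1) ^ 2))) δ,
        ← Real.rpow_mul (by positivity), ← Real.rpow_natCast H (2 * δ), ← Real.rpow_mul hH0.le]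
      refine Real.rpow_le_rpow_of_exponent_le hH ?_
      push_cast
      rw [div_mul_eq_mul_div, mul_div_assoc', div_le_div_iff₀ (by positivity) (by norm_num)]
      have hd : (0 : ℝ) ≤ δ := by positivity
      nlinarith [mul_nonneg hd hε.le, mul_nonneg (mul_nonneg hd hd) hε.le]
    calc ((X.image fun x => (Ideal.span {x} : Ideal (𝓞 K))).card : ℝ)
        ≤ ((n.divisors.card ^ δ : ℕ) : ℝ) := by exact_mod_cast h1.trans h3
      _ = ((n.divisors.card : ℕ) : ℝ) ^ δ := by push_cast; rfl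
      _ ≤ (C₁ * (n : ℝ) ^ (ε / (4 * ((δ : ℝ) + 1) ^ 2))) ^ δ := h4
      _ ≤ (C₁ * (H ^ (2 * δ)) ^ (ε / (4 * ((δ : ℝ) + 1) ^ 2))) ^ δ := by
          refine pow_le_pow_left₀ (by positivity) ?_ δ
          exact mul_le_mul_of_nonneg_left h5 (by linarith)
      _ = C₁ ^ δ * ((H ^ (2 * δ)) ^ (ε / (4 * ((δ : ℝ) + 1) ^ 2))) ^ δ := mul_pow _ _ _
      _ ≤ C₁ ^ δ * H ^ (ε / 2) := mul_le_mul_of_nonneg_left h6 (by positivity)
  -- the fibres
  have hfibre : ∀ I ∈ X.image fun x => (Ideal.span {x} : Ideal (𝓞 K)),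
      (X.filter fun x => (Ideal.span {x} : Ideal (𝓞 K)) = I).card ≤ ⌊C₂ * H ^ (ε / 2)⌋₊ := by
    intro I _
    refine Nat.le_floor ?_
    refine hfib K hδ H hH _ ?_ ?_
    · intro x hx
      obtain ⟨y, hy, hb⟩ := hX x (Finset.mem_filter.1 hx).1
      refine ⟨?_, y, ?_, hb⟩
      · rintro rfl
        exact hc (by rw [← hy, zero_mul])
      · rintro rfl
        exact hc (by rw [← hy, mul_zero])
    · intro x hx x' hx'
      rw [(Finset.mem_filter.1 hx).2, (Finset.mem_filter.1 hx').2]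
  have hcard := Finset.card_le_mul_card_image X ⌊C₂ * H ^ (ε / 2)⌋₊ hfibre
  have hfl : ((⌊C₂ * H ^ (ε / 2)⌋₊ : ℕ) : ℝ) ≤ C₂ * H ^ (ε / 2) := Nat.floor_le (by positivity)
  calc (X.card : ℝ) ≤ ((⌊C₂ * H ^ (ε / 2)⌋₊ *
        (X.image fun x => (Ideal.span {x} : Ideal (𝓞 K))).card : ℕ) : ℝ) := by
        exact_mod_cast hcard
    _ = ((⌊C₂ * H ^ (ε / 2)⌋₊ : ℕ) : ℝ) *
        ((X.image fun x => (Ideal.span {x} : Ideal (𝓞 K))).card : ℝ) := by push_cast; rfl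
    _ ≤ (C₂ * H ^ (ε / 2)) * (C₁ ^ δ * H ^ (ε / 2)) :=
        mul_le_mul hfl hS (by positivity) (by positivity)
    _ = C₁ ^ δ * C₂ * (H ^ (ε / 2) * H ^ (ε / 2)) := by ring
    _ = C₁ ^ δ * C₂ * H ^ ε := by
        rw [← Real.rpow_add hH0, add_halves]

end Pool.Agent.BD
end

section

/-!
# TASK BD IX: the count in one number field

PROOF. Put `a = G_δ`, `κ = a ^ δ * Q`. For `y ∈ Y` with partner `y'` let `x = κ * (D y - ev S θ)`, `x' = κ * (D y' - ev T θ)`. Both are integral over `ℤ`: by `Sm`, `Q y = ∑ z_i ev (A i) θ / D`, so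
`a ^ δ Q D y = ∑ z_i (a ^ δ ev (A i) θ)`, and `a ^ δ Q ev S θ` is integral (`integral_ev`, `IsIntegral.sum`, integers are integral). `x x' = κ ^ 2 * (D * ev Z θ) = c₀`, the same for all `y ∈ Y`, and `c₀ ≠ 0`
(`κ ≠ 0`, `D ≠ 0`, `ev Z θ ≠ 0`). The map `y ↦ x` is injective. Bounds, for every `σ : K →+* ℂ` (`map_ev`, `cauchy_bound`, `norm_ev_le`): `‖σ θ‖ ≤ 1 + M`, `‖σ (ev A θ)‖ ≤ (δ + 1) M (1 + M) ^ δ =: e`,
`‖σ y‖ ≤ r * 2 M * e` (`|D| ≥ 1`, `|x_i| ≤ 2 M`), so `‖σ x‖ ≤ M ^ δ * M * (M * (2 r M e) + e) ≤ M ^ (δ + 1) * (2 r + 1) M ^ 2 * (δ + 1) M (2 M) ^ δ = c₁ M ^ (2 δ + 4)`, `c₁ = (2 r + 1) (δ + 1) 2 ^ δ`.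
Apply `nf δ` with exponent `ε / (2 δ + 4)` and `H = c₁ M ^ (2 δ + 4)`: `Y.card ≤ C₀ H ^ (ε / (2 δ + 4)) = C₀ c₁ ^ (ε / (2 δ + 4)) * M ^ ε`. (`Y` empty: trivial.)
-/

set_option autoImplicit false

namespace Pool.Agent.BD

/-- `y` is a combination of the numbers `ev (A i) θ / D` with small rational coefficients, and `Q y`
is a combination with integer coefficients -/
def Sm {F : Type} [Field F] {δ r : ℕ} (θ : F) (D : ℤ) (A : Fin r → Fin (δ + 1) → ℤ) (Q : ℕ) (M : ℝ)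
    (y : F) : Prop :=
  (∃ x : Fin r → ℚ, (∀ i, (|x i| : ℝ) ≤ 2 * M) ∧ y = ∑ i, (x i : F) * (ev (A i) θ / (D : F))) ∧
    ∃ z : Fin r → ℤ, (Q : F) * y = ∑ i, (z i : F) * (ev (A i) θ / (D : F))

private theorem IX_ev_bound {K : Type} [Field K] {δ : ℕ} {M : ℝ} (hM : 1 ≤ M) {G : Fin (δ + 1) → ℤ}
    {θ : K} (hG : G (Fin.last δ) ≠ 0) (hGM : ∀ j, (|G j| : ℝ) ≤ M) (hz : ev G θ = 0)
    {B : Fin (δ + 1) → ℤ} (hB : ∀ j, (|B j| : ℝ) ≤ M) (σ : K →+* ℂ) :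
    ‖σ (ev B θ)‖ ≤ (δ + 1) * M * (1 + M) ^ δ := by
  rw [map_ev]
  refine norm_ev_le hM hB (cauchy_bound hM hG hGM ?_)
  rw [← map_ev, hz, map_zero]

private theorem IX_y_bound {K : Type} [Field K] {δ r : ℕ} {M : ℝ} (hM : 1 ≤ M) {G : Fin (δ + 1) → ℤ}
    {θ : K} (hG : G (Fin.last δ) ≠ 0) (hGM : ∀ j, (|G j| : ℝ) ≤ M) (hz : ev G θ = 0)
    {D : ℤ} (hD : D ≠ 0) {A : Fin r → Fin (δ + 1) → ℤ} (hA : ∀ i j, (|A i j| : ℝ) ≤ M) {Q : ℕ} {y : K}
    (hy : Sm θ D A Q M y) (σ : K →+* ℂ) : ‖σ y‖ ≤ r * (2 * M * ((δ + 1) * M * (1 + M) ^ δ)) := by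
  obtain ⟨⟨x, hx, hxy⟩, -⟩ := hy
  rw [hxy, map_sum]
  refine (norm_sum_le _ _).trans ?_
  have h1 : ∀ i ∈ (Finset.univ : Finset (Fin r)), ‖σ ((x i : K) * (ev (A i) θ / (D : K)))‖ ≤
      2 * M * ((δ + 1) * M * (1 + M) ^ δ) := by
    intro i _
    have h2 := IX_ev_bound hM hG hGM hz (hA i) σ
    have h3 : (1 : ℝ) ≤ ‖σ (D : K)‖ := by
      rw [map_intCast, Complex.norm_intCast]
      exact_mod_cast Int.one_le_abs hD
    have h4 : ‖σ (x i : K)‖ ≤ 2 * M := by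
      rw [map_ratCast, Complex.norm_ratCast]
      exact hx i
    rw [map_mul, map_div₀, norm_mul, norm_div]
    have h5 : ‖σ (ev (A i) θ)‖ / ‖σ (D : K)‖ ≤ (δ + 1) * M * (1 + M) ^ δ :=
      (div_le_self (norm_nonneg _) h3).trans h2
    exact mul_le_mul h4 h5 (div_nonneg (norm_nonneg _) (norm_nonneg _)) (by linarith)
  refine (Finset.sum_le_card_nsmul _ _ _ h1).trans (le_of_eq ?_)
  rw [Finset.card_univ, Fintype.card_fin, nsmul_eq_mul]

private theorem IX_integral {K : Type} [Field K] [CharZero K] {δ r : ℕ} {M : ℝ} {G : Fin (δ + 1) → ℤ}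
    {θ : K} (hG : G (Fin.last δ) ≠ 0) (hz : ev G θ = 0)
    {D : ℤ} (hD : D ≠ 0) {A : Fin r → Fin (δ + 1) → ℤ} {Q : ℕ} {y : K}
    (hy : Sm θ D A Q M y) (S : Fin (δ + 1) → ℤ) :
    IsIntegral ℤ ((G (Fin.last δ) : K) ^ δ * Q * ((D : K) * y - ev S θ)) := by
  obtain ⟨-, z, hz'⟩ := hy
  have hD' : (D : K) ≠ 0 := by exact_mod_cast hD
  have h1 : (G (Fin.last δ) : K) ^ δ * Q * ((D : K) * y - ev S θ) =
      ∑ i, (z i : K) * ((G (Fin.last δ) : K) ^ δ * ev (A i) θ) - (Q : K) * ((G (Fin.last δ) : K) ^ δ * ev S θ) := by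
    have h2 : (G (Fin.last δ) : K) ^ δ * Q * ((D : K) * y - ev S θ) =
        (G (Fin.last δ) : K) ^ δ * D * (Q * y) - (Q : K) * ((G (Fin.last δ) : K) ^ δ * ev S θ) := by ring
    rw [h2, hz', Finset.mul_sum]
    congr 1
    refine Finset.sum_congr rfl fun i _ => ?_
    field_simp
  rw [h1]
  refine IsIntegral.sub (IsIntegral.sum _ fun i _ => ?_) ?_
  · exact (isIntegral_intCast _).mul (integral_ev hG hz (A i))
  · exact (isIntegral_natCast _).mul (integral_ev hG hz S)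

private theorem IX_num (δ r : ℕ) {M : ℝ} (hM : 1 ≤ M) :
    M ^ δ * M * (M * (r * (2 * M * ((δ + 1) * M * (1 + M) ^ δ))) + (δ + 1) * M * (1 + M) ^ δ) ≤
      (2 * r + 1) * (δ + 1) * 2 ^ δ * M ^ (2 * δ + 4) := by
  have h0 : 0 ≤ M := by linarith
  have h1 : (1 + M) ^ δ ≤ 2 ^ δ * M ^ δ := by
    rw [← mul_pow]
    exact pow_le_pow_left₀ (by linarith) (by linarith) δ
  have h2 : (1 : ℝ) ≤ M ^ 2 := one_le_pow₀ hM
  have hr : (0 : ℝ) ≤ r := Nat.cast_nonneg r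
  have hd : (0 : ℝ) ≤ (δ : ℝ) + 1 := by positivity
  calc M ^ δ * M * (M * (r * (2 * M * ((δ + 1) * M * (1 + M) ^ δ))) + (δ + 1) * M * (1 + M) ^ δ)
      = M ^ δ * M ^ 2 * (δ + 1) * (2 * r * M ^ 2 + 1) * (1 + M) ^ δ := by ring
    _ ≤ M ^ δ * M ^ 2 * (δ + 1) * (2 * r * M ^ 2 + M ^ 2) * (2 ^ δ * M ^ δ) := by
        refine mul_le_mul ?_ h1 (by positivity) (by positivity)
        refine mul_le_mul_of_nonneg_left (by linarith) (by positivity)
    _ = _ := by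
        rw [show M ^ (2 * δ + 4) = M ^ δ * M ^ δ * M ^ 2 * M ^ 2 by ring]
        ring

private def IX_mk {K : Type} [Field K] (z : K) (h : IsIntegral ℤ z) : NumberField.RingOfIntegers K := ⟨z, h⟩

private theorem IX_mk_coe {K : Type} [Field K] (z : K) (h : IsIntegral ℤ z) :
    ((IX_mk z h : NumberField.RingOfIntegers K) : K) = z := rfl

theorem ix (δ r : ℕ) {ε : ℝ} (hε : 0 < ε) : ∃ C : ℝ, 1 ≤ C ∧
    ∀ (K : Type) [Field K] [NumberField K], Module.finrank ℚ K ≤ δ → ∀ (M : ℝ), 1 ≤ M →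
    ∀ (θ : K) (G : Fin (δ + 1) → ℤ) (D : ℤ) (A : Fin r → Fin (δ + 1) → ℤ)
      (S T Z : Fin (δ + 1) → ℤ) (Q : ℕ) (Y : Finset K),
    G (Fin.last δ) ≠ 0 → ev G θ = 0 → D ≠ 0 → ev Z θ ≠ 0 → 1 ≤ Q → (Q : ℝ) ≤ M →
    (|D| : ℝ) ≤ M → (∀ j, (|G j| : ℝ) ≤ M ∧ (|S j| : ℝ) ≤ M ∧ (|T j| : ℝ) ≤ M ∧ (|Z j| : ℝ) ≤ M) →
    (∀ i j, (|A i j| : ℝ) ≤ M) →
    (∀ y ∈ Y, ∃ y', Sm θ D A Q M y ∧ Sm θ D A Q M y' ∧
      ((D : K) * y - ev S θ) * ((D : K) * y' - ev T θ) = (D : K) * ev Z θ) →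
    (Y.card : ℝ) ≤ C * M ^ ε := by
  classical
  have hd : (0 : ℝ) < 2 * δ + 4 := by positivity
  have hε' : 0 < ε / (2 * δ + 4) := by positivity
  obtain ⟨C₀, hC₀, H⟩ := nf δ hε'
  set c₁ : ℝ := (2 * r + 1) * (δ + 1) * 2 ^ δ with hc₁
  have hc1 : 1 ≤ c₁ := by
    have e1 : (1 : ℝ) ≤ 2 * r + 1 := by
      have : (0 : ℝ) ≤ r := Nat.cast_nonneg r
      linarith
    have e2 : (1 : ℝ) ≤ (δ : ℝ) + 1 := by
      have : (0 : ℝ) ≤ δ := Nat.cast_nonneg δ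
      linarith
    have e3 : (1 : ℝ) ≤ 2 ^ δ := one_le_pow₀ (by norm_num)
    have e4 : (1 : ℝ) ≤ (2 * r + 1) * (δ + 1) := one_le_mul_of_one_le_of_one_le e1 e2
    exact one_le_mul_of_one_le_of_one_le e4 e3
  refine ⟨C₀ * c₁ ^ (ε / (2 * δ + 4)), one_le_mul_of_one_le_of_one_le hC₀
    (Real.one_le_rpow hc1 hε'.le), ?_⟩
  intro K _ _ hK M hM θ G D A S T Z Q Y hG hGθ hD hZ hQ hQM hDM hSTZ hA hY
  have hM0 : 0 ≤ M := by linarith
  have hMδ : (1 : ℝ) ≤ M ^ (2 * δ + 4) := one_le_pow₀ hM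
  set κ : K := (G (Fin.last δ) : K) ^ δ * Q with hκ
  have hκ0 : κ ≠ 0 := by
    refine mul_ne_zero (pow_ne_zero _ (by exact_mod_cast hG)) ?_
    exact_mod_cast (by omega : Q ≠ 0)
  have hD' : (D : K) ≠ 0 := by exact_mod_cast hD
  -- the constant
  have hc : IsIntegral ℤ (κ * (D * Q) * ((G (Fin.last δ) : K) ^ δ * ev Z θ)) := by
    refine IsIntegral.mul ?_ (integral_ev hG hGθ Z)
    rw [hκ]
    exact (((isIntegral_intCast _).pow _).mul (isIntegral_natCast _)).mul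
      ((isIntegral_intCast _).mul (isIntegral_natCast _))
  set c : NumberField.RingOfIntegers K := IX_mk _ hc with hcdef
  have hc0 : c ≠ 0 := by
    intro h
    have h1 := congrArg (fun z : NumberField.RingOfIntegers K => (z : K)) h
    have h2 : κ * (D * Q) * ((G (Fin.last δ) : K) ^ δ * ev Z θ) = 0 := h1
    have h3 : (G (Fin.last δ) : K) ^ δ ≠ 0 := pow_ne_zero _ (by exact_mod_cast hG)
    have h4 : (Q : K) ≠ 0 := by exact_mod_cast (by omega : Q ≠ 0)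
    exact mul_ne_zero (mul_ne_zero hκ0 (mul_ne_zero hD' h4)) (mul_ne_zero h3 hZ) h2
  have hGM : ∀ j, (|G j| : ℝ) ≤ M := fun j => (hSTZ j).1
  -- the bound for one conjugate
  have hbd : ∀ (y : K) (B : Fin (δ + 1) → ℤ), Sm θ D A Q M y → (∀ j, (|B j| : ℝ) ≤ M) → ∀ σ : K →+* ℂ,
      ‖σ (κ * ((D : K) * y - ev B θ))‖ ≤ c₁ * M ^ (2 * δ + 4) := by
    intro y B hy hB σ
    refine le_trans ?_ (IX_num δ r hM)
    rw [map_mul, norm_mul]
    have e1 : ‖σ κ‖ ≤ M ^ δ * M := by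
      rw [hκ, map_mul, map_pow, map_intCast, map_natCast, norm_mul, norm_pow, Complex.norm_intCast,
        Complex.norm_natCast]
      exact mul_le_mul (pow_le_pow_left₀ (abs_nonneg _) (hGM _) δ) hQM (Nat.cast_nonneg _) (by positivity)
    have e2 : ‖σ ((D : K) * y - ev B θ)‖ ≤
        M * (r * (2 * M * ((δ + 1) * M * (1 + M) ^ δ))) + (δ + 1) * M * (1 + M) ^ δ := by
      rw [map_sub, map_mul]
      refine (norm_sub_le _ _).trans (add_le_add ?_ (IX_ev_bound hM hG hGM hGθ hB σ))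
      rw [norm_mul]
      refine mul_le_mul ?_ (IX_y_bound hM hG hGM hGθ hD hA hy σ) (norm_nonneg _) hM0
      rw [map_intCast, Complex.norm_intCast]
      exact hDM
    exact mul_le_mul e1 e2 (norm_nonneg _) (by positivity)
  let g : K → NumberField.RingOfIntegers K := fun y =>
    if h : IsIntegral ℤ (κ * ((D : K) * y - ev S θ)) then IX_mk _ h else 0
  have hg : ∀ y ∈ Y, ((g y : NumberField.RingOfIntegers K) : K) = κ * ((D : K) * y - ev S θ) := by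
    intro y hy
    obtain ⟨y', h1, -, -⟩ := hY y hy
    have h2 : IsIntegral ℤ (κ * ((D : K) * y - ev S θ)) := IX_integral hG hGθ hD h1 S
    have h3 : g y = IX_mk _ h2 := dif_pos h2
    rw [h3, IX_mk_coe]
  have hinj : Set.InjOn g Y := by
    intro y hy y' hy' h
    have h1 := congrArg (fun z : NumberField.RingOfIntegers K => (z : K)) h
    simp only [hg y hy, hg y' hy'] at h1
    have h2 := mul_left_cancel₀ hκ0 h1
    have h3 : (D : K) * y = (D : K) * y' := by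
      have := congrArg (fun z => z + ev S θ) h2
      simpa using this
    exact mul_left_cancel₀ hD' h3
  have hcard : Y.card = (Y.image g).card := (Finset.card_image_of_injOn hinj).symm
  rw [hcard]
  have hH : (1 : ℝ) ≤ c₁ * M ^ (2 * δ + 4) := one_le_mul_of_one_le_of_one_le hc1 hMδ
  have h1 := H K hK (c₁ * M ^ (2 * δ + 4)) hH c hc0 (Y.image g) ?_
  · refine h1.trans (le_of_eq ?_)
    rw [Real.mul_rpow (by linarith) (by positivity), ← Real.rpow_natCast M, ← Real.rpow_mul hM0, mul_assoc]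
    congr 3
    push_cast
    field_simp
  · intro x hx
    obtain ⟨y, hy, rfl⟩ := Finset.mem_image.1 hx
    obtain ⟨y', h2, h3, h4⟩ := hY y hy
    have hint : IsIntegral ℤ (κ * ((D : K) * y' - ev T θ)) := IX_integral hG hGθ hD h3 T
    refine ⟨IX_mk _ hint, ?_, fun σ => ⟨?_, ?_⟩⟩
    · apply NumberField.RingOfIntegers.ext
      have hm : ∀ a b : NumberField.RingOfIntegers K, ((a * b : NumberField.RingOfIntegers K) : K) = a * b :=
        fun a b => map_mul (algebraMap (NumberField.RingOfIntegers K) K) a b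
      rw [hm, hg y hy, IX_mk_coe, hcdef, IX_mk_coe]
      have h5 : κ * ((D : K) * y - ev S θ) * (κ * ((D : K) * y' - ev T θ)) =
          κ * κ * (((D : K) * y - ev S θ) * ((D : K) * y' - ev T θ)) := by ring
      rw [h5, h4, hκ]
      ring
    · rw [hg y hy]
      exact hbd y S h2 (fun j => (hSTZ j).2.1) σ
    · rw [IX_mk_coe]
      exact hbd y' T h3 (fun j => (hSTZ j).2.2.1) σ

end Pool.Agent.BD
end
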