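import Pool.Agent.Lib.MP_d807e3_co.Mg.G001
import Pool.Agent.Lib.MP_d807e3_co.Mg.G003

section

/-!
# TASK BD C2: the specialisation in terms of sequences

PROOF of `spec`. `Cs d.U` is algebraically closed of characteristic `0` (`algClosed`, `charZero`). Let `S₀` be the finite set of the elements `F i` (`i : Fin r`), `gm s`, `gm t`, `gm c`, `(gm c)⁻¹`, `v⁻¹`
(`Finset.image`, `insert`; classical decidability), `R = Algebra.adjoin H S₀`, and take `φ, θ₀, δ, G₀` from `exists_spec`. `V ≤ R` (span of elements of `R`), so `Λ a = φ ⟨a, _⟩` is an `H`-linear map on `V`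
(`φ` is `H`-linear; build it as `φ.toLinearMap ∘ₗ` the inclusion). `Λ v ≠ 0` since `φ v * φ v⁻¹ = φ 1 = 1` (`v ≠ 0`); similarly `φ (gm c) ≠ 0` (`gm c ≠ 0` because `c k ≠ 0` for all `k`; `gm_eq`).
If `(a - gm s) (b - gm t) = gm c` with `a, b ∈ V` then `(φ a - φ (gm s)) (φ b - φ (gm t)) = φ (gm c)`.
By `exists_spec`: `φ (F i) = ∑ j, p_(i,j) θ₀ ^ j`, `φ (gm s) = ∑ j, S_j θ₀ ^ j`, `φ (gm t) = ...`, `φ (gm c) = ...` with coefficients in `H`, and `∑ j, G₀ j θ₀ ^ j = 0`, `G₀ (last) ≠ 0`.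
Apply `common_den` to the finite family of all these coefficients (index type a sum type, for instance `(Fin (δ+1)) ⊕ (Fin r × Fin (δ+1)) ⊕ (Fin (δ+1)) ⊕ (Fin (δ+1)) ⊕ (Fin (δ+1))`, or `Option`-like): a common
denominator `D` and integer sequences `G, A, S, T, Z` with `G₀ j = gm (G j k / D k)` etc. Take a representative `θ` of `θ₀` (`gm_surj`). Then for almost all `k`: `D k ≠ 0`, the bounds, `∑ G j k θ_k ^ j = 0` (the germ of
`∑ (G j k / D k) θ_k ^ j` is `0`, multiply by `D k`), `G (last) k ≠ 0` (the germ `G₀ (last)` is not `0`: `gm_eq`, `Ultrafilter.eventually_not`), `ev (Z . k) (θ k) ≠ 0` (same), and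
`φ (F i) = gm (fun k => ev (fun j => A i j k) (θ k) / D k)` etc., because `gm` is a ring homomorphism (`gmHom`, `map_sum`, `map_mul`, `map_pow`).
-/

set_option autoImplicit false

open Filter

namespace Pool.Agent.BD

/-- The result of a specialisation. -/
structure Spc {r : ℕ} (d : Dat r) (v : d.V) where
  Λ : d.V →ₗ[d.H] Cs d.U
  δ : ℕ
  m : ℕ
  θ : ℕ → ℂ
  G : Fin (δ + 1) → ℕ → ℤ
  D : ℕ → ℤ
  A : Fin r → Fin (δ + 1) → ℕ → ℤ
  S : Fin (δ + 1) → ℕ → ℤ
  T : Fin (δ + 1) → ℕ → ℤ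
  Z : Fin (δ + 1) → ℕ → ℤ
  ne_v : Λ v ≠ 0
  ev1 : ∀ᶠ k in (d.U : Filter ℕ), G (Fin.last δ) k ≠ 0 ∧ ev (fun j => G j k) (θ k) = 0 ∧ D k ≠ 0 ∧
    ev (fun j => Z j k) (θ k) ≠ 0
  ev2 : ∀ᶠ k in (d.U : Filter ℕ), |D k| ≤ ((d.N k : ℤ) + 2) ^ m ∧
    (∀ j, |G j k| ≤ ((d.N k : ℤ) + 2) ^ m ∧ |S j k| ≤ ((d.N k : ℤ) + 2) ^ m ∧
      |T j k| ≤ ((d.N k : ℤ) + 2) ^ m ∧ |Z j k| ≤ ((d.N k : ℤ) + 2) ^ m) ∧
    ∀ i j, |A i j k| ≤ ((d.N k : ℤ) + 2) ^ m
  gen : ∀ i, Λ ⟨d.F i, d.F_mem i⟩ = gm d.U (fun k => ev (fun j => A i j k) (θ k) / (D k : ℂ))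
  mul : ∀ a b : d.V, ((a : Cs d.U) - gm d.U d.s) * ((b : Cs d.U) - gm d.U d.t) = gm d.U d.c →
    (Λ a - gm d.U (fun k => ev (fun j => S j k) (θ k) / (D k : ℂ))) *
      (Λ b - gm d.U (fun k => ev (fun j => T j k) (θ k) / (D k : ℂ))) =
        gm d.U (fun k => ev (fun j => Z j k) (θ k) / (D k : ℂ))

private theorem C2_gm_zero (U : Ultrafilter ℕ) : gm U (fun _ => (0 : ℂ)) = 0 := rfl

private theorem C2_key {U : Ultrafilter ℕ} {δ : ℕ} (b : Fin (δ + 1) → ℕ → ℤ) (D : ℕ → ℤ) (θ : ℕ → ℂ)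
    (p : Fin (δ + 1) → Cs U) (hp : ∀ j, p j = gm U (fun k => (b j k : ℂ) / (D k : ℂ))) :
    ∑ j, p j * (gm U θ) ^ (j : ℕ) = gm U (fun k => ev (fun j => b j k) (θ k) / (D k : ℂ)) := by
  have h1 : ∀ j : Fin (δ + 1), p j * (gm U θ) ^ (j : ℕ) =
      gmHom U ((fun k => (b j k : ℂ) / (D k : ℂ)) * θ ^ (j : ℕ)) := by
    intro j
    rw [hp j, map_mul, map_pow]
    rfl
  rw [Finset.sum_congr rfl fun j _ => h1 j, ← map_sum, gmHom_apply]
  congr 1
  funext k
  rw [Finset.sum_apply, ev, Finset.sum_div]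
  refine Finset.sum_congr rfl fun j _ => ?_
  rw [Pi.mul_apply, Pi.pow_apply]
  ring

private theorem C2_ne {U : Ultrafilter ℕ} {a : ℕ → ℂ} (h : gm U a ≠ 0) : ∀ᶠ k in (U : Filter ℕ), a k ≠ 0 := by
  have h1 : ¬ ∀ᶠ k in (U : Filter ℕ), a k = (fun _ => (0 : ℂ)) k := by
    intro h2
    exact h ((gm_eq.2 h2).trans (C2_gm_zero U))
  rw [← Ultrafilter.eventually_not] at h1
  exact h1

private theorem C2_eq {U : Ultrafilter ℕ} {a : ℕ → ℂ} (h : gm U a = 0) : ∀ᶠ k in (U : Filter ℕ), a k = 0 := by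
  have h1 : gm U a = gm U (fun _ => (0 : ℂ)) := h.trans (C2_gm_zero U).symm
  exact gm_eq.1 h1

theorem spec {r : ℕ} (d : Dat r) (v : d.V) (hv : v ≠ 0) : Nonempty (Spc d v) := by
  classical
  haveI := algClosed d.U
  haveI := charZero d.U
  have hv0 : (v : Cs d.U) ≠ 0 := fun h => hv (Subtype.ext h)
  have hc0 : gm d.U d.c ≠ 0 := by
    intro h
    have h1 := C2_eq h
    have h2 : ∀ᶠ k in (d.U : Filter ℕ), False := h1.mono fun k hk => d.ne k hk
    exact (Filter.Eventually.exists h2).elim fun _ h => h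
  obtain ⟨S₀, hS₀⟩ : ∃ S₀ : Finset (Cs d.U), S₀ = (Finset.univ.image d.F) ∪
      {gm d.U d.s, gm d.U d.t, gm d.U d.c, (gm d.U d.c)⁻¹, (v : Cs d.U)⁻¹} := ⟨_, rfl⟩
  obtain ⟨φ, θ₀, δ, G₀, hG₀, hGl, hGe, hφ⟩ := exists_spec d.H S₀
  have hsub : ∀ x ∈ S₀, x ∈ Algebra.adjoin d.H (S₀ : Set (Cs d.U)) := fun x hx =>
    Algebra.subset_adjoin (Finset.mem_coe.2 hx)
  have hF : ∀ i, d.F i ∈ Algebra.adjoin d.H (S₀ : Set (Cs d.U)) := fun i => hsub _ (by
    rw [hS₀]
    exact Finset.mem_union_left _ (Finset.mem_image_of_mem _ (Finset.mem_univ i)))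
  have hs : gm d.U d.s ∈ Algebra.adjoin d.H (S₀ : Set (Cs d.U)) := hsub _ (by
    rw [hS₀]; exact Finset.mem_union_right _ (by simp))
  have ht : gm d.U d.t ∈ Algebra.adjoin d.H (S₀ : Set (Cs d.U)) := hsub _ (by
    rw [hS₀]; exact Finset.mem_union_right _ (by simp))
  have hcm : gm d.U d.c ∈ Algebra.adjoin d.H (S₀ : Set (Cs d.U)) := hsub _ (by
    rw [hS₀]; exact Finset.mem_union_right _ (by simp))
  have hci : (gm d.U d.c)⁻¹ ∈ Algebra.adjoin d.H (S₀ : Set (Cs d.U)) := hsub _ (by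
    rw [hS₀]; exact Finset.mem_union_right _ (by simp))
  have hvi : (v : Cs d.U)⁻¹ ∈ Algebra.adjoin d.H (S₀ : Set (Cs d.U)) := hsub _ (by
    rw [hS₀]; exact Finset.mem_union_right _ (by simp))
  have hV : ∀ x ∈ d.V, x ∈ Algebra.adjoin d.H (S₀ : Set (Cs d.U)) := by
    intro x hx
    have h1 : d.V ≤ Subalgebra.toSubmodule (Algebra.adjoin d.H (S₀ : Set (Cs d.U))) := by
      rw [Dat.V, Submodule.span_le]
      rintro _ ⟨i, rfl⟩
      exact hF i
    exact h1 hx
  let Λ : d.V →ₗ[d.H] Cs d.U :=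
    { toFun := fun a => φ ⟨a, hV a a.2⟩
      map_add' := fun a b => map_add φ ⟨a, hV a a.2⟩ ⟨b, hV b b.2⟩
      map_smul' := fun h a => map_smul φ h ⟨a, hV a a.2⟩ }
  have hΛ : ∀ a : d.V, Λ a = φ ⟨a, hV a a.2⟩ := fun _ => rfl
  have hΛv : Λ v ≠ 0 := by
    intro h0
    have h1 : φ ⟨v, hV v v.2⟩ * φ ⟨(v : Cs d.U)⁻¹, hvi⟩ = 1 := by
      rw [← map_mul, ← map_one φ]
      congr 1
      exact Subtype.ext (mul_inv_cancel₀ hv0)
    rw [← hΛ v, h0, zero_mul] at h1
    exact zero_ne_one h1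
  have hφc : φ ⟨gm d.U d.c, hcm⟩ ≠ 0 := by
    intro h0
    have h1 : φ ⟨gm d.U d.c, hcm⟩ * φ ⟨(gm d.U d.c)⁻¹, hci⟩ = 1 := by
      rw [← map_mul, ← map_one φ]
      congr 1
      exact Subtype.ext (mul_inv_cancel₀ hc0)
    rw [h0, zero_mul] at h1
    exact zero_ne_one h1
  choose pF hpF hpF' using fun i => hφ ⟨d.F i, hF i⟩
  obtain ⟨pS, hpS, hpS'⟩ := hφ ⟨gm d.U d.s, hs⟩
  obtain ⟨pT, hpT, hpT'⟩ := hφ ⟨gm d.U d.t, ht⟩
  obtain ⟨pZ, hpZ, hpZ'⟩ := hφ ⟨gm d.U d.c, hcm⟩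
  obtain ⟨co, hco⟩ : ∃ co : (Fin 4 ⊕ Fin r) → Fin (δ + 1) → Cs d.U, co = Sum.elim ![G₀, pS, pT, pZ] pF := ⟨_, rfl⟩
  have c0 : co (Sum.inl 0) = G₀ := by rw [hco]; rfl
  have c1 : co (Sum.inl 1) = pS := by rw [hco]; rfl
  have c2 : co (Sum.inl 2) = pT := by rw [hco]; rfl
  have c3 : co (Sum.inl 3) = pZ := by rw [hco]; rfl
  have c4 : ∀ i, co (Sum.inr i) = pF i := fun i => by rw [hco]; rfl
  have hcoH : ∀ y : (Fin 4 ⊕ Fin r) × Fin (δ + 1), co y.1 y.2 ∈ HF d.U d.N := by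
    rintro ⟨x | i, j⟩
    · fin_cases x
      · change co (Sum.inl 0) j ∈ _
        rw [c0]; exact hG₀ j
      · change co (Sum.inl 1) j ∈ _
        rw [c1]; exact hpS j
      · change co (Sum.inl 2) j ∈ _
        rw [c2]; exact hpT j
      · change co (Sum.inl 3) j ∈ _
        rw [c3]; exact hpZ j
    · change co (Sum.inr i) j ∈ _
      rw [c4]; exact hpF i j
  obtain ⟨a, D, m, hev, heq⟩ := common_den (fun y : (Fin 4 ⊕ Fin r) × Fin (δ + 1) => co y.1 y.2) hcoH
  obtain ⟨θ, hθ⟩ := gm_surj θ₀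
  have hsum : ∀ x : Fin 4 ⊕ Fin r, ∑ j, co x j * θ₀ ^ (j : ℕ) =
      gm d.U (fun k => ev (fun j => a (x, j) k) (θ k) / (D k : ℂ)) := by
    intro x
    rw [← hθ]
    exact C2_key (fun j => a (x, j)) D θ (co x) (fun j => heq (x, j))
  refine ⟨{ Λ := Λ, δ := δ, m := m, θ := θ, G := fun j => a (Sum.inl 0, j), D := D, A := fun i j => a (Sum.inr i, j)
            S := fun j => a (Sum.inl 1, j), T := fun j => a (Sum.inl 2, j), Z := fun j => a (Sum.inl 3, j)
            ne_v := hΛv, ev1 := ?_, ev2 := ?_, gen := ?_, mul := ?_ }⟩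
  · have e1 : gm d.U (fun k => (a (Sum.inl 0, Fin.last δ) k : ℂ) / (D k : ℂ)) ≠ 0 := by
      rw [← heq (Sum.inl 0, Fin.last δ)]
      change co (Sum.inl 0) (Fin.last δ) ≠ 0
      rw [c0]
      exact hGl
    have e2 : gm d.U (fun k => ev (fun j => a (Sum.inl 0, j) k) (θ k) / (D k : ℂ)) = 0 := by
      rw [← hsum (Sum.inl 0), c0]
      exact hGe
    have e3 : gm d.U (fun k => ev (fun j => a (Sum.inl 3, j) k) (θ k) / (D k : ℂ)) ≠ 0 := by
      rw [← hsum (Sum.inl 3), c3, ← hpZ']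
      exact hφc
    filter_upwards [hev, C2_ne e1, C2_eq e2, C2_ne e3] with k k0 k1 k2 k3
    have hD : (D k : ℂ) ≠ 0 := Int.cast_ne_zero.2 k0.1
    refine ⟨?_, ?_, k0.1, ?_⟩
    · intro h
      apply k1
      rw [h, Int.cast_zero, zero_div]
    · rcases div_eq_zero_iff.1 k2 with h | h
      · exact h
      · exact absurd h hD
    · intro h
      apply k3
      rw [h, zero_div]
  · filter_upwards [hev] with k k0
    exact ⟨k0.2.1, fun j => ⟨k0.2.2 _, k0.2.2 _, k0.2.2 _, k0.2.2 _⟩, fun i j => k0.2.2 _⟩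
  · intro i
    rw [hΛ, ← hsum (Sum.inr i), c4]
    exact hpF' i
  · intro x y hxy
    have e1 : (Λ x - φ ⟨gm d.U d.s, hs⟩) * (Λ y - φ ⟨gm d.U d.t, ht⟩) = φ ⟨gm d.U d.c, hcm⟩ := by
      rw [hΛ, hΛ, ← map_sub, ← map_sub, ← map_mul]
      congr 1
      exact Subtype.ext hxy
    rw [hpS', hpT', hpZ', ← c1, ← c2, ← c3, hsum, hsum, hsum] at e1
    exact e1

end Pool.Agent.BD
end

section

/-!
# TASK BD C3: transfer to almost all indices

Let `g i k = ev (fun j => A i j k) (θ k) / D k` (`Spc.g`), so `Λ (F i) = gm (g i)` (`gen`) and by `Dat.lin` `Λ (gm a) = gm (fun k => psi g k (a k))` for all `a` with `a k ∈ W k` for almost all `k`.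

`tr_add`: `ev_forall` with `α = ℂ × ℂ × ℂ × Fin r`. Let `w, w', w'' : ℕ → ℂ`, `i : ℕ → Fin r` with `w k, w' k, w'' k ∈ W k` and `w k + w' k = f (i k) k + w'' k` for almost all `k`. By `fin_cases` `i k = i₀` for almost
all `k`. So `gm w + gm w' = F i₀ + gm w''` in `V`; apply `Λ`: `gm (psi w) + gm (psi w') = gm (g i₀) + gm (psi w'')`, that is the claim for almost all `k` (`gm_eq`).

`tr_neg`: the same with `w' = -w`: `Λ (gm (-w)) = -Λ (gm w)`.

`tr_mul`: the same with `(a, w, i)`: `(gm a - gm s) ((F i₀ + gm w) - gm t) = gm c`, apply `mul` with `b = F i₀ + gm w ∈ V`.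
-/

set_option autoImplicit false

open Filter

namespace Pool.Agent.BD

variable {r : ℕ} {d : Dat r} {v : d.V}

/-- the generators -/
noncomputable def Spc.g (e : Spc d v) (i : Fin r) (k : ℕ) : ℂ :=
  ev (fun j => e.A i j k) (e.θ k) / (e.D k : ℂ)

theorem Spc.tr_add (e : Spc d v) : ∀ᶠ k in (d.U : Filter ℕ), ∀ w ∈ d.W k, ∀ w' ∈ d.W k,
    ∀ w'' ∈ d.W k, ∀ i, w + w' = d.f i k + w'' →
      d.psi e.g k w + d.psi e.g k w' = e.g i k + d.psi e.g k w'' := by
  have key := ev_forall (α := ℂ × ℂ × ℂ × Fin r) (U := d.U)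
    (S := fun k x => x.1 ∈ d.W k ∧ x.2.1 ∈ d.W k ∧ x.2.2.1 ∈ d.W k ∧ x.1 + x.2.1 = d.f x.2.2.2 k + x.2.2.1)
    (P := fun k x => d.psi e.g k x.1 + d.psi e.g k x.2.1 = e.g x.2.2.2 k + d.psi e.g k x.2.2.1) ?_
  · filter_upwards [key] with k hk w hw w' hw' w'' hw'' i h
    exact hk (w, w', w'', i) ⟨hw, hw', hw'', h⟩
  · intro x hx
    obtain ⟨i, hi⟩ := fin_cases (U := d.U) (p := fun k i => (x k).2.2.2 = i)
      (Filter.Eventually.of_forall fun k => ⟨_, rfl⟩)
    have hw : ∀ᶠ k in (d.U : Filter ℕ), (fun k => (x k).1) k ∈ d.W k := hx.mono fun k h => h.1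
    have hw' : ∀ᶠ k in (d.U : Filter ℕ), (fun k => (x k).2.1) k ∈ d.W k := hx.mono fun k h => h.2.1
    have hw'' : ∀ᶠ k in (d.U : Filter ℕ), (fun k => (x k).2.2.1) k ∈ d.W k := hx.mono fun k h => h.2.2.1
    have h1 := d.lin hw e.Λ (g := e.g) e.gen
    have h2 := d.lin hw' e.Λ (g := e.g) e.gen
    have h3 := d.lin hw'' e.Λ (g := e.g) e.gen
    have h4 : gm d.U (fun k => (x k).1) + gm d.U (fun k => (x k).2.1) =
        d.F i + gm d.U (fun k => (x k).2.2.1) := by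
      show gm d.U ((fun k => (x k).1) + fun k => (x k).2.1) = gm d.U (d.f i + fun k => (x k).2.2.1)
      rw [gm_eq]
      filter_upwards [hx, hi] with k hk hik
      have h5 := hk.2.2.2
      rw [hik] at h5
      exact h5
    have h5 : (⟨_, d.mem_V hw⟩ : d.V) + ⟨_, d.mem_V hw'⟩ = ⟨d.F i, d.F_mem i⟩ + ⟨_, d.mem_V hw''⟩ :=
      Subtype.ext h4
    have h6 := congrArg e.Λ h5
    rw [map_add, map_add, h1, h2, h3, e.gen i] at h6
    have h7 : gm d.U ((fun k => d.psi e.g k (x k).1) + fun k => d.psi e.g k (x k).2.1) =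
        gm d.U (e.g i + fun k => d.psi e.g k (x k).2.2.1) := h6
    filter_upwards [gm_eq.1 h7, hi] with k hk hik
    rw [hik]
    exact hk

theorem Spc.tr_neg (e : Spc d v) : ∀ᶠ k in (d.U : Filter ℕ), ∀ w ∈ d.W k,
    d.psi e.g k (-w) = -d.psi e.g k w := by
  refine ev_forall (α := ℂ) (U := d.U) (S := fun k w => w ∈ d.W k)
    (P := fun k w => d.psi e.g k (-w) = -d.psi e.g k w) ?_
  intro w hw
  have hw' : ∀ᶠ k in (d.U : Filter ℕ), (fun k => -w k) k ∈ d.W k := hw.mono fun k h => d.sym k _ h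
  have h1 := d.lin hw e.Λ (g := e.g) e.gen
  have h2 := d.lin hw' e.Λ (g := e.g) e.gen
  have h3 : (⟨_, d.mem_V hw'⟩ : d.V) = -⟨_, d.mem_V hw⟩ := Subtype.ext rfl
  rw [h3, map_neg, h1] at h2
  have h4 : gm d.U (-fun k => d.psi e.g k (w k)) = gm d.U (fun k => d.psi e.g k (-w k)) := h2
  filter_upwards [gm_eq.1 h4] with k hk
  exact hk.symm

theorem Spc.tr_mul (e : Spc d v) : ∀ᶠ k in (d.U : Filter ℕ), ∀ a ∈ d.W k, ∀ w ∈ d.W k, ∀ i,
    (a - d.s k) * (d.f i k + w - d.t k) = d.c k →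
      (d.psi e.g k a - ev (fun j => e.S j k) (e.θ k) / (e.D k : ℂ)) *
        (e.g i k + d.psi e.g k w - ev (fun j => e.T j k) (e.θ k) / (e.D k : ℂ)) =
          ev (fun j => e.Z j k) (e.θ k) / (e.D k : ℂ) := by
  have key := ev_forall (α := ℂ × ℂ × Fin r) (U := d.U)
    (S := fun k x => x.1 ∈ d.W k ∧ x.2.1 ∈ d.W k ∧ (x.1 - d.s k) * (d.f x.2.2 k + x.2.1 - d.t k) = d.c k)
    (P := fun k x => (d.psi e.g k x.1 - ev (fun j => e.S j k) (e.θ k) / (e.D k : ℂ)) *
        (e.g x.2.2 k + d.psi e.g k x.2.1 - ev (fun j => e.T j k) (e.θ k) / (e.D k : ℂ)) =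
          ev (fun j => e.Z j k) (e.θ k) / (e.D k : ℂ)) ?_
  · filter_upwards [key] with k hk a ha w hw i h
    exact hk (a, w, i) ⟨ha, hw, h⟩
  · intro x hx
    obtain ⟨i, hi⟩ := fin_cases (U := d.U) (p := fun k i => (x k).2.2 = i)
      (Filter.Eventually.of_forall fun k => ⟨_, rfl⟩)
    have ha : ∀ᶠ k in (d.U : Filter ℕ), (fun k => (x k).1) k ∈ d.W k := hx.mono fun k h => h.1
    have hw : ∀ᶠ k in (d.U : Filter ℕ), (fun k => (x k).2.1) k ∈ d.W k := hx.mono fun k h => h.2.1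
    have h1 := d.lin ha e.Λ (g := e.g) e.gen
    have h2 := d.lin hw e.Λ (g := e.g) e.gen
    have h4 : (gm d.U (fun k => (x k).1) - gm d.U d.s) *
        (d.F i + gm d.U (fun k => (x k).2.1) - gm d.U d.t) = gm d.U d.c := by
      show gm d.U (((fun k => (x k).1) - d.s) * (d.f i + (fun k => (x k).2.1) - d.t)) = gm d.U d.c
      rw [gm_eq]
      filter_upwards [hx, hi] with k hk hik
      have h5 := hk.2.2
      rw [hik] at h5
      exact h5
    have h6 := e.mul ⟨_, d.mem_V ha⟩ (⟨d.F i, d.F_mem i⟩ + ⟨_, d.mem_V hw⟩) h4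
    rw [map_add, h1, h2, e.gen i] at h6
    have h7 : gm d.U (((fun k => d.psi e.g k (x k).1) - fun k => ev (fun j => e.S j k) (e.θ k) / (e.D k : ℂ)) *
        (e.g i + (fun k => d.psi e.g k (x k).2.1) - fun k => ev (fun j => e.T j k) (e.θ k) / (e.D k : ℂ))) =
        gm d.U (fun k => ev (fun j => e.Z j k) (e.θ k) / (e.D k : ℂ)) := h6
    filter_upwards [gm_eq.1 h7, hi] with k hk hik
    rw [hik]
    exact hk

end Pool.Agent.BD
end

section

/-!
# TASK BD IT: the same count for complex numbers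

PROOF. `θ` is algebraic over `ℚ` (a zero of the polynomial `P = ∑ j, C (G j : ℚ) X ^ j`, which is not `0` and has degree `≤ δ`), so `K = ℚ⟮θ⟯` (`IntermediateField.adjoin ℚ {θ}`) is a number field (finite-dimensional:
`IntermediateField.adjoin.finiteDimensional`; characteristic zero) with `finrank ℚ K = (minpoly ℚ θ).natDegree ≤ δ` (`IntermediateField.adjoin.finrank`, `minpoly.natDegree_le_of_ne_zero`/`minpoly.dvd` and degrees).
Let `θ' = IntermediateField.AdjoinSimple.gen ℚ θ : K`, so the inclusion `K → ℂ` maps `θ'` to `θ` and (`map_ev`) `ev A θ'` to `ev A θ`. By the first part of `Sm` every `y ∈ Y` and every partner `y'` is the image of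
`∑ i, x_i (ev (A i) θ' / D) ∈ K`; all the relations hold in `K` because the inclusion is injective. Apply `ix` to the set of the preimages (`Finset.card_le_card_of_surjOn`, or choose preimages and use
`Finset.card_image_of_injOn`).
-/

set_option autoImplicit false

namespace Pool.Agent.BD

theorem it (δ r : ℕ) {ε : ℝ} (hε : 0 < ε) : ∃ C : ℝ, 1 ≤ C ∧
    ∀ (M : ℝ), 1 ≤ M →
    ∀ (θ : ℂ) (G : Fin (δ + 1) → ℤ) (D : ℤ) (A : Fin r → Fin (δ + 1) → ℤ)
      (S T Z : Fin (δ + 1) → ℤ) (Q : ℕ) (Y : Finset ℂ),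
    G (Fin.last δ) ≠ 0 → ev G θ = 0 → D ≠ 0 → ev Z θ ≠ 0 → 1 ≤ Q → (Q : ℝ) ≤ M →
    (|D| : ℝ) ≤ M → (∀ j, (|G j| : ℝ) ≤ M ∧ (|S j| : ℝ) ≤ M ∧ (|T j| : ℝ) ≤ M ∧ (|Z j| : ℝ) ≤ M) →
    (∀ i j, (|A i j| : ℝ) ≤ M) →
    (∀ y ∈ Y, ∃ y', Sm θ D A Q M y ∧ Sm θ D A Q M y' ∧
      ((D : ℂ) * y - ev S θ) * ((D : ℂ) * y' - ev T θ) = (D : ℂ) * ev Z θ) →
    (Y.card : ℝ) ≤ C * M ^ ε := by
  classical
  obtain ⟨C, hC1, hC⟩ := ix δ r hε
  refine ⟨C, hC1, ?_⟩
  intro M hM θ G D A S T Z Q Y hG hGθ hD hZ hQ hQM hDM hb hA hY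
  obtain ⟨P, hP0, hPθ, hPd⟩ : ∃ P : Polynomial ℚ, P ≠ 0 ∧ Polynomial.aeval θ P = 0 ∧ P.natDegree ≤ δ := by
    refine ⟨∑ j : Fin (δ + 1), Polynomial.C (G j : ℚ) * Polynomial.X ^ (j : ℕ), ?_, ?_, ?_⟩
    · intro h0
      have h1 := congrArg (fun p => Polynomial.coeff p δ) h0
      simp only [Polynomial.finsetSum_coeff, Polynomial.coeff_C_mul, Polynomial.coeff_X_pow, Polynomial.coeff_zero] at h1
      rw [Finset.sum_eq_single (Fin.last δ)] at h1
      · simp at h1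
        exact hG h1
      · intro j _ hj
        rw [if_neg, mul_zero]
        intro h2
        exact hj (Fin.ext (by simpa using h2.symm))
      · intro h2
        exact absurd (Finset.mem_univ _) h2
    · rw [map_sum]
      rw [ev] at hGθ
      rw [← hGθ]
      refine Finset.sum_congr rfl fun j _ => ?_
      simp
    · refine Polynomial.natDegree_sum_le_of_forall_le _ _ fun j _ => ?_
      exact (Polynomial.natDegree_C_mul_X_pow_le _ _).trans (Nat.lt_succ_iff.mp j.2)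
  have hint : IsIntegral ℚ θ := by
    rw [← isAlgebraic_iff_isIntegral]
    exact ⟨P, hP0, hPθ⟩
  haveI hfd : FiniteDimensional ℚ (IntermediateField.adjoin ℚ ({θ} : Set ℂ)) :=
    IntermediateField.adjoin.finiteDimensional hint
  haveI : NumberField (IntermediateField.adjoin ℚ ({θ} : Set ℂ)) := { to_charZero := inferInstance, to_finiteDimensional := hfd }
  have hfr : Module.finrank ℚ (IntermediateField.adjoin ℚ ({θ} : Set ℂ)) ≤ δ := by
    rw [IntermediateField.adjoin.finrank hint]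
    exact (Polynomial.natDegree_le_of_dvd (minpoly.dvd ℚ θ hPθ) hP0).trans hPd
  set K := IntermediateField.adjoin ℚ ({θ} : Set ℂ) with hK
  obtain ⟨σ, hσi⟩ : ∃ σ : K →+* ℂ, ∀ z : K, σ z = (z : ℂ) := ⟨algebraMap K ℂ, fun z => rfl⟩
  have hinj : Function.Injective σ := σ.injective
  obtain ⟨θ', hθ'⟩ : ∃ θ' : K, σ θ' = θ := ⟨IntermediateField.AdjoinSimple.gen ℚ θ, by
    rw [hσi]; exact IntermediateField.AdjoinSimple.coe_gen ℚ θ⟩
  have hev : ∀ B : Fin (δ + 1) → ℤ, σ (ev B θ') = ev B θ := by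
    intro B
    rw [map_ev, hθ']
  have lift : ∀ y, Sm θ D A Q M y → ∃ y0 : K, σ y0 = y ∧ Sm θ' D A Q M y0 := by
    rintro y ⟨⟨x, hx, hxy⟩, ⟨z, hz⟩⟩
    refine ⟨∑ i, (x i : K) * (ev (A i) θ' / (D : K)), ?_, ⟨x, hx, rfl⟩, ⟨z, ?_⟩⟩
    · rw [map_sum, hxy]
      refine Finset.sum_congr rfl fun i _ => ?_
      rw [map_mul, map_div₀, hev, map_ratCast, map_intCast]
    · apply hinj
      rw [map_mul, map_natCast, map_sum, map_sum]
      have e1 : (∑ i, σ ((x i : K) * (ev (A i) θ' / (D : K)))) = y := by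
        rw [hxy]
        refine Finset.sum_congr rfl fun i _ => ?_
        rw [map_mul, map_div₀, hev, map_ratCast, map_intCast]
      rw [e1, hz]
      refine Finset.sum_congr rfl fun i _ => ?_
      rw [map_mul, map_div₀, hev, map_intCast, map_intCast]
  have hf : ∀ y : ℂ, ∃ y0 : K, y ∈ Y → σ y0 = y := by
    intro y
    by_cases hy : y ∈ Y
    · obtain ⟨y', h1, -, -⟩ := hY y hy
      obtain ⟨y0, h0, -⟩ := lift y h1
      exact ⟨y0, fun _ => h0⟩
    · exact ⟨0, fun h => absurd h hy⟩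
  choose f hf using hf
  have hcard : (Y.image f).card = Y.card := by
    apply Finset.card_image_of_injOn
    intro y1 h1 y2 h2 h12
    have e1 := hf y1 h1
    have e2 := hf y2 h2
    rw [← e1, ← e2]
    exact congrArg σ h12
  rw [← hcard]
  refine hC K hfr M hM θ' G D A S T Z Q (Y.image f) hG ?_ hD ?_ hQ hQM hDM hb hA ?_
  · apply hinj
    rw [hev, hGθ, map_zero]
  · intro h0
    apply hZ
    rw [← hev, h0, map_zero]
  · intro y0 hy0
    obtain ⟨y, hy, rfl⟩ := Finset.mem_image.mp hy0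
    obtain ⟨y', h1, h2, h3⟩ := hY y hy
    obtain ⟨a, ha, ha'⟩ := lift y h1
    obtain ⟨b, hb1, hb'⟩ := lift y' h2
    have hfa : f y = a := hinj ((hf y hy).trans ha.symm)
    refine ⟨b, ?_, hb', ?_⟩
    · rw [hfa]; exact ha'
    · rw [hfa]
      apply hinj
      rw [map_mul, map_mul, map_sub, map_sub, map_mul, map_mul, map_intCast, hev, hev, hev, ha, hb1]
      exact h3

end Pool.Agent.BD
end

section

/-!
# TASK BD C4: few values of psi

PROOF. Let `N = d.N k`, `M = (N + 2) ^ (m + 1)`, real, `M ≥ 1`. Take the constant `C` of `it δ r` for the exponent `ε = η / (4 (m + 1))`. For almost all `k` all of the following hold: `ev1`, `ev2`, `tr_add`, `tr_neg`,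
`tr_mul`, `N ≥ n₀` with `n₀` such that `C * (n + 2) ^ (η / 4) ≤ n ^ η` for `n ≥ n₀` (`big`). Fix such a `k`. Index lemma (`index_lemma`, `M' = M = ℂ`) with `A = AddSubgroup.closure (range (g . k))` and `ψ = psi`: `hneg` from `tr_neg` and `sym`,
`hadd` from `add` and `tr_add` (`ψ w + ψ w' - ψ w'' = g i k ∈ A`): there is `1 ≤ Q ≤ N` with `Q • psi w ∈ A`, i.e. `Q * psi w = ∑ z_i g_i` with integers `z_i`, for all `w ∈ W k`
(`AddSubgroup.mem_closure_range_iff`-like: closure of the range of a finite family; or `Submodule.span ℤ`, `Submodule.mem_span_range_iff_exists_fun`). Apply `it` with `θ = θ k`, `G = (G . k)`, `D = D k`, `A = (A . . k)`, `S, T, Z`, `Q`, `M` and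
`Y = (X k).image (psi g k)`: for `y = psi a`, `a ∈ X k`, there are `i`, `w ∈ W k` with `(a - s) (f i + w - t) = c`, and `y' = g i k + psi w`; `Sm` for `y`: `x_i = n_i / q`, `|x_i| ≤ N ≤ M`, `z` from above; `Sm` for `y'`: `x_j` plus `1` at
`j = i`, `z_j` plus `Q` at `j = i`, `|x_j| ≤ N + 1 ≤ 2 M`. The product relation is `tr_mul` multiplied by `D ^ 2`. So `Y.card ≤ C M ^ ε = C (N + 2) ^ (η / 4) ≤ N ^ η`.
(The bounds `|D k| ≤ (N + 2) ^ m ≤ M` etc. by casting the integer inequalities; `N ≤ M`.)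
-/

set_option autoImplicit false

open Filter

namespace Pool.Agent.BD

variable {r : ℕ} {d : Dat r} {v : d.V}

/-- the elementary inequality for large `n` -/
private theorem C4_large {η : ℝ} (hη : 0 < η) (C : ℝ) (hC : 1 ≤ C) : ∃ n₀ : ℕ, ∀ n : ℕ, n₀ ≤ n →
    C * ((n : ℝ) + 2) ^ (η / 4) ≤ (n : ℝ) ^ η := by
  have h1 := (tendsto_rpow_atTop (half_pos hη)).comp tendsto_natCast_atTop_atTop
  obtain ⟨n₁, hn₁⟩ := (h1.eventually_ge_atTop C).exists_forall_of_atTop
  refine ⟨max n₁ 2, fun n hn => ?_⟩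
  have h2 : C ≤ (n : ℝ) ^ (η / 2) := hn₁ n (le_trans (le_max_left _ _) hn)
  have h3 : (2 : ℝ) ≤ n := by exact_mod_cast le_trans (le_max_right _ _) hn
  have h4 : ((n : ℝ) + 2) ^ (η / 4) ≤ (n : ℝ) ^ (η / 2) := by
    have h5 : (n : ℝ) + 2 ≤ (n : ℝ) ^ (2 : ℝ) := by
      rw [Real.rpow_two]
      nlinarith
    calc ((n : ℝ) + 2) ^ (η / 4) ≤ ((n : ℝ) ^ (2 : ℝ)) ^ (η / 4) :=
          Real.rpow_le_rpow (by positivity) h5 (by positivity)
      _ = (n : ℝ) ^ (η / 2) := by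
          rw [← Real.rpow_mul (by positivity)]
          congr 1
          ring
  calc C * ((n : ℝ) + 2) ^ (η / 4) ≤ (n : ℝ) ^ (η / 2) * (n : ℝ) ^ (η / 2) := by
        apply mul_le_mul h2 h4 (by positivity) (by positivity)
    _ = (n : ℝ) ^ η := by
        rw [← Real.rpow_add (by linarith)]
        congr 1
        ring

private theorem C4_abs {a : ℤ} {N m : ℕ} (h : |a| ≤ ((N : ℤ) + 2) ^ m) :
    (|a| : ℝ) ≤ ((N : ℝ) + 2) ^ (m + 1) := by
  have h1 : ((|a| : ℤ) : ℝ) ≤ ((((N : ℤ) + 2) ^ m : ℤ) : ℝ) := by exact_mod_cast h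
  rw [Int.cast_abs] at h1
  push_cast at h1
  refine h1.trans ?_
  apply pow_le_pow_right₀ _ (Nat.le_succ m)
  have : (0 : ℝ) ≤ N := Nat.cast_nonneg _
  linarith

open Classical in
theorem Spc.few (e : Spc d v) {η : ℝ} (hη : 0 < η) (X : ℕ → Finset ℂ)
    (hX : ∀ k, ∀ a ∈ X k, a ∈ d.W k ∧ ∃ i, ∃ w ∈ d.W k, (a - d.s k) * (d.f i k + w - d.t k) = d.c k) :
    ∀ᶠ k in (d.U : Filter ℕ), (((X k).image (d.psi e.g k)).card : ℝ) ≤ (d.N k : ℝ) ^ η := by
  obtain ⟨C, hC, hit⟩ := it e.δ r (ε := η / (4 * ((e.m : ℝ) + 1))) (by positivity)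
  obtain ⟨n₀, hn₀⟩ := C4_large hη C hC
  filter_upwards [e.ev1, e.ev2, e.tr_add, e.tr_neg, e.tr_mul, d.big (max n₀ 1)] with k h1 h2 h3 h4 h5 h6
  have hN0 : n₀ ≤ d.N k := le_trans (le_max_left _ _) h6
  have hN1 : 1 ≤ d.N k := le_trans (le_max_right _ _) h6
  have hne : (d.W k).Nonempty := Finset.card_pos.1 hN1
  have hNr : (1 : ℝ) ≤ (d.N k : ℝ) := by exact_mod_cast hN1
  set M : ℝ := ((d.N k : ℝ) + 2) ^ (e.m + 1) with hM
  have hNM : (d.N k : ℝ) + 2 ≤ M := by
    rw [hM]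
    exact le_self_pow₀ (by linarith) (Nat.succ_ne_zero _)
  have hM1 : 1 ≤ M := by linarith
  obtain ⟨Q, hQ1, hQN, hQ⟩ := index_lemma
    (Submodule.span ℤ (Set.range (fun i => e.g i k))).toAddSubgroup hne (d.psi e.g k)
    (fun w hw => ⟨-w, d.sym k w hw, by rw [h4 w hw, add_neg_cancel]; exact zero_mem _⟩)
    (fun w hw w' hw' => by
      obtain ⟨i, w'', hw'', he⟩ := d.add k w hw w' hw'
      refine ⟨w'', hw'', ?_⟩
      rw [h3 w hw w' hw' w'' hw'' i he, add_sub_cancel_right]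
      exact Submodule.subset_span (Set.mem_range_self i))
  have hz : ∀ w ∈ d.W k, ∃ z : Fin r → ℤ,
      (Q : ℂ) * d.psi e.g k w = ∑ i, (z i : ℂ) * e.g i k := by
    intro w hw
    have h7 : Q • d.psi e.g k w ∈ Submodule.span ℤ (Set.range (fun i => e.g i k)) := hQ w hw
    obtain ⟨z, hz⟩ := (Submodule.mem_span_range_iff_exists_fun ℤ).1 h7
    refine ⟨z, ?_⟩
    rw [← nsmul_eq_mul, ← hz]
    refine Finset.sum_congr rfl fun i _ => ?_
    rw [zsmul_eq_mul]
  have hx : ∀ w ∈ d.W k, ∃ x : Fin r → ℚ, (∀ i, (|x i| : ℝ) ≤ (d.N k : ℝ)) ∧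
      d.psi e.g k w = ∑ i, (x i : ℂ) * e.g i k := by
    intro w hw
    obtain ⟨hq1, _, hqn, _⟩ := d.hq k w hw
    refine ⟨fun i => (d.n k w i : ℚ) / (d.q k w : ℚ), fun i => ?_, ?_⟩
    · push_cast
      rw [abs_div, Nat.abs_cast]
      have h8 : (|(d.n k w i)| : ℝ) ≤ (d.N k : ℝ) := by
        have := hqn i
        have h9 : ((|d.n k w i| : ℤ) : ℝ) ≤ (((d.W k).card : ℤ) : ℝ) := by exact_mod_cast this
        rw [Int.cast_abs] at h9
        exact_mod_cast h9
      have h10 : (1 : ℝ) ≤ (d.q k w : ℝ) := by exact_mod_cast hq1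
      exact (div_le_self (abs_nonneg _) h10).trans h8
    · unfold Dat.psi
      refine Finset.sum_congr rfl fun i _ => ?_
      push_cast
      rfl
  have hD : (e.D k : ℂ) ≠ 0 := by exact_mod_cast h1.2.2.1
  have key := hit M hM1 (e.θ k) (fun j => e.G j k) (e.D k) (fun i j => e.A i j k)
    (fun j => e.S j k) (fun j => e.T j k) (fun j => e.Z j k) Q ((X k).image (d.psi e.g k))
    h1.1 h1.2.1 h1.2.2.1 h1.2.2.2 hQ1
    (by
      have : (Q : ℝ) ≤ (d.N k : ℝ) := by exact_mod_cast hQN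
      linarith)
    (C4_abs h2.1)
    (fun j => ⟨C4_abs (h2.2.1 j).1, C4_abs (h2.2.1 j).2.1, C4_abs (h2.2.1 j).2.2.1,
      C4_abs (h2.2.1 j).2.2.2⟩)
    (fun i j => C4_abs (h2.2.2 i j))
    (by
      intro y hy
      obtain ⟨a, ha, rfl⟩ := Finset.mem_image.1 hy
      obtain ⟨haW, i, w, hw, hrel⟩ := hX k a ha
      refine ⟨e.g i k + d.psi e.g k w, ?_, ?_, ?_⟩
      · obtain ⟨x, hx1, hx2⟩ := hx a haW
        obtain ⟨z, hz1⟩ := hz a haW
        exact ⟨⟨x, fun i => by linarith [hx1 i], hx2⟩, z, hz1⟩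
      · obtain ⟨x, hx1, hx2⟩ := hx w hw
        obtain ⟨z, hz1⟩ := hz w hw
        refine ⟨⟨fun j => (if j = i then 1 else 0) + x j, fun j => ?_, ?_⟩,
          fun j => (if j = i then (Q : ℤ) else 0) + z j, ?_⟩
        · have h11 : |(((if j = i then 1 else 0) + x j : ℚ) : ℝ)| ≤ 1 + |(x j : ℝ)| := by
            push_cast
            refine (abs_add_le _ _).trans ?_
            gcongr
            split_ifs <;> simp
          refine h11.trans ?_
          linarith [hx1 j]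
        · rw [hx2]
          have h12 : e.g i k = ∑ j, (if j = i then (1 : ℂ) else 0) * e.g j k := by
            simp
          conv_lhs => rw [h12]
          rw [← Finset.sum_add_distrib]
          refine Finset.sum_congr rfl fun j _ => ?_
          show _ = ((((if j = i then 1 else 0) + x j : ℚ)) : ℂ) * e.g j k
          by_cases hj : j = i
          · rw [if_pos hj, if_pos hj]
            push_cast
            ring
          · rw [if_neg hj, if_neg hj]
            push_cast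
            ring
        · rw [mul_add, hz1]
          have h12 : (Q : ℂ) * e.g i k = ∑ j, (if j = i then (Q : ℂ) else 0) * e.g j k := by
            simp
          rw [h12, ← Finset.sum_add_distrib]
          refine Finset.sum_congr rfl fun j _ => ?_
          show _ = ((((if j = i then (Q : ℤ) else 0) + z j : ℤ)) : ℂ) * e.g j k
          by_cases hj : j = i
          · rw [if_pos hj, if_pos hj]
            push_cast
            ring
          · rw [if_neg hj, if_neg hj]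
            push_cast
            ring
      · have h13 := h5 a haW w hw i hrel
        have h14 : (e.D k : ℂ) ^ 2 * ((d.psi e.g k a - ev (fun j => e.S j k) (e.θ k) / (e.D k : ℂ)) *
            (e.g i k + d.psi e.g k w - ev (fun j => e.T j k) (e.θ k) / (e.D k : ℂ))) =
            (e.D k : ℂ) ^ 2 * (ev (fun j => e.Z j k) (e.θ k) / (e.D k : ℂ)) := by rw [h13]
        have h15 : (e.D k : ℂ) ^ 2 * ((d.psi e.g k a - ev (fun j => e.S j k) (e.θ k) / (e.D k : ℂ)) *
            (e.g i k + d.psi e.g k w - ev (fun j => e.T j k) (e.θ k) / (e.D k : ℂ))) =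
            ((e.D k : ℂ) * d.psi e.g k a - ev (fun j => e.S j k) (e.θ k)) *
              ((e.D k : ℂ) * (e.g i k + d.psi e.g k w) - ev (fun j => e.T j k) (e.θ k)) := by
          field_simp
        have h16 : (e.D k : ℂ) ^ 2 * (ev (fun j => e.Z j k) (e.θ k) / (e.D k : ℂ)) =
            (e.D k : ℂ) * ev (fun j => e.Z j k) (e.θ k) := by
          field_simp
        rw [h15, h16] at h14
        exact h14)
  refine key.trans (le_trans (le_of_eq ?_) (hn₀ _ hN0))
  congr 1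
  rw [hM, ← Real.rpow_natCast, ← Real.rpow_mul (by positivity)]
  congr 1
  push_cast
  field_simp

end Pool.Agent.BD
end

section

/-!
# TASK BD C5: the induction on the dimension

PROOF of `claim`. Induction on `n`. `V` is finitely generated (span of a finite set), so every `V0 ≤ V` is finite-dimensional over the field `H`. If `V0 = ⊥` (in particular if `n = 0`): suppose `¬ ∀ᶠ k, (X k).card ≤ 1`;
then `∀ᶠ k, 1 < (X k).card` (`Ultrafilter.eventually_not`), choose `a k ≠ a' k` in `X k` (`Finset.one_lt_card`); `gm a - gm a' ∈ ⊥`, so `a k = a' k` for almost all `k`, contradiction. And `1 ≤ N ^ η` for `N ≥ 1` (`big 1`).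
If `V0 ≠ ⊥` (`n = n' + 1`) take `v ∈ V0`, `v ≠ 0`, and `e : Spc d ⟨v, _⟩` from `spec`. By `Spc.few` with `η / 2`: `((X k).image psi).card ≤ N ^ (η / 2)` for almost all `k`. For every `k` choose `y k` such that the fibre
`X' k = (X k).filter (psi g k . = y k)` has the largest number of elements (`Finset.exists_max_image` on the image; if `X k` is empty take anything): `(X k).card ≤ ((X k).image psi).card * (X' k).card`
(`Finset.card_le_mul_card_image` or `Finset.card_eq_sum_card_image`). Let `V0' = V0 ⊓ (the image in Cs of the kernel of Λ)` (`Submodule.map V.subtype (LinearMap.ker Λ)`): `V0' < V0` because `v ∈ V0`, `Λ v ≠ 0`; so `finrank V0' ≤ n'`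
(`Submodule.finrank_lt_finrank_of_lt`). For `a, a'` with `a k, a' k ∈ X' k` for almost all `k`: `gm a - gm a' ∈ V0`, and (`Dat.lin` with `g = e.g`, `hg = e.gen`) `Λ (gm a) = gm (psi (a k)) = gm y = Λ (gm a')`, so `gm a - gm a' ∈ V0'`. The
induction hypothesis for `X'`, `V0'`, `η / 2` gives `(X' k).card ≤ N ^ (η / 2)`, so `(X k).card ≤ N ^ η` for almost all `k` (`Real.rpow_add`).
-/

set_option autoImplicit false

open Filter

namespace Pool.Agent.BD

private theorem C5_bot {r : ℕ} (d : Dat r) (V0 : Submodule d.H (Cs d.U)) (hV0 : V0 ≤ d.V)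
    (hfin : Module.finrank d.H V0 ≤ 0) (X : ℕ → Finset ℂ)
    (hX : ∀ a a' : ℕ → ℂ, (∀ᶠ k in (d.U : Filter ℕ), a k ∈ X k) →
      (∀ᶠ k in (d.U : Filter ℕ), a' k ∈ X k) → gm d.U a - gm d.U a' ∈ V0)
    (η : ℝ) (hη : 0 < η) : ∀ᶠ k in (d.U : Filter ℕ), ((X k).card : ℝ) ≤ (d.N k : ℝ) ^ η := by
  classical
  have hfd : FiniteDimensional d.H d.V := FiniteDimensional.span_of_finite d.H (Set.finite_range d.F)
  have hfd0 : FiniteDimensional d.H V0 := Submodule.finiteDimensional_of_le hV0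
  have hbot : V0 = ⊥ := Submodule.finrank_eq_zero.1 (Nat.le_zero.1 hfin)
  have hle : ∀ᶠ k in (d.U : Filter ℕ), (X k).card ≤ 1 := by
    by_contra hcon
    rw [← Ultrafilter.eventually_not] at hcon
    have hp : ∀ k, ∃ p : ℂ × ℂ, ¬ (X k).card ≤ 1 → p.1 ∈ X k ∧ p.2 ∈ X k ∧ p.1 ≠ p.2 := by
      intro k
      by_cases h : (X k).card ≤ 1
      · exact ⟨(0, 0), fun h' => absurd h h'⟩
      · obtain ⟨a, ha, b, hb, hab⟩ := Finset.one_lt_card.1 (not_le.1 h)
        exact ⟨(a, b), fun _ => ⟨ha, hb, hab⟩⟩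
    choose p hp using hp
    have h1 := hX (fun k => (p k).1) (fun k => (p k).2)
      (hcon.mono fun k hk => (hp k hk).1) (hcon.mono fun k hk => (hp k hk).2.1)
    rw [hbot, Submodule.mem_bot, sub_eq_zero, gm_eq] at h1
    have h2 : ∀ᶠ k in (d.U : Filter ℕ), False := by
      filter_upwards [h1, hcon] with k h3 h4
      exact (hp k h4).2.2 h3
    exact (Filter.eventually_false_iff_eq_bot.1 h2 |> d.U.neBot.ne)
  filter_upwards [hle, d.big 1] with k h1 h2
  have h3 : (1 : ℝ) ≤ (d.N k : ℝ) := by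
    have : 1 ≤ d.N k := h2
    exact_mod_cast this
  have h4 : ((X k).card : ℝ) ≤ 1 := by exact_mod_cast h1
  exact h4.trans (Real.one_le_rpow h3 hη.le)

theorem claim {r : ℕ} (d : Dat r) (n : ℕ) : ∀ (V0 : Submodule d.H (Cs d.U)), V0 ≤ d.V →
    Module.finrank d.H V0 ≤ n → ∀ (X : ℕ → Finset ℂ),
    (∀ k, ∀ a ∈ X k, a ∈ d.W k ∧ ∃ i, ∃ w ∈ d.W k, (a - d.s k) * (d.f i k + w - d.t k) = d.c k) →
    (∀ a a' : ℕ → ℂ, (∀ᶠ k in (d.U : Filter ℕ), a k ∈ X k) →
      (∀ᶠ k in (d.U : Filter ℕ), a' k ∈ X k) → gm d.U a - gm d.U a' ∈ V0) →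
    ∀ η : ℝ, 0 < η → ∀ᶠ k in (d.U : Filter ℕ), ((X k).card : ℝ) ≤ (d.N k : ℝ) ^ η := by
  classical
  induction n with
  | zero =>
    intro V0 hV0 hfin X hXW hX η hη
    exact C5_bot d V0 hV0 hfin X hX η hη
  | succ n ih =>
    intro V0 hV0 hfin X hXW hX η hη
    have hfd : FiniteDimensional d.H d.V := FiniteDimensional.span_of_finite d.H (Set.finite_range d.F)
    have hfd0 : FiniteDimensional d.H V0 := Submodule.finiteDimensional_of_le hV0
    by_cases hbot : V0 = ⊥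
    · refine C5_bot d V0 hV0 ?_ X hX η hη
      rw [hbot, finrank_bot]
    · obtain ⟨v, hv, hv0⟩ := Submodule.exists_mem_ne_zero_of_ne_bot hbot
      have hv' : (⟨v, hV0 hv⟩ : d.V) ≠ 0 := by
        intro h
        exact hv0 (congrArg Subtype.val h)
      obtain ⟨e⟩ := spec d ⟨v, hV0 hv⟩ hv'
      have hfew := e.few (half_pos hη) X hXW
      have hy : ∀ k, ∃ y : ℂ, (X k).card ≤ ((X k).image (d.psi e.g k)).card *
          ((X k).filter (fun a => d.psi e.g k a = y)).card := by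
        intro k
        rcases Finset.eq_empty_or_nonempty (X k) with h | h
        · exact ⟨0, by simp [h]⟩
        · obtain ⟨y, -, hy⟩ := Finset.exists_max_image ((X k).image (d.psi e.g k))
            (fun y => ((X k).filter (fun a => d.psi e.g k a = y)).card) (h.image _)
          refine ⟨y, ?_⟩
          rw [Finset.card_eq_sum_card_image (d.psi e.g k) (X k)]
          calc _ ≤ ∑ z ∈ (X k).image (d.psi e.g k),
                ((X k).filter (fun a => d.psi e.g k a = y)).card := Finset.sum_le_sum hy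
            _ = _ := by rw [Finset.sum_const, smul_eq_mul]
      choose y hy using hy
      have hlt : V0 ⊓ Submodule.map d.V.subtype (LinearMap.ker e.Λ) < V0 := by
        refine lt_of_le_of_ne inf_le_left fun h => ?_
        have h1 : v ∈ V0 ⊓ Submodule.map d.V.subtype (LinearMap.ker e.Λ) := by
          rw [h]; exact hv
        obtain ⟨-, w, hw, hwv⟩ := h1
        have h2 : w = ⟨v, hV0 hv⟩ := Subtype.ext hwv
        rw [h2] at hw
        exact e.ne_v (LinearMap.mem_ker.1 hw)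
      have hfin' : Module.finrank d.H
          ↥(V0 ⊓ Submodule.map d.V.subtype (LinearMap.ker e.Λ)) ≤ n := by
        have := Submodule.finrank_lt_finrank_of_lt hlt
        omega
      have hih := ih (V0 ⊓ Submodule.map d.V.subtype (LinearMap.ker e.Λ))
        (inf_le_left.trans hV0) hfin'
        (fun k => (X k).filter (fun a => d.psi e.g k a = y k))
        (fun k a ha => hXW k a (Finset.mem_filter.1 ha).1)
        (by
          intro a a' ha ha'
          have hm : ∀ b : ℕ → ℂ, (∀ᶠ k in (d.U : Filter ℕ),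
              b k ∈ (X k).filter (fun a => d.psi e.g k a = y k)) →
              ∀ᶠ k in (d.U : Filter ℕ), b k ∈ d.W k := fun b hb =>
            hb.mono fun k hk => (hXW k _ (Finset.mem_filter.1 hk).1).1
          have hl : ∀ b : ℕ → ℂ, (hb : ∀ᶠ k in (d.U : Filter ℕ),
              b k ∈ (X k).filter (fun a => d.psi e.g k a = y k)) →
              e.Λ ⟨gm d.U b, d.mem_V (hm b hb)⟩ = gm d.U y := by
            intro b hb
            rw [d.lin (hm b hb) e.Λ (g := e.g) e.gen]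
            rw [gm_eq]
            exact hb.mono fun k hk => (Finset.mem_filter.1 hk).2
          refine ⟨hX a a' (ha.mono fun k hk => (Finset.mem_filter.1 hk).1)
            (ha'.mono fun k hk => (Finset.mem_filter.1 hk).1), ?_⟩
          refine ⟨⟨gm d.U a, d.mem_V (hm a ha)⟩ - ⟨gm d.U a', d.mem_V (hm a' ha')⟩, ?_, rfl⟩
          show _ ∈ LinearMap.ker e.Λ
          rw [LinearMap.mem_ker, map_sub, hl a ha, hl a' ha', sub_self])
        (η / 2) (half_pos hη)
      filter_upwards [hfew, hih, d.big 1] with k h1 h2 h3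
      have hN : (0 : ℝ) < (d.N k : ℝ) := by
        have : 1 ≤ d.N k := h3
        exact_mod_cast this
      have h4 : ((X k).card : ℝ) ≤ (((X k).image (d.psi e.g k)).card : ℝ) *
          (((X k).filter (fun a => d.psi e.g k a = y k)).card : ℝ) := by
        exact_mod_cast hy k
      calc ((X k).card : ℝ) ≤ (((X k).image (d.psi e.g k)).card : ℝ) *
          (((X k).filter (fun a => d.psi e.g k a = y k)).card : ℝ) := h4
        _ ≤ (d.N k : ℝ) ^ (η / 2) * (d.N k : ℝ) ^ (η / 2) :=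
            mul_le_mul h1 h2 (by positivity) (by positivity)
        _ = (d.N k : ℝ) ^ η := by
            rw [← Real.rpow_add hN]
            congr 1
            ring

end Pool.Agent.BD
end
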