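import Pool.Agent.Lib.MP_d807e3_co.Mg.G002
import Pool.Agent.Lib.MP_d807e3_co.Energy

section

/-!
# TASK BD CR: the divisor bound for sets with a covering property

PROOF of `core`. Suppose not. Then for every natural number `k` (`C = k + 1`) there are `W k`, `f k`, `s k`, `t k`, `c k` as in the statement with `(X k).card > (k + 1) * (W k).card ^ ε`, where `X k` is the filtered set.
`X k ⊆ W k`, so `(W k).card ≥ (X k).card > k + 1` (`(W k).card ^ ε ≥ 1` because `W k` is nonempty), hence `(W k).card ≥ k`. Build a `Dat r` with `U = Filter.hyperfilter ℕ`, `W`, `f i k = f k i`, and `q`, `n` chosen from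
`weak_freiman` (choice; `q • w = q * w`, `n • f = n * f` in `ℂ`); `big n`: `∀ᶠ k in hyperfilter, n ≤ (W k).card` since this holds for all `k ≥ n` (`Nat.hyperfilter_le_atTop`, `Filter.eventually_ge_atTop`).
`claim` with `V0 = V` (`n = finrank`), `X`, `η = ε`: the difference condition holds by `Dat.mem_V`. So `(X k).card ≤ (W k).card ^ ε` for almost all `k`, contradiction to `> (k + 1) * (W k).card ^ ε` (there is such a `k`: `Filter.Eventually.exists`).
-/

set_option autoImplicit false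

open Filter

namespace Pool.Agent.BD

open Classical in
theorem core (r : ℕ) {ε : ℝ} (hε : 0 < ε) : ∃ C : ℝ, ∀ (W : Finset ℂ) (f : Fin r → ℂ),
    W.Nonempty → (∀ w ∈ W, -w ∈ W) →
    (∀ w ∈ W, ∀ w' ∈ W, ∃ i, ∃ w'' ∈ W, w + w' = f i + w'') → ∀ s t c : ℂ, c ≠ 0 →
    ((W.filter (fun a => ∃ i, ∃ w ∈ W, (a - s) * (f i + w - t) = c)).card : ℝ) ≤
      C * (W.card : ℝ) ^ ε := by
  by_contra hcon
  push Not at hcon
  choose W f hne hsym hadd s t c hc hlt using fun k : ℕ => hcon ((k : ℝ) + 1)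
  have hbig : ∀ k : ℕ, k ≤ (W k).card := by
    intro k
    have h1 : (1 : ℝ) ≤ ((W k).card : ℝ) := by
      exact_mod_cast Finset.card_pos.mpr (hne k)
    have h2 : (1 : ℝ) ≤ ((W k).card : ℝ) ^ ε := Real.one_le_rpow h1 hε.le
    have h3 : (((W k).filter (fun a => ∃ i, ∃ w ∈ W k,
        (a - s k) * (f k i + w - t k) = c k)).card : ℝ) ≤ ((W k).card : ℝ) := by
      exact_mod_cast Finset.card_filter_le _ _
    have h4 : ((k : ℝ) + 1) * 1 ≤ ((k : ℝ) + 1) * ((W k).card : ℝ) ^ ε :=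
      mul_le_mul_of_nonneg_left h2 (by positivity)
    have h5 := hlt k
    have h6 : (k : ℝ) ≤ ((W k).card : ℝ) := by linarith
    exact_mod_cast h6
  have hq : ∀ k : ℕ, ∀ w : ℂ, ∃ (q : ℕ) (n : Fin r → ℤ), w ∈ W k →
      (1 ≤ q ∧ q ≤ (W k).card ∧ (∀ i, |n i| ≤ ((W k).card : ℤ)) ∧
        (q : ℂ) * w = ∑ i, (n i : ℂ) * f k i) := by
    intro k w
    by_cases hw : w ∈ W k
    · obtain ⟨q, n, h1, h2, h3, h4⟩ := weak_freiman (hadd k) hw
      refine ⟨q, n, fun _ => ⟨h1, h2, h3, ?_⟩⟩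
      rw [nsmul_eq_mul] at h4
      rw [h4]
      exact Finset.sum_congr rfl (fun i _ => zsmul_eq_mul _ _)
    · exact ⟨0, 0, fun h => absurd h hw⟩
  choose q n hqn using hq
  let d : Dat r :=
    { U := Filter.hyperfilter ℕ
      W := W
      f := fun i k => f k i
      s := s
      t := t
      c := c
      sym := hsym
      add := hadd
      ne := hc
      big := by
        intro m
        have h : ∀ᶠ k in (atTop : Filter ℕ), m ≤ (W k).card := by
          filter_upwards [eventually_ge_atTop m] with k hk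
          exact hk.trans (hbig k)
        exact h.filter_mono Nat.hyperfilter_le_atTop
      q := q
      n := n
      hq := fun k w hw => hqn k w hw }
  have key := claim d (Module.finrank d.H d.V) d.V le_rfl le_rfl
    (fun k => (W k).filter (fun a => ∃ i, ∃ w ∈ W k, (a - s k) * (f k i + w - t k) = c k))
    (by
      intro k a ha
      exact Finset.mem_filter.mp ha)
    (by
      intro a a' ha ha'
      refine Submodule.sub_mem _ (d.mem_V ?_) (d.mem_V ?_)
      · exact ha.mono (fun k hk => (Finset.mem_filter.mp hk).1)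
      · exact ha'.mono (fun k hk => (Finset.mem_filter.mp hk).1))
    ε hε
  obtain ⟨k, hk⟩ := key.exists
  have h1 := hlt k
  have h0 : (0 : ℝ) ≤ ((W k).card : ℝ) ^ ε := by positivity
  have h2 : ((W k).card : ℝ) ^ ε ≤ ((k : ℝ) + 1) * ((W k).card : ℝ) ^ ε := by
    have hk0 : (0 : ℝ) ≤ (k : ℝ) := by positivity
    nlinarith
  have h3 : (((W k).filter (fun a => ∃ i, ∃ w ∈ W k,
      (a - s k) * (f k i + w - t k) = c k)).card : ℝ) ≤ ((W k).card : ℝ) ^ ε := hk
  linarith

end Pool.Agent.BD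
end

section

/-!
# TASK BD DB: sets of small doubling

PROOF of `db`. We may assume `K ≥ 1` (otherwise, as `|T + T| ≥ |T| ≥ 1`, there is no such `T`; or use `max K 1`). Let `W = T - T`: nonempty, `-W = W`, `|W| ≤ K ^ 2 |T|` and `|(W + W) + T| = |3 T - 2 T| ≤ K ^ 5 |T|` by
`Finset.pluennecke_ruzsa_inequality_nsmul_sub_nsmul_add` with `A = B = T` (`m = n = 1`; `m = 3`, `n = 2`; compare `pluennecke4` in Lib/MP_d807e3_co/SmallDoubling.lean, `pluennecke5` in Struct.lean). Ruzsa's covering lemma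
(`Finset.ruzsa_covering_add` with `A = W + W`, `B = T`): `W + W ⊆ F + (T - T) = F + W` with `|F| ≤ K ^ 5`. Let `r = ⌊K ^ 5⌋₊` (or `⌈.⌉₊`), `r ≥ 1`; `F` is nonempty, so there is `f : Fin r → ℂ` whose range contains `F`
(`F.equivFin` and padding). Take `C₀` from `core r`. Fix `x₀ ∈ T`. The map `(x, x') ↦ x - x'` sends the set into `{a ∈ W | ∃ i, ∃ w ∈ W, (a - s) * (f i + w - (t - 2 x₀)) = c}`: `x + x' - 2 x₀ = (x - x₀) + (x' - x₀) ∈ W + W ⊆ F + W`. It is
injective on the set: `a = x - x'` determines `x + x' = t + c / (a - s)` (`a ≠ s` because `c ≠ 0`), so `x` and `x'`. Hence the number is at most `C₀ |W| ^ ε ≤ C₀ (K ^ 2) ^ ε |T| ^ ε` (replace `C₀` by `max C₀ 0`).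

PROOF of `db_real`. The image of `T` under `ℝ → ℂ` (`Finset.image`/`map` by the injective additive map) has the same doubling; the set injects.
-/

set_option autoImplicit false

open scoped Pointwise

namespace Pool.Agent.BD

open Classical in
private theorem DB_pl (T : Finset ℂ) (hne : T.Nonempty) (K : ℝ)
    (hK : ((T + T).card : ℝ) ≤ K * T.card) :
    (((T - T).card : ℝ) ≤ K ^ 2 * T.card) ∧
      (((((T - T) + (T - T)) + T).card : ℝ) ≤ K ^ 5 * T.card) := by
  have hT : (0 : ℝ) < T.card := by exact_mod_cast Finset.card_pos.2 hne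
  have hq : ((T + T).card : ℝ) / T.card ≤ K := by
    rw [div_le_iff₀ hT]
    exact hK
  have hq0 : (0 : ℝ) ≤ ((T + T).card : ℝ) / T.card := by positivity
  constructor
  · have h1 := Finset.pluennecke_ruzsa_inequality_nsmul_sub_nsmul_add hne T 1 1
    have h2 : T - T = 1 • T - 1 • T := by rw [one_nsmul]
    rw [← h2] at h1
    have h3 : ((T - T).card : ℝ) ≤ (((T + T).card : ℝ) / T.card) ^ 2 * T.card := by
      have h4 := (NNRat.cast_le (K := ℝ)).2 h1
      push_cast at h4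
      simpa using h4
    refine h3.trans ?_
    gcongr
  · have h1 := Finset.pluennecke_ruzsa_inequality_nsmul_sub_nsmul_add hne T 3 2
    have h2 : ((T - T) + (T - T)) + T = 3 • T - 2 • T := by
      have h5 : (3 : ℕ) • T = 2 • T + T := succ_nsmul T 2
      rw [h5, two_nsmul, sub_add_sub_comm, sub_add_eq_add_sub]
    rw [← h2] at h1
    have h3 : ((((T - T) + (T - T)) + T).card : ℝ) ≤
        (((T + T).card : ℝ) / T.card) ^ 5 * T.card := by
      have h4 := (NNRat.cast_le (K := ℝ)).2 h1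
      push_cast at h4
      simpa using h4
    refine h3.trans ?_
    gcongr

private theorem DB_fin (F : Finset ℂ) (r : ℕ) (h : F.card ≤ r) :
    ∃ f : Fin r → ℂ, ∀ x ∈ F, ∃ i, f i = x := by
  classical
  refine ⟨fun i => if h' : i.val < F.card then (F.equivFin.symm ⟨i.val, h'⟩ : ℂ) else 0,
    fun x hx => ?_⟩
  refine ⟨⟨(F.equivFin ⟨x, hx⟩).val, lt_of_lt_of_le (F.equivFin ⟨x, hx⟩).isLt h⟩, ?_⟩
  have h' : (F.equivFin ⟨x, hx⟩).val < F.card := (F.equivFin ⟨x, hx⟩).isLt
  beta_reduce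
  rw [dif_pos h']
  have e : (⟨(F.equivFin ⟨x, hx⟩).val, h'⟩ : Fin F.card) = F.equivFin ⟨x, hx⟩ := rfl
  rw [e, Equiv.symm_apply_apply]

open Classical in
theorem db (K : ℝ) {ε : ℝ} (hε : 0 < ε) : ∃ C : ℝ, 0 ≤ C ∧ ∀ T : Finset ℂ, T.Nonempty →
    ((T + T).card : ℝ) ≤ K * T.card → ∀ s t c : ℂ, c ≠ 0 →
    (((T ×ˢ T).filter (fun p => (p.1 - p.2 - s) * (p.1 + p.2 - t) = c)).card : ℝ) ≤
      C * (T.card : ℝ) ^ ε := by
  obtain ⟨C₀, hC₀⟩ := core ⌊(max K 1) ^ 5⌋₊ hε
  have hK0 : (0 : ℝ) ≤ max K 1 := le_trans zero_le_one (le_max_right _ _)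
  have hK2 : (0 : ℝ) ≤ (max K 1) ^ 2 := pow_nonneg hK0 2
  refine ⟨max C₀ 0 * ((max K 1) ^ 2) ^ ε,
    mul_nonneg (le_max_right _ _) (Real.rpow_nonneg hK2 _), ?_⟩
  intro T hne hT s t c hc
  have hTpos : (0 : ℝ) ≤ T.card := Nat.cast_nonneg _
  obtain ⟨h1, h2⟩ := DB_pl T hne (max K 1)
    (hT.trans (mul_le_mul_of_nonneg_right (le_max_left _ _) hTpos))
  obtain ⟨F, -, hF1, hF2⟩ := Finset.ruzsa_covering_add hne h2
  obtain ⟨f, hf⟩ := DB_fin F ⌊(max K 1) ^ 5⌋₊ (Nat.le_floor hF1)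
  obtain ⟨x₀, hx₀⟩ := hne
  have hcov : ∀ w ∈ T - T, ∀ w' ∈ T - T, ∃ i, ∃ w'' ∈ T - T, w + w' = f i + w'' := by
    intro w hw w' hw'
    obtain ⟨φ, hφ, w'', hw'', e⟩ := Finset.mem_add.1 (hF2 (Finset.add_mem_add hw hw'))
    obtain ⟨i, hi⟩ := hf φ hφ
    exact ⟨i, w'', hw'', by rw [hi, e]⟩
  have hsymm : ∀ w ∈ T - T, -w ∈ T - T := by
    intro w hw
    obtain ⟨x, hx, y, hy, e⟩ := Finset.mem_sub.1 hw
    rw [← e, neg_sub]
    exact Finset.sub_mem_sub hy hx
  have h3 := hC₀ (T - T) f (Finset.Nonempty.sub ⟨x₀, hx₀⟩ ⟨x₀, hx₀⟩) hsymm hcov s (t - 2 * x₀) c hc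
  have h4 : ((T ×ˢ T).filter (fun p => (p.1 - p.2 - s) * (p.1 + p.2 - t) = c)).card ≤
      ((T - T).filter (fun a => ∃ i, ∃ w ∈ T - T, (a - s) * (f i + w - (t - 2 * x₀)) = c)).card := by
    refine Finset.card_le_card_of_injOn (fun p => p.1 - p.2) ?_ ?_
    · intro p hp
      have hp' := Finset.mem_filter.1 hp
      obtain ⟨hp1, hp2⟩ := Finset.mem_product.1 hp'.1
      refine Finset.mem_coe.2 (Finset.mem_filter.2 ⟨Finset.sub_mem_sub hp1 hp2, ?_⟩)
      obtain ⟨i, w, hw, e⟩ := hcov _ (Finset.sub_mem_sub hp1 hx₀) _ (Finset.sub_mem_sub hp2 hx₀)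
      refine ⟨i, w, hw, ?_⟩
      rw [← e, ← hp'.2]
      ring
    · intro p hp q hq hpq
      have hp' := (Finset.mem_filter.1 hp).2
      have hq' := (Finset.mem_filter.1 hq).2
      have hpq' : p.1 - p.2 = q.1 - q.2 := hpq
      have h5 : p.1 - p.2 - s ≠ 0 := by
        intro h0
        rw [h0, zero_mul] at hp'
        exact hc hp'.symm
      have h6 : (p.1 - p.2 - s) * (p.1 + p.2 - t) = (p.1 - p.2 - s) * (q.1 + q.2 - t) := by
        rw [hp', hpq', hq']
      have h7 := mul_left_cancel₀ h5 h6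
      have h8 : p.1 = q.1 := by linear_combination (1 / 2 : ℂ) * h7 + (1 / 2 : ℂ) * hpq'
      have h9 : p.2 = q.2 := by linear_combination (1 / 2 : ℂ) * h7 - (1 / 2 : ℂ) * hpq'
      exact Prod.ext h8 h9
  have h5 : (((T ×ˢ T).filter (fun p => (p.1 - p.2 - s) * (p.1 + p.2 - t) = c)).card : ℝ) ≤
      C₀ * ((T - T).card : ℝ) ^ ε := le_trans (by exact_mod_cast h4) h3
  refine h5.trans ?_
  have h6 : (0 : ℝ) ≤ ((T - T).card : ℝ) ^ ε := Real.rpow_nonneg (Nat.cast_nonneg _) _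
  have h7 : ((T - T).card : ℝ) ^ ε ≤ ((max K 1) ^ 2) ^ ε * (T.card : ℝ) ^ ε := by
    rw [← Real.mul_rpow hK2 hTpos]
    exact Real.rpow_le_rpow (Nat.cast_nonneg _) h1 hε.le
  calc C₀ * ((T - T).card : ℝ) ^ ε ≤ max C₀ 0 * ((T - T).card : ℝ) ^ ε :=
        mul_le_mul_of_nonneg_right (le_max_left _ _) h6
    _ ≤ max C₀ 0 * (((max K 1) ^ 2) ^ ε * (T.card : ℝ) ^ ε) :=
        mul_le_mul_of_nonneg_left h7 (le_max_right _ _)
    _ = max C₀ 0 * ((max K 1) ^ 2) ^ ε * (T.card : ℝ) ^ ε := by ring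

open Classical in
theorem db_real (K : ℝ) {ε : ℝ} (hε : 0 < ε) : ∃ C : ℝ, 0 ≤ C ∧ ∀ T : Finset ℝ, T.Nonempty →
    ((T + T).card : ℝ) ≤ K * T.card → ∀ s t c : ℝ, c ≠ 0 →
    (((T ×ˢ T).filter (fun p => (p.1 - p.2 - s) * (p.1 + p.2 - t) = c)).card : ℝ) ≤
      C * (T.card : ℝ) ^ ε := by
  obtain ⟨C, hC, hdb⟩ := db K hε
  refine ⟨C, hC, ?_⟩
  intro T hne hT s t c hc
  have hinj : Function.Injective (Complex.ofRealHom : ℝ →+* ℂ) := Complex.ofReal_injective
  have hcard : (T.image Complex.ofRealHom).card = T.card := Finset.card_image_of_injective _ hinj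
  have hadd : T.image Complex.ofRealHom + T.image Complex.ofRealHom =
      (T + T).image Complex.ofRealHom := (Finset.image_add Complex.ofRealHom).symm
  have h1 := hdb (T.image Complex.ofRealHom) (hne.image _)
    (by
      rw [hadd, Finset.card_image_of_injective _ hinj, hcard]
      exact hT) (s : ℂ) (t : ℂ) (c : ℂ) (Complex.ofReal_ne_zero.2 hc)
  rw [hcard] at h1
  refine le_trans ?_ h1
  have h2 : ((T ×ˢ T).filter (fun p => (p.1 - p.2 - s) * (p.1 + p.2 - t) = c)).card ≤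
      ((T.image Complex.ofRealHom ×ˢ T.image Complex.ofRealHom).filter
        (fun p => (p.1 - p.2 - (s : ℂ)) * (p.1 + p.2 - (t : ℂ)) = (c : ℂ))).card := by
    refine Finset.card_le_card_of_injOn (fun p => (Complex.ofRealHom p.1, Complex.ofRealHom p.2))
      ?_ ?_
    · intro p hp
      have hp' := Finset.mem_filter.1 hp
      obtain ⟨hp1, hp2⟩ := Finset.mem_product.1 hp'.1
      refine Finset.mem_coe.2 (Finset.mem_filter.2 ⟨Finset.mem_product.2
        ⟨Finset.mem_image_of_mem _ hp1, Finset.mem_image_of_mem _ hp2⟩, ?_⟩)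
      have h3 : (((p.1 - p.2 - s) * (p.1 + p.2 - t) : ℝ) : ℂ) = (c : ℂ) := by rw [hp'.2]
      push_cast at h3
      exact h3
    · intro p _ q _ hpq
      have h3 := (Prod.mk.injEq _ _ _ _).mp hpq
      exact Prod.ext (hinj h3.1) (hinj h3.2)
  exact_mod_cast h2

end Pool.Agent.BD
end

section

/-!
# TASK BD EN: the energy argument
-/

set_option autoImplicit false

open Finset
open scoped Pointwise

namespace Pool.Agent.BD

open Pool.Agent.MP_d807e3_co

private theorem EN_fiber (T₁ T₂ : Finset ℝ) (f : ℝ → ℝ → ℝ) :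
    ∑ z ∈ T₁ ×ˢ T₂, ∑ z' ∈ T₁ ×ˢ T₂, (if f z.1 z.2 = f z'.1 z'.2 then 1 else 0) =
      ∑ p ∈ T₂ ×ˢ T₂, ((T₁ ×ˢ T₁).filter (fun q => f q.1 p.1 = f q.2 p.2)).card := by
  classical
  simp only [Finset.card_filter, Finset.sum_product]
  rw [Finset.sum_comm]
  refine Finset.sum_congr rfl (fun t _ => ?_)
  have : ∀ i ∈ T₁, ∑ i' ∈ T₁, ∑ t' ∈ T₂, (if f i t = f i' t' then 1 else 0) =
      ∑ t' ∈ T₂, ∑ i' ∈ T₁, (if f i t = f i' t' then 1 else 0) :=
    fun i _ => Finset.sum_comm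
  rw [Finset.sum_congr rfl this, Finset.sum_comm]

open Classical in
theorem abstract_bd (K : ℝ) {ε : ℝ} (hε : 0 < ε) :
    ∃ K' : ℝ, 1 ≤ K' ∧ ∀ (A B C D E F : ℝ) (T T₁ T₂ : Finset ℝ),
      0 < A → B ^ 2 < A * C → T.Nonempty → ((T + T).card : ℝ) ≤ K * T.card → T₁ ⊆ T →
      (T₁.card : ℝ) * min (T₁.card : ℝ) (T₂.card : ℝ) ≤
        K' * (T.card : ℝ) ^ ε *
          (((T₁ ×ˢ T₂).image (fun z => qf A B C D E F z.1 z.2)).card : ℝ) := by
  obtain ⟨C₀, hC₀, hyp⟩ := db_real K hε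
  refine ⟨4 + C₀, by linarith, ?_⟩
  intro A B C D E F T T₁ T₂ hA hAC hT hTT hT₁
  set f : ℝ → ℝ → ℝ := fun i t => qf A B C D E F i t with hf
  set m : ℝ := (T₁.card : ℝ) with hm
  set n : ℝ := (T₂.card : ℝ) with hn
  set Dn : ℝ := (((T₁ ×ˢ T₂).image (fun z => qf A B C D E F z.1 z.2)).card : ℝ) with hDn
  have hm0 : 0 ≤ m := by positivity
  have hn0 : 0 ≤ n := by positivity
  have hDn0 : 0 ≤ Dn := by positivity
  set N : ℝ := (T.card : ℝ) with hN
  set Bd : ℝ := C₀ * N ^ ε with hBd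
  have hNε : (1 : ℝ) ≤ N ^ ε := Real.one_le_rpow (by rw [hN]; exact_mod_cast hT.card_pos) hε.le
  have hBd0 : 0 ≤ Bd := by positivity
  set τ : ℝ := 2 * (A * E - B * D) / (A * C - B ^ 2) with hτ
  have hdet : 0 < A * C - B ^ 2 := by linarith
  -- bad pairs
  set bad : ℝ × ℝ → Prop := fun p => p.1 = p.2 ∨ p.1 + p.2 = τ with hbad
  -- bound for good pairs
  have hgood : ∀ p : ℝ × ℝ, ¬ bad p →
      (((T₁ ×ˢ T₁).filter (fun q => f q.1 p.1 = f q.2 p.2)).card : ℝ) ≤ Bd := by
    intro p hp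
    simp only [hbad, not_or] at hp
    obtain ⟨hp1, hp2⟩ := hp
    have hR : (p.1 - p.2) * (2 * (A * E - B * D) - (A * C - B ^ 2) * (p.1 + p.2)) ≠ 0 := by
      apply mul_ne_zero
      · exact sub_ne_zero.2 hp1
      · intro h0
        apply hp2
        rw [hτ, eq_div_iff hdet.ne']
        linarith
    have h1 := hyp T hT hTT (B * (p.1 - p.2) / A) ((B * (p.1 + p.2) - 2 * D) / A)
      ((p.1 - p.2) * (2 * (A * E - B * D) - (A * C - B ^ 2) * (p.1 + p.2)) / A ^ 2)
      (div_ne_zero hR (pow_ne_zero 2 hA.ne'))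
    refine le_trans ?_ h1
    have h2 : (T₁ ×ˢ T₁).filter (fun q => f q.1 p.1 = f q.2 p.2) ⊆
        (T ×ˢ T).filter (fun q => (q.1 - q.2 - B * (p.1 - p.2) / A) *
          (q.1 + q.2 - (B * (p.1 + p.2) - 2 * D) / A) =
          (p.1 - p.2) * (2 * (A * E - B * D) - (A * C - B ^ 2) * (p.1 + p.2)) / A ^ 2) := by
      intro q hq
      obtain ⟨hq1, hq2⟩ := Finset.mem_filter.1 hq
      refine Finset.mem_filter.2 ⟨Finset.mem_product.2 ⟨hT₁ (Finset.mem_product.1 hq1).1,
        hT₁ (Finset.mem_product.1 hq1).2⟩, ?_⟩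
      have h3 := qf_sub hq2
      field_simp
      linarith
    exact_mod_cast Finset.card_le_card h2
  -- bound for bad pairs
  have hbadle : ∀ p : ℝ × ℝ, bad p →
      ((T₁ ×ˢ T₁).filter (fun q => f q.1 p.1 = f q.2 p.2)).card ≤ 2 * T₁.card := by
    intro p hp
    set Sa := (T₁ ×ˢ T₁).filter
      (fun q => A * (q.1 - q.2) - B * (p.1 - p.2) = 0) with hSa
    set Sb := (T₁ ×ˢ T₁).filter
      (fun q => A * (q.1 + q.2) + 2 * D - B * (p.1 + p.2) = 0) with hSb
    have hsub : (T₁ ×ˢ T₁).filter (fun q => f q.1 p.1 = f q.2 p.2) ⊆ Sa ∪ Sb := by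
      intro q hq
      obtain ⟨hq1, hq2⟩ := Finset.mem_filter.1 hq
      have h3 := qf_sub hq2
      have h4 : (p.1 - p.2) * (2 * (A * E - B * D) - (A * C - B ^ 2) * (p.1 + p.2)) = 0 := by
        rcases hp with h | h
        · rw [h]; ring
        · rw [h, hτ]
          field_simp
          ring
      rw [h4] at h3
      rcases mul_eq_zero.1 h3 with h | h
      · exact Finset.mem_union_left _ (Finset.mem_filter.2 ⟨hq1, h⟩)
      · exact Finset.mem_union_right _ (Finset.mem_filter.2 ⟨hq1, h⟩)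
    have ha : Sa.card ≤ T₁.card := by
      apply Finset.card_le_card_of_injOn Prod.fst
      · intro q hq
        exact (Finset.mem_product.1 (Finset.mem_filter.1 hq).1).1
      · intro q hq q' hq' heq
        have e1 := (Finset.mem_filter.1 hq).2
        have e2 := (Finset.mem_filter.1 hq').2
        apply Prod.ext heq
        have e3 : q.1 = q'.1 := heq
        have e4 : A * q.2 = A * q'.2 := by rw [e3] at e1; linarith
        have e5 := mul_left_cancel₀ hA.ne' e4
        exact e5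
    have hb : Sb.card ≤ T₁.card := by
      apply Finset.card_le_card_of_injOn Prod.fst
      · intro q hq
        exact (Finset.mem_product.1 (Finset.mem_filter.1 hq).1).1
      · intro q hq q' hq' heq
        have e1 := (Finset.mem_filter.1 hq).2
        have e2 := (Finset.mem_filter.1 hq').2
        apply Prod.ext heq
        have e3 : q.1 = q'.1 := heq
        have e4 : A * q.2 = A * q'.2 := by rw [e3] at e1; linarith
        have e5 := mul_left_cancel₀ hA.ne' e4
        exact e5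
    have h1 := Finset.card_le_card hsub
    have h2 := Finset.card_union_le Sa Sb
    omega
  -- number of bad pairs
  have hbadcard : ((T₂ ×ˢ T₂).filter bad).card ≤ 2 * T₂.card := by
    have hsub : (T₂ ×ˢ T₂).filter bad ⊆ (T₂ ×ˢ T₂).filter (fun p => p.1 = p.2) ∪
        (T₂ ×ˢ T₂).filter (fun p => p.1 + p.2 = τ) := by
      intro p hp
      obtain ⟨hp1, hp2⟩ := Finset.mem_filter.1 hp
      rcases hp2 with h | h
      · exact Finset.mem_union_left _ (Finset.mem_filter.2 ⟨hp1, h⟩)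
      · exact Finset.mem_union_right _ (Finset.mem_filter.2 ⟨hp1, h⟩)
    have ha : ((T₂ ×ˢ T₂).filter (fun p => p.1 = p.2)).card ≤ T₂.card := by
      apply Finset.card_le_card_of_injOn Prod.fst
      · intro q hq
        exact (Finset.mem_product.1 (Finset.mem_filter.1 hq).1).1
      · intro q hq q' hq' heq
        have e1 := (Finset.mem_filter.1 hq).2
        have e2 := (Finset.mem_filter.1 hq').2
        apply Prod.ext heq
        rw [← e1, ← e2]
        exact heq
    have hb : ((T₂ ×ˢ T₂).filter (fun p => p.1 + p.2 = τ)).card ≤ T₂.card := by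
      apply Finset.card_le_card_of_injOn Prod.fst
      · intro q hq
        exact (Finset.mem_product.1 (Finset.mem_filter.1 hq).1).1
      · intro q hq q' hq' heq
        have e1 := (Finset.mem_filter.1 hq).2
        have e2 := (Finset.mem_filter.1 hq').2
        apply Prod.ext heq
        have e3 : q.1 = q'.1 := heq
        linarith
    have h1 := Finset.card_le_card hsub
    have h2 := Finset.card_union_le ((T₂ ×ˢ T₂).filter (fun p => p.1 = p.2))
      ((T₂ ×ˢ T₂).filter (fun p => p.1 + p.2 = τ))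
    omega
  -- the energy
  have henergy : ((∑ p ∈ T₂ ×ˢ T₂,
      ((T₁ ×ˢ T₁).filter (fun q => f q.1 p.1 = f q.2 p.2)).card : ℕ) : ℝ) ≤
      4 * m * n + n ^ 2 * Bd := by
    push_cast
    rw [← Finset.sum_filter_add_sum_filter_not (T₂ ×ˢ T₂) bad]
    have h1 : ∑ p ∈ (T₂ ×ˢ T₂).filter bad,
        (((T₁ ×ˢ T₁).filter (fun q => f q.1 p.1 = f q.2 p.2)).card : ℝ) ≤ 4 * m * n := by
      calc ∑ p ∈ (T₂ ×ˢ T₂).filter bad,
          (((T₁ ×ˢ T₁).filter (fun q => f q.1 p.1 = f q.2 p.2)).card : ℝ)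
          ≤ ∑ p ∈ (T₂ ×ˢ T₂).filter bad, (2 * m) := by
            refine Finset.sum_le_sum (fun p hp => ?_)
            have := hbadle p (Finset.mem_filter.1 hp).2
            rw [hm]
            exact_mod_cast this
        _ = (((T₂ ×ˢ T₂).filter bad).card : ℝ) * (2 * m) := by
            rw [Finset.sum_const, nsmul_eq_mul]
        _ ≤ (2 * n) * (2 * m) := by
            apply mul_le_mul_of_nonneg_right _ (by positivity)
            rw [hn]
            exact_mod_cast hbadcard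
        _ = 4 * m * n := by ring
    have h2 : ∑ p ∈ (T₂ ×ˢ T₂).filter (fun p => ¬ bad p),
        (((T₁ ×ˢ T₁).filter (fun q => f q.1 p.1 = f q.2 p.2)).card : ℝ) ≤ n ^ 2 * Bd := by
      calc ∑ p ∈ (T₂ ×ˢ T₂).filter (fun p => ¬ bad p),
          (((T₁ ×ˢ T₁).filter (fun q => f q.1 p.1 = f q.2 p.2)).card : ℝ)
          ≤ ∑ p ∈ (T₂ ×ˢ T₂).filter (fun p => ¬ bad p), Bd := by
            refine Finset.sum_le_sum (fun p hp => ?_)
            exact hgood p (Finset.mem_filter.1 hp).2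
        _ = (((T₂ ×ˢ T₂).filter (fun p => ¬ bad p)).card : ℝ) * Bd := by
            rw [Finset.sum_const, nsmul_eq_mul]
        _ ≤ n ^ 2 * Bd := by
            apply mul_le_mul_of_nonneg_right _ hBd0
            have h3 : ((T₂ ×ˢ T₂).filter (fun p => ¬ bad p)).card ≤ T₂.card * T₂.card := by
              rw [← Finset.card_product]
              exact Finset.card_filter_le _ _
            rw [hn, sq]
            exact_mod_cast h3
    linarith
  -- Cauchy-Schwarz
  have hcs : (m * n) ^ 2 ≤ Dn * (4 * m * n + n ^ 2 * Bd) := by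
    have h1 := card_sq_le (T₁ ×ˢ T₂) (fun z => f z.1 z.2)
    rw [EN_fiber T₁ T₂ f] at h1
    have h2 : (((T₁ ×ˢ T₂).card : ℝ)) ^ 2 ≤ Dn * ((∑ p ∈ T₂ ×ˢ T₂,
      ((T₁ ×ˢ T₁).filter (fun q => f q.1 p.1 = f q.2 p.2)).card : ℕ) : ℝ) := by
      rw [hDn]
      exact_mod_cast h1
    rw [Finset.card_product] at h2
    push_cast at h2
    calc (m * n) ^ 2 = ((T₁.card : ℝ) * (T₂.card : ℝ)) ^ 2 := by rw [hm, hn]
      _ ≤ _ := h2
      _ ≤ Dn * (4 * m * n + n ^ 2 * Bd) := by
          apply mul_le_mul_of_nonneg_left _ hDn0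
          exact_mod_cast henergy
  -- conclusion
  have hW : 4 + Bd ≤ (4 + C₀) * N ^ ε := by
    rw [hBd]
    nlinarith
  have hfinal : m * min m n ≤ (4 + Bd) * Dn := by
    rcases hn0.eq_or_lt with h0 | hnpos
    · have : min m n ≤ 0 := by rw [← h0]; exact min_le_right _ _
      have h2 : m * min m n ≤ 0 := mul_nonpos_of_nonneg_of_nonpos hm0 this
      have h3 : 0 ≤ (4 + Bd) * Dn := by positivity
      linarith
    have hcs' : m ^ 2 * n ≤ Dn * (4 * m + n * Bd) := by
      have h1 : n * (m ^ 2 * n) ≤ n * (Dn * (4 * m + n * Bd)) := by nlinarith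
      exact le_of_mul_le_mul_left h1 hnpos
    rcases hm0.eq_or_lt with h0 | hmpos
    · rw [← h0, zero_mul]
      positivity
    rcases le_total n m with hnm | hmn
    · rw [min_eq_right hnm]
      have h1 : 4 * m + n * Bd ≤ m * (4 + Bd) := by nlinarith
      have h2 : m * (m * n) ≤ m * ((4 + Bd) * Dn) := by
        calc m * (m * n) = m ^ 2 * n := by ring
          _ ≤ Dn * (4 * m + n * Bd) := hcs'
          _ ≤ Dn * (m * (4 + Bd)) := mul_le_mul_of_nonneg_left h1 hDn0
          _ = m * ((4 + Bd) * Dn) := by ring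
      exact le_of_mul_le_mul_left h2 hmpos
    · rw [min_eq_left hmn]
      have h1 : 4 * m + n * Bd ≤ n * (4 + Bd) := by nlinarith
      have h2 : n * (m * m) ≤ n * ((4 + Bd) * Dn) := by
        calc n * (m * m) = m ^ 2 * n := by ring
          _ ≤ Dn * (4 * m + n * Bd) := hcs'
          _ ≤ Dn * (n * (4 + Bd)) := mul_le_mul_of_nonneg_left h1 hDn0
          _ = n * ((4 + Bd) * Dn) := by ring
      exact le_of_mul_le_mul_left h2 hnpos
  calc m * min m n ≤ (4 + Bd) * Dn := hfinal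
    _ ≤ ((4 + C₀) * N ^ ε) * Dn := mul_le_mul_of_nonneg_right hW hDn0

end Pool.Agent.BD
end
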