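import Mathlib

section

/-!
# Campaign TR: definitions (complete, NOT a task)

A closure operator and a function of two variables such that each of the three quantities `x`, `y`, `f x y` is in the closure of the other two.
-/

set_option autoImplicit false

open Finset Classical

namespace Pool.Agent.TRD

/-- The abstract situation. -/
structure Cf (E : Type) where
  cl : Set E → Set E
  P : Finset E
  Q : Finset E
  f : E → E → E
  n : ℕ
  ext : ∀ S, S ⊆ cl S
  mono : ∀ S T, S ⊆ T → cl S ⊆ cl T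
  idem : ∀ S, cl (cl S) = cl S
  cP : P.card = n
  cQ : Q.card = n
  pos : 1 ≤ n
  c1 : ∀ x ∈ P, ∀ y ∈ Q, f x y ∈ cl {x, y}
  c2 : ∀ x ∈ P, ∀ y ∈ Q, x ∈ cl {y, f x y}
  c3 : ∀ x ∈ P, ∀ y ∈ Q, y ∈ cl {x, f x y}
  r2 : ∀ x ∈ P, ∀ d, (Q.filter (fun y => f x y = d)).card ≤ 2
  l2 : ∀ y ∈ Q, ∀ d, (P.filter (fun x => f x y = d)).card ≤ 2

variable {E : Type}

/-- the number of colours -/
noncomputable def Cf.D (c : Cf E) : ℕ := ((c.P ×ˢ c.Q).image (fun z => c.f z.1 z.2)).card

/-- exchange the two sets -/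
def Cf.swap (c : Cf E) : Cf E where
  cl := c.cl
  P := c.Q
  Q := c.P
  f := fun y x => c.f x y
  n := c.n
  ext := c.ext
  mono := c.mono
  idem := c.idem
  cP := c.cQ
  cQ := c.cP
  pos := c.pos
  c1 := fun y hy x hx => by rw [Set.pair_comm]; exact c.c1 x hx y hy
  c2 := fun y hy x hx => c.c3 x hx y hy
  c3 := fun y hy x hx => c.c2 x hx y hy
  r2 := c.l2
  l2 := c.r2

/-- A set of edges in which all rows, columns and colours are rich. -/
structure Cf.Rich (c : Cf E) (G : Finset (E × E)) : Prop where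
  sub : G ⊆ c.P ×ˢ c.Q
  ne : G.Nonempty
  row : ∀ z ∈ G, c.n ≤ 8 * (G.filter (fun w => w.1 = z.1)).card
  col : ∀ z ∈ G, c.n ≤ 8 * (G.filter (fun w => w.2 = z.2)).card
  rich : ∀ z ∈ G, c.n ^ 2 ≤ 4 * c.D * (G.filter (fun w => c.f w.1 w.2 = c.f z.1 z.2)).card

/-- the number of rows of `G` in `Z` -/
noncomputable def av (G : Finset (E × E)) (Z : Set E) : ℕ := ((G.image Prod.fst).filter (· ∈ Z)).card

/-- the number of columns of `G` in `Z` -/
noncomputable def bv (G : Finset (E × E)) (Z : Set E) : ℕ := ((G.image Prod.snd).filter (· ∈ Z)).card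

/-- the number of edges of `G` with colour in `Z` -/
noncomputable def Cf.phi (c : Cf E) (G : Finset (E × E)) (Z : Set E) : ℕ :=
  (G.filter (fun z => c.f z.1 z.2 ∈ Z)).card

/-- the larger one -/
noncomputable def mv (G : Finset (E × E)) (Z : Set E) : ℕ := max (av G Z) (bv G Z)

/-- `Z` is the closure of at most `s` elements -/
def Cf.Gen (c : Cf E) (s : ℕ) (Z : Set E) : Prop := ∃ S : Finset E, S.card ≤ s ∧ Z = c.cl S

end Pool.Agent.TRD
end

section

/-!
# TASK TR A1: cleaning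

PROOF. For `G ⊆ P ×ˢ Q` let `V G = 8 D |G| - n D (|G.image fst| + |G.image snd|) - 2 n ^ 2 |G.image colour|` (an integer; it is `8 D` times the functional of the paper). `G₀ = P ×ˢ Q`:
`V G₀ = 8 D n ^ 2 - 2 n ^ 2 D - 2 n ^ 2 D = 4 n ^ 2 D > 0` (`D ≥ 1` since `n ≥ 1`; the images are `P`, `Q`, and `D` colours). Take `G` in the powerset of `P ×ˢ Q` with `V G` maximal (`Finset.exists_max_image`). `V G > 0 = V ∅`, so `G ≠ ∅`.
Row: let `z ∈ G`, `G' = G.filter (w.1 ≠ z.1)`, `r = |G.filter (w.1 = z.1)|`: `|G'| = |G| - r`, the rows of `G'` are fewer by at least one, columns and colours not more; so `V G ≥ V G' ≥ V G - 8 D r + n D`, so `n ≤ 8 r` (`D ≥ 1`).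
Column: the same. Colour: the same with `G' = G.filter (colour ≠ colour z)`: `0 ≥ -8 D r + 2 n ^ 2`, so `n ^ 2 ≤ 4 D r`.
-/

set_option autoImplicit false

open Finset Classical

namespace Pool.Agent.TRD

variable {E : Type}

/-- The functional of the cleaning (times `8 D`). -/
private noncomputable def A1_V (c : Cf E) (G : Finset (E × E)) : ℤ :=
  8 * (c.D : ℤ) * (G.card : ℤ) -
    (c.n : ℤ) * c.D * (((G.image Prod.fst).card : ℤ) + ((G.image Prod.snd).card : ℤ)) -
    2 * (c.n : ℤ) ^ 2 * ((G.image (fun z => c.f z.1 z.2)).card : ℤ)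

private theorem A1_card {G G' : Finset (E × E)} (h : E × E → E) (e : E)
    (hG : ∀ w, w ∈ G' ↔ w ∈ G ∧ h w ≠ e) :
    (G'.card : ℤ) + ((G.filter (fun w => h w = e)).card : ℤ) = (G.card : ℤ) := by
  have h0 : G' = G.filter (fun w => ¬ h w = e) := by
    ext w
    rw [hG, Finset.mem_filter]
  have h1 := Finset.card_filter_add_card_filter_not (s := G) (fun w => h w = e)
  have h2 : ((G.filter (fun w => h w = e)).card : ℤ) +
      ((G.filter (fun w => ¬ h w = e)).card : ℤ) = (G.card : ℤ) := by exact_mod_cast h1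
  rw [h0]
  linarith

private theorem A1_less {G G' : Finset (E × E)} (h : E × E → E) {z : E × E} (hz : z ∈ G)
    (hG : ∀ w, w ∈ G' ↔ w ∈ G ∧ h w ≠ h z) :
    ((G'.image h).card : ℤ) + 1 ≤ ((G.image h).card : ℤ) := by
  have h1 : G'.image h ⊆ (G.image h).erase (h z) := by
    intro e he
    obtain ⟨w, hw, rfl⟩ := Finset.mem_image.1 he
    obtain ⟨hw1, hw2⟩ := (hG w).1 hw
    exact Finset.mem_erase.2 ⟨hw2, Finset.mem_image_of_mem h hw1⟩
  have h2 := Finset.card_le_card h1
  have h3 := Finset.card_erase_add_one (Finset.mem_image_of_mem h hz)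
  have h4 : (G'.image h).card + 1 ≤ (G.image h).card := by omega
  exact_mod_cast h4

private theorem A1_le {G G' : Finset (E × E)} (hG : G' ⊆ G) (h : E × E → E) :
    ((G'.image h).card : ℤ) ≤ ((G.image h).card : ℤ) := by
  exact_mod_cast Finset.card_le_card (Finset.image_subset_image hG)

private theorem A1_D_pos (c : Cf E) : 1 ≤ c.D := by
  have hP : c.P.Nonempty := by
    rw [← Finset.card_pos, c.cP]
    exact c.pos
  have hQ : c.Q.Nonempty := by
    rw [← Finset.card_pos, c.cQ]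
    exact c.pos
  exact Finset.card_pos.2 ((hP.product hQ).image _)

private theorem A1_V_top (c : Cf E) : 0 < A1_V c (c.P ×ˢ c.Q) := by
  have hP : c.P.Nonempty := by
    rw [← Finset.card_pos, c.cP]
    exact c.pos
  have hQ : c.Q.Nonempty := by
    rw [← Finset.card_pos, c.cQ]
    exact c.pos
  have h1 : ((c.P ×ˢ c.Q).image Prod.fst) = c.P := Finset.product_image_fst hQ
  have h2 : ((c.P ×ˢ c.Q).image Prod.snd) = c.Q := Finset.product_image_snd hP
  have h3 : ((c.P ×ˢ c.Q).image (fun z => c.f z.1 z.2)).card = c.D := rfl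
  have h4 : A1_V c (c.P ×ˢ c.Q) = 4 * (c.n : ℤ) ^ 2 * (c.D : ℤ) := by
    unfold A1_V
    rw [h1, h2, h3, Finset.card_product, c.cP, c.cQ]
    push_cast
    ring
  rw [h4]
  have h5 : (1 : ℤ) ≤ c.n := by exact_mod_cast c.pos
  have h6 : (1 : ℤ) ≤ c.D := by exact_mod_cast A1_D_pos c
  positivity

private theorem A1_arith {n D g g' r a a' b b' k k' : ℤ} (hD : 0 < D) (hn : 0 ≤ n)
    (h1 : 8 * D * g' - n * D * (a' + b') - 2 * n ^ 2 * k' ≤
      8 * D * g - n * D * (a + b) - 2 * n ^ 2 * k)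
    (h2 : g' + r = g) (h3 : a' + b' + 1 ≤ a + b) (h5 : k' ≤ k) : n ≤ 8 * r := by
  have hnD : 0 ≤ n * D := mul_nonneg hn hD.le
  have hn2 : 0 ≤ 2 * n ^ 2 := by positivity
  have h7 := mul_le_mul_of_nonneg_left h3 hnD
  have h8 := mul_le_mul_of_nonneg_left h5 hn2
  have h9 : n * D ≤ 8 * r * D := by
    subst h2
    nlinarith
  exact le_of_mul_le_mul_right h9 hD

private theorem A1_arith2 {n D g g' r a a' b b' k k' : ℤ} (hD : 0 < D) (hn : 0 ≤ n)
    (h1 : 8 * D * g' - n * D * (a' + b') - 2 * n ^ 2 * k' ≤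
      8 * D * g - n * D * (a + b) - 2 * n ^ 2 * k)
    (h2 : g' + r = g) (h3 : a' + b' ≤ a + b) (h5 : k' + 1 ≤ k) : n ^ 2 ≤ 4 * D * r := by
  have hnD : 0 ≤ n * D := mul_nonneg hn hD.le
  have hn2 : 0 ≤ 2 * n ^ 2 := by positivity
  have h7 := mul_le_mul_of_nonneg_left h3 hnD
  have h8 := mul_le_mul_of_nonneg_left h5 hn2
  subst h2
  nlinarith

theorem Cf.cleaning (c : Cf E) : ∃ G, c.Rich G := by
  obtain ⟨G, hG, hmax⟩ := Finset.exists_max_image (c.P ×ˢ c.Q).powerset (A1_V c)
    ⟨_, Finset.mem_powerset_self _⟩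
  have hsub : G ⊆ c.P ×ˢ c.Q := Finset.mem_powerset.1 hG
  have hpos : 0 < A1_V c G :=
    lt_of_lt_of_le (A1_V_top c) (hmax _ (Finset.mem_powerset_self _))
  have hD : (0 : ℤ) < c.D := by exact_mod_cast A1_D_pos c
  have hn : (0 : ℤ) ≤ c.n := by positivity
  have hle : ∀ G' : Finset (E × E), G' ⊆ G → A1_V c G' ≤ A1_V c G := fun G' h =>
    hmax _ (Finset.mem_powerset.2 (h.trans hsub))
  have hex : ∀ (h : E × E → E) (z : E × E), ∃ G' : Finset (E × E), G' ⊆ G ∧
      ∀ w, w ∈ G' ↔ w ∈ G ∧ h w ≠ h z := fun h z =>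
    ⟨G.filter (fun w => h w ≠ h z), Finset.filter_subset _ _, fun w => Finset.mem_filter⟩
  refine ⟨G, hsub, ?_, ?_, ?_, ?_⟩
  · rw [Finset.nonempty_iff_ne_empty]
    rintro rfl
    have h1 : A1_V c (∅ : Finset (E × E)) = 0 := by
      simp [A1_V]
    rw [h1] at hpos
    exact lt_irrefl _ hpos
  · intro z hz
    obtain ⟨G', hG', hmem⟩ := hex Prod.fst z
    have h9 := A1_arith hD hn (hle G' hG') (A1_card Prod.fst _ hmem)
      (by
        have h3 := A1_less Prod.fst hz hmem
        have h4 := A1_le hG' Prod.snd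
        linarith) (A1_le hG' _)
    exact_mod_cast h9
  · intro z hz
    obtain ⟨G', hG', hmem⟩ := hex Prod.snd z
    have h9 := A1_arith hD hn (hle G' hG') (A1_card Prod.snd _ hmem)
      (by
        have h3 := A1_less Prod.snd hz hmem
        have h4 := A1_le hG' Prod.fst
        linarith) (A1_le hG' _)
    exact_mod_cast h9
  · intro z hz
    obtain ⟨G', hG', hmem⟩ := hex (fun z => c.f z.1 z.2) z
    have h9 := A1_arith2 hD hn (hle G' hG') (A1_card (fun z => c.f z.1 z.2) _ hmem)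
      (by
        have h3 := A1_le hG' Prod.fst
        have h4 := A1_le hG' Prod.snd
        linarith) (A1_less _ hz hmem)
    exact_mod_cast h9

end Pool.Agent.TRD
end

section

/-!
# TASK TR A0: basic facts

`cl_gen`: `Z = cl S`, so `cl Z = Z` by `idem`.
`gen_insert`: `S' = insert e S`; `cl (insert e (cl S)) = cl (insert e S)`: `⊇` monotone; `⊆`: `insert e (cl S) ⊆ cl (insert e S)`, then `mono` and `idem`.
`gen_mono`: same `S`.
`col_mem`, `row_mem`, `snd_mem`: `c1`, `c2`, `c3` with `mono` (`{x, y} ⊆ Z`) and `cl Z = Z`.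
`row2`/`col2` in `G`: `G.filter (w.1 = x ∧ f = d)` injects by `Prod.snd` into `Q.filter (f x y = d)` for `x ∈ P`.
`D_ge`: the row of one `x ∈ P` has `n` edges, at most two of the same colour, so `n ≤ 2 D` (`Finset.card_le_mul_card_image`).
`swapG`: the image of `G` under `Prod.swap`: all conditions are symmetric (`D` is the same; card of filters by the bijection `Prod.swap`); `av`, `bv` are exchanged, `phi` is the same.
-/

set_option autoImplicit false

open Finset Classical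

namespace Pool.Agent.TRD

variable {E : Type}

private theorem pair_sub {Z : Set E} {x y : E} (h1 : x ∈ Z) (h2 : y ∈ Z) : ({x, y} : Set E) ⊆ Z := by
  intro z hz
  rcases hz with hz | hz
  · rw [hz]; exact h1
  · rw [Set.mem_singleton_iff.1 hz]; exact h2

private theorem filter_swap (G : Finset (E × E)) (p : E × E → Prop) (q : E × E → Prop)
    (h : ∀ z ∈ G, p z.swap ↔ q z) :
    ((G.image Prod.swap).filter p).card = (G.filter q).card := by
  have e : (G.image Prod.swap).filter p = (G.filter q).image Prod.swap := by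
    ext z
    rw [Finset.mem_filter, Finset.mem_image, Finset.mem_image]
    constructor
    · rintro ⟨⟨w, hw, rfl⟩, hp⟩
      exact ⟨w, Finset.mem_filter.2 ⟨hw, (h w hw).1 hp⟩, rfl⟩
    · rintro ⟨w, hw, rfl⟩
      obtain ⟨h1, h2⟩ := Finset.mem_filter.1 hw
      exact ⟨⟨w, h1, rfl⟩, (h w h1).2 h2⟩
  rw [e, Finset.card_image_of_injective _ Prod.swap_injective]

theorem Cf.cl_gen (c : Cf E) {s : ℕ} {Z : Set E} (h : c.Gen s Z) : c.cl Z = Z := by
  obtain ⟨S, _, rfl⟩ := h
  exact c.idem _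

theorem Cf.gen_mono (c : Cf E) {s s' : ℕ} (hs : s ≤ s') {Z : Set E} (h : c.Gen s Z) : c.Gen s' Z := by
  obtain ⟨S, hS, rfl⟩ := h
  exact ⟨S, hS.trans hs, rfl⟩

theorem Cf.gen_insert (c : Cf E) {s : ℕ} {Z : Set E} (h : c.Gen s Z) (e : E) :
    c.Gen (s + 1) (c.cl (insert e Z)) ∧ Z ⊆ c.cl (insert e Z) ∧ e ∈ c.cl (insert e Z) := by
  obtain ⟨S, hS, rfl⟩ := h
  refine ⟨⟨insert e S, (Finset.card_insert_le _ _).trans (by omega), ?_⟩,
    (Set.subset_insert _ _).trans (c.ext _), c.ext _ (Set.mem_insert _ _)⟩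
  rw [Finset.coe_insert]
  apply Set.Subset.antisymm
  · have h1 : insert e (c.cl S) ⊆ c.cl (insert e S) := by
      intro y hy
      rcases hy with hy | hy
      · rw [hy]
        exact c.ext _ (Set.mem_insert _ _)
      · exact c.mono _ _ (Set.subset_insert _ _) hy
    have h2 := c.mono _ _ h1
    rwa [c.idem] at h2
  · exact c.mono _ _ (Set.insert_subset_insert (c.ext _))

theorem Cf.col_mem (c : Cf E) {Z : Set E} (hZ : c.cl Z = Z) {x y : E} (hx : x ∈ c.P) (hy : y ∈ c.Q)
    (h1 : x ∈ Z) (h2 : y ∈ Z) : c.f x y ∈ Z := by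
  have h3 := c.mono _ _ (pair_sub h1 h2)
  rw [hZ] at h3
  exact h3 (c.c1 x hx y hy)

theorem Cf.fst_mem (c : Cf E) {Z : Set E} (hZ : c.cl Z = Z) {x y : E} (hx : x ∈ c.P) (hy : y ∈ c.Q)
    (h1 : y ∈ Z) (h2 : c.f x y ∈ Z) : x ∈ Z := by
  have h3 := c.mono _ _ (pair_sub h1 h2)
  rw [hZ] at h3
  exact h3 (c.c2 x hx y hy)

theorem Cf.snd_mem (c : Cf E) {Z : Set E} (hZ : c.cl Z = Z) {x y : E} (hx : x ∈ c.P) (hy : y ∈ c.Q)
    (h1 : x ∈ Z) (h2 : c.f x y ∈ Z) : y ∈ Z := by
  have h3 := c.mono _ _ (pair_sub h1 h2)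
  rw [hZ] at h3
  exact h3 (c.c3 x hx y hy)

theorem Cf.D_ge (c : Cf E) : c.n ≤ 2 * c.D := by
  have hP : c.P.Nonempty := by
    rw [← Finset.card_pos, c.cP]
    exact c.pos
  obtain ⟨x, hx⟩ := hP
  have h1 : c.Q.card ≤ 2 * (c.Q.image (c.f x)).card :=
    Finset.card_le_mul_card_image c.Q 2 fun d _ => c.r2 x hx d
  rw [c.cQ] at h1
  have h2 : (c.Q.image (c.f x)).card ≤ c.D := by
    refine Finset.card_le_card fun d hd => ?_
    obtain ⟨y, hy, rfl⟩ := Finset.mem_image.1 hd
    exact Finset.mem_image.2 ⟨(x, y), Finset.mem_product.2 ⟨hx, hy⟩, rfl⟩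
  omega

theorem Cf.swap_D (c : Cf E) : c.swap.D = c.D := by
  have e : (c.swap.P ×ˢ c.swap.Q).image (fun z => c.swap.f z.1 z.2) =
      (c.P ×ˢ c.Q).image (fun z => c.f z.1 z.2) := by
    ext d
    rw [Finset.mem_image, Finset.mem_image]
    constructor
    · rintro ⟨z, hz, rfl⟩
      obtain ⟨h1, h2⟩ := Finset.mem_product.1 hz
      exact ⟨(z.2, z.1), Finset.mem_product.2 ⟨h2, h1⟩, rfl⟩
    · rintro ⟨z, hz, rfl⟩
      obtain ⟨h1, h2⟩ := Finset.mem_product.1 hz
      exact ⟨(z.2, z.1), Finset.mem_product.2 ⟨h2, h1⟩, rfl⟩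
  exact congrArg Finset.card e

theorem Cf.swap_rich (c : Cf E) {G : Finset (E × E)} (h : c.Rich G) : c.swap.Rich (G.image Prod.swap) := by
  refine ⟨?_, h.ne.image _, ?_, ?_, ?_⟩
  · intro z hz
    obtain ⟨w, hw, rfl⟩ := Finset.mem_image.1 hz
    obtain ⟨h1, h2⟩ := Finset.mem_product.1 (h.sub hw)
    exact Finset.mem_product.2 ⟨h2, h1⟩
  · intro z hz
    obtain ⟨w, hw, rfl⟩ := Finset.mem_image.1 hz
    rw [filter_swap G (fun v => v.1 = w.swap.1) (fun v => v.2 = w.2) fun v _ => Iff.rfl]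
    exact h.col w hw
  · intro z hz
    obtain ⟨w, hw, rfl⟩ := Finset.mem_image.1 hz
    rw [filter_swap G (fun v => v.2 = w.swap.2) (fun v => v.1 = w.1) fun v _ => Iff.rfl]
    exact h.row w hw
  · intro z hz
    obtain ⟨w, hw, rfl⟩ := Finset.mem_image.1 hz
    rw [filter_swap G (fun v => c.swap.f v.1 v.2 = c.swap.f w.swap.1 w.swap.2)
      (fun v => c.f v.1 v.2 = c.f w.1 w.2) (fun v _ => Iff.rfl), c.swap_D]
    exact h.rich w hw

theorem av_swap (G : Finset (E × E)) (Z : Set E) : av (G.image Prod.swap) Z = bv G Z := by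
  have e : (G.image Prod.swap).image Prod.fst = G.image Prod.snd := by
    ext d
    simp only [Finset.mem_image]
    constructor
    · rintro ⟨z, ⟨w, hw, rfl⟩, rfl⟩
      exact ⟨w, hw, rfl⟩
    · rintro ⟨w, hw, rfl⟩
      exact ⟨w.swap, ⟨w, hw, rfl⟩, rfl⟩
  unfold av bv
  rw [e]

theorem bv_swap (G : Finset (E × E)) (Z : Set E) : bv (G.image Prod.swap) Z = av G Z := by
  have e : (G.image Prod.swap).image Prod.snd = G.image Prod.fst := by
    ext d
    simp only [Finset.mem_image]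
    constructor
    · rintro ⟨z, ⟨w, hw, rfl⟩, rfl⟩
      exact ⟨w, hw, rfl⟩
    · rintro ⟨w, hw, rfl⟩
      exact ⟨w.swap, ⟨w, hw, rfl⟩, rfl⟩
  unfold av bv
  rw [e]

theorem Cf.phi_swap (c : Cf E) (G : Finset (E × E)) (Z : Set E) :
    c.swap.phi (G.image Prod.swap) Z = c.phi G Z :=
  filter_swap G (fun z => c.swap.f z.1 z.2 ∈ Z) (fun z => c.f z.1 z.2 ∈ Z) fun _ _ => Iff.rfl

theorem av_mono (G : Finset (E × E)) {Z Z' : Set E} (h : Z ⊆ Z') : av G Z ≤ av G Z' :=
  Finset.card_le_card fun _ hz => Finset.mem_filter.2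
    ⟨(Finset.mem_filter.1 hz).1, h (Finset.mem_filter.1 hz).2⟩

theorem bv_mono (G : Finset (E × E)) {Z Z' : Set E} (h : Z ⊆ Z') : bv G Z ≤ bv G Z' :=
  Finset.card_le_card fun _ hz => Finset.mem_filter.2
    ⟨(Finset.mem_filter.1 hz).1, h (Finset.mem_filter.1 hz).2⟩

theorem Cf.phi_mono (c : Cf E) (G : Finset (E × E)) {Z Z' : Set E} (h : Z ⊆ Z') :
    c.phi G Z ≤ c.phi G Z' :=
  Finset.card_le_card fun _ hz => Finset.mem_filter.2
    ⟨(Finset.mem_filter.1 hz).1, h (Finset.mem_filter.1 hz).2⟩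

end Pool.Agent.TRD
end

section

/-!
# TASK TR A2: step R

PROOF. Let `b = bv G Z`, `a = av G Z`. If `b = 0` take any row `x` of `G` (`G` is nonempty) and `phi_mono`. Let `b ≥ 1`. Let `H = G.filter (z.2 ∈ Z ∧ z.1 ∉ Z)`. For a column `y` of `G` in `Z`: `G` has at least `n / 8` edges in the column `y`
(`col`), at most `a ≤ n / 16` of them have their row in `Z` (different rows of `G` in `Z`), so `16 * |H.filter (z.2 = y)| ≥ n`. Sum over the `b` columns: `16 |H| ≥ b n`. The rows of `H` are in `P`, `|P| = n`, so some row `x` of `G`, `x ∉ Z`, has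
`|H.filter (z.1 = x)| * n ≥ |H|` (`Finset.exists_le_card_fiber_of_mul_le_card_of_maps_to`-like, or by contradiction with `card_eq_sum_card_fiberwise`); so `16 e ≥ b` with `e = |H.filter (z.1 = x)|`. The colours `C` of these edges: `2 |C| ≥ e` (`r2`: at most two `y` with the
same colour in row `x`). Let `Z' = cl (insert x Z)`. Every `d ∈ C` is `f x y` with `y ∈ Z`: `d ∉ Z` (otherwise `x ∈ Z`, `fst_mem`), `d ∈ Z'` (`col_mem`). So `phi G Z' ≥ phi G Z + ∑ d ∈ C, |G.filter (colour = d)|` (disjoint) and each term is at least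
`n ^ 2 / (4 D)` (`rich`). In real numbers: `phi G Z' ≥ phi G Z + (b / 32) (n ^ 2 / (4 D))`.
-/

set_option autoImplicit false

open Finset Classical

namespace Pool.Agent.TRD

variable {E : Type}

theorem Cf.stepR (c : Cf E) {G : Finset (E × E)} (hG : c.Rich G) {Z : Set E} (hZ : c.cl Z = Z)
    (ha : 16 * av G Z ≤ c.n) : ∃ x, (c.phi G Z : ℝ) + bv G Z * ((c.n : ℝ) ^ 2 / c.D) / 128 ≤
      c.phi G (c.cl (insert x Z)) := by
  obtain ⟨H, hH⟩ : ∃ H : Finset (E × E), H = G.filter (fun z => z.2 ∈ Z ∧ z.1 ∉ Z) := ⟨_, rfl⟩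
  obtain ⟨B, hB⟩ : ∃ B : Finset E, B = (G.image Prod.snd).filter (· ∈ Z) := ⟨_, rfl⟩
  have hmemH : ∀ z, z ∈ H ↔ z ∈ G ∧ z.2 ∈ Z ∧ z.1 ∉ Z := by
    intro z
    rw [hH, mem_filter]
  have hGP : ∀ z ∈ G, z.1 ∈ c.P ∧ z.2 ∈ c.Q := fun z hz => mem_product.1 (hG.sub hz)
  have hbv : bv G Z = B.card := by rw [hB]; rfl
  -- the columns
  have hcol : ∀ y ∈ B, c.n ≤ 16 * (H.filter (fun w => w.2 = y)).card := by
    intro y hy
    rw [hB, mem_filter, mem_image] at hy
    obtain ⟨⟨z, hz, rfl⟩, hyZ⟩ := hy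
    have h1 := hG.col z hz
    have h2 : (G.filter (fun w => w.2 = z.2)).card ≤
        (H.filter (fun w => w.2 = z.2)).card + av G Z := by
      have h3 : G.filter (fun w => w.2 = z.2) ⊆ H.filter (fun w => w.2 = z.2) ∪
          G.filter (fun w => w.2 = z.2 ∧ w.1 ∈ Z) := by
        intro w hw
        rw [mem_filter] at hw
        rw [mem_union, mem_filter, mem_filter, hmemH]
        by_cases hwZ : w.1 ∈ Z
        · exact Or.inr ⟨hw.1, hw.2, hwZ⟩
        · exact Or.inl ⟨⟨hw.1, by rw [hw.2]; exact hyZ, hwZ⟩, hw.2⟩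
      have h4 : (G.filter (fun w => w.2 = z.2 ∧ w.1 ∈ Z)).card ≤ av G Z := by
        refine card_le_card_of_injOn Prod.fst ?_ ?_
        · intro w hw
          have hw' : w ∈ G.filter (fun w => w.2 = z.2 ∧ w.1 ∈ Z) := hw
          rw [mem_filter] at hw'
          rw [mem_coe, mem_filter]
          exact ⟨mem_image_of_mem _ hw'.1, hw'.2.2⟩
        · intro w hw w' hw' he
          have h5 : w ∈ G.filter (fun w => w.2 = z.2 ∧ w.1 ∈ Z) := hw
          have h6 : w' ∈ G.filter (fun w => w.2 = z.2 ∧ w.1 ∈ Z) := hw'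
          rw [mem_filter] at h5 h6
          exact Prod.ext he (h5.2.1.trans h6.2.1.symm)
      exact (card_le_card h3).trans ((card_union_le _ _).trans (Nat.add_le_add_left h4 _))
    omega
  have hsum : B.card * c.n ≤ 16 * H.card := by
    have h1 : H.card = ∑ y ∈ B, (H.filter (fun w => w.2 = y)).card := by
      refine card_eq_sum_card_fiberwise (f := Prod.snd) ?_
      intro z hz
      have hz' : z ∈ H := hz
      rw [hmemH] at hz'
      rw [mem_coe, hB, mem_filter]
      exact ⟨mem_image_of_mem _ hz'.1, hz'.2.1⟩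
    rw [h1, mul_sum, ← smul_eq_mul]
    exact card_nsmul_le_sum _ _ _ hcol
  -- the row
  have hPne : c.P.Nonempty := by
    rw [← card_pos, c.cP]
    exact c.pos
  obtain ⟨x, hx, hmax⟩ := exists_max_image c.P (fun x => (H.filter (fun w => w.1 = x)).card) hPne
  have hrow : H.card ≤ c.n * (H.filter (fun w => w.1 = x)).card := by
    have h1 : H.card = ∑ x ∈ c.P, (H.filter (fun w => w.1 = x)).card := by
      refine card_eq_sum_card_fiberwise (f := Prod.fst) ?_
      intro z hz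
      have hz' : z ∈ H := hz
      rw [hmemH] at hz'
      exact (hGP z hz'.1).1
    rw [h1, ← c.cP, ← smul_eq_mul]
    exact sum_le_card_nsmul _ _ _ hmax
  obtain ⟨Hx, hHx⟩ : ∃ Hx : Finset (E × E), Hx = H.filter (fun w => w.1 = x) := ⟨_, rfl⟩
  rw [← hHx] at hrow
  have hbe : B.card ≤ 16 * Hx.card := by
    have h1 : B.card * c.n ≤ (16 * Hx.card) * c.n := by
      calc B.card * c.n ≤ 16 * H.card := hsum
        _ ≤ 16 * (c.n * Hx.card) := Nat.mul_le_mul_left _ hrow
        _ = (16 * Hx.card) * c.n := by ring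
    exact Nat.le_of_mul_le_mul_right h1 c.pos
  have hmemHx : ∀ z, z ∈ Hx ↔ (z ∈ G ∧ z.2 ∈ Z ∧ z.1 ∉ Z) ∧ z.1 = x := by
    intro z
    rw [hHx, mem_filter, hmemH]
  obtain ⟨C, hC⟩ : ∃ C : Finset E, C = Hx.image (fun w => c.f w.1 w.2) := ⟨_, rfl⟩
  have hC2 : Hx.card ≤ 2 * C.card := by
    rw [hC]
    refine card_le_mul_card_image Hx 2 ?_
    intro d _
    refine le_trans ?_ (c.r2 x hx d)
    refine card_le_card_of_injOn Prod.snd ?_ ?_
    · intro w hw
      have hw' : w ∈ Hx.filter (fun w => c.f w.1 w.2 = d) := hw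
      rw [mem_filter, hmemHx] at hw'
      rw [mem_coe, mem_filter]
      refine ⟨(hGP w hw'.1.1.1).2, ?_⟩
      rw [← hw'.1.2]
      exact hw'.2
    · intro w hw w' hw' he
      have h5 : w ∈ Hx.filter (fun w => c.f w.1 w.2 = d) := hw
      have h6 : w' ∈ Hx.filter (fun w => c.f w.1 w.2 = d) := hw'
      rw [mem_filter, hmemHx] at h5 h6
      exact Prod.ext (h5.1.2.trans h6.1.2.symm) he
  -- the new closed set
  obtain ⟨Z', hZ'⟩ : ∃ Z' : Set E, Z' = c.cl (insert x Z) := ⟨_, rfl⟩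
  have hcl' : c.cl Z' = Z' := by rw [hZ']; exact c.idem _
  have hxZ' : x ∈ Z' := by rw [hZ']; exact c.ext _ (Set.mem_insert _ _)
  have hZZ' : Z ⊆ Z' := by
    rw [hZ']
    exact (Set.subset_insert _ _).trans (c.ext _)
  have hCd : ∀ d ∈ C, d ∉ Z ∧ d ∈ Z' ∧
      c.n ^ 2 ≤ 4 * c.D * (G.filter (fun w => c.f w.1 w.2 = d)).card := by
    intro d hd
    rw [hC, mem_image] at hd
    obtain ⟨w, hw, rfl⟩ := hd
    rw [hmemHx] at hw
    obtain ⟨⟨hwG, hw2, hw1⟩, hwx⟩ := hw
    refine ⟨fun h => hw1 (c.fst_mem hZ (hGP w hwG).1 (hGP w hwG).2 hw2 h), ?_, hG.rich w hwG⟩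
    exact c.col_mem hcl' (hGP w hwG).1 (hGP w hwG).2 (by rw [hwx]; exact hxZ') (hZZ' hw2)
  have hphi : c.phi G Z + ∑ d ∈ C, (G.filter (fun w => c.f w.1 w.2 = d)).card ≤ c.phi G Z' := by
    have h1 : (G.filter (fun w => c.f w.1 w.2 ∈ C)).card =
        ∑ d ∈ C, (G.filter (fun w => c.f w.1 w.2 = d)).card := by
      rw [card_eq_sum_card_fiberwise (f := fun w : E × E => c.f w.1 w.2) (t := C)]
      · refine sum_congr rfl fun d hd => ?_
        congr 1
        ext w
        rw [mem_filter, mem_filter, mem_filter]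
        constructor
        · rintro ⟨⟨h1, _⟩, h3⟩
          exact ⟨h1, h3⟩
        · rintro ⟨h1, h3⟩
          exact ⟨⟨h1, by rw [h3]; exact hd⟩, h3⟩
      · intro w hw
        have hw' : w ∈ G.filter (fun w => c.f w.1 w.2 ∈ C) := hw
        exact (mem_filter.1 hw').2
    rw [← h1]
    unfold Cf.phi
    rw [← card_union_of_disjoint]
    · refine card_le_card ?_
      intro w hw
      rw [mem_union, mem_filter, mem_filter] at hw
      rw [mem_filter]
      rcases hw with hw | hw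
      · exact ⟨hw.1, hZZ' hw.2⟩
      · exact ⟨hw.1, (hCd _ hw.2).2.1⟩
    · rw [disjoint_left]
      intro w hw1 hw2
      rw [mem_filter] at hw1 hw2
      exact (hCd _ hw2.2).1 hw1.2
  refine ⟨x, ?_⟩
  rw [← hZ', hbv]
  have hD0 : (0 : ℝ) < c.D := by
    have h1 := c.D_ge
    have h2 := c.pos
    have h3 : 0 < c.D := by omega
    exact_mod_cast h3
  have hsumC : (C.card : ℝ) * ((c.n : ℝ) ^ 2 / (4 * c.D)) ≤
      ((∑ d ∈ C, (G.filter (fun w => c.f w.1 w.2 = d)).card : ℕ) : ℝ) := by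
    push_cast
    rw [← nsmul_eq_mul]
    refine card_nsmul_le_sum _ _ _ fun d hd => ?_
    rw [div_le_iff₀ (by positivity)]
    have h1 := (hCd d hd).2.2
    have h2 : ((c.n ^ 2 : ℕ) : ℝ) ≤
        ((4 * c.D * (G.filter (fun w => c.f w.1 w.2 = d)).card : ℕ) : ℝ) := by exact_mod_cast h1
    push_cast at h2
    linarith
  have hbC : (B.card : ℝ) ≤ 32 * C.card := by
    have : B.card ≤ 32 * C.card := by omega
    exact_mod_cast this
  have hfin : (B.card : ℝ) * ((c.n : ℝ) ^ 2 / c.D) / 128 ≤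
      (C.card : ℝ) * ((c.n : ℝ) ^ 2 / (4 * c.D)) := by
    have h1 : (B.card : ℝ) * ((c.n : ℝ) ^ 2 / c.D) ≤ (32 * C.card) * ((c.n : ℝ) ^ 2 / c.D) :=
      mul_le_mul_of_nonneg_right hbC (by positivity)
    have h2 : (C.card : ℝ) * ((c.n : ℝ) ^ 2 / (4 * c.D)) =
        (32 * C.card) * ((c.n : ℝ) ^ 2 / c.D) / 128 := by
      field_simp
      ring
    rw [h2]
    linarith
  have hphi' : (c.phi G Z : ℝ) + ((∑ d ∈ C, (G.filter (fun w => c.f w.1 w.2 = d)).card : ℕ) : ℝ) ≤
      c.phi G Z' := by exact_mod_cast hphi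
  linarith

end Pool.Agent.TRD
end

section

/-!
# TASK TR A3: step S

PROOF. Let `K = G.filter (f z.1 z.2 ∈ Z ∧ z.1 ∉ Z)`. The other edges of `G` with colour in `Z` have `z.1 ∈ Z`, so `z.2 ∈ Z` (`snd_mem`), so they are at most `a b` (they lie in (rows of `G` in `Z`) × (columns of `G` in `Z`)): `|K| ≥ phi G Z - a b`. If `K = ∅` take any `x` (`G` nonempty)
and `bv_mono`. Otherwise some row `x` (`∉ Z`, in `P`, `|P| = n`) has `n * |K.filter (z.1 = x)| ≥ |K|`. For these edges `(x, y)`: `y ∉ Z` (otherwise `x ∈ Z`, `fst_mem`), `y ∈ Z' = cl (insert x Z)` (`snd_mem`), `y` is a column of `G`, and different edges have different `y`.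
So `bv G Z' ≥ bv G Z + |K.filter (z.1 = x)|`.
-/

set_option autoImplicit false

open Finset Classical

namespace Pool.Agent.TRD

variable {E : Type}

theorem Cf.stepS (c : Cf E) {G : Finset (E × E)} (hG : c.Rich G) {Z : Set E} (hZ : c.cl Z = Z) :
    ∃ x, (bv G Z : ℝ) + ((c.phi G Z : ℝ) - av G Z * bv G Z) / c.n ≤ bv G (c.cl (insert x Z)) := by
  have hn : (0 : ℝ) < c.n := by exact_mod_cast c.pos
  set K : Finset (E × E) := G.filter (fun z => c.f z.1 z.2 ∈ Z ∧ z.1 ∉ Z) with hK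
  set K' : Finset (E × E) := G.filter (fun z => c.f z.1 z.2 ∈ Z ∧ z.1 ∈ Z) with hK'
  have hGP : ∀ z ∈ G, z.1 ∈ c.P ∧ z.2 ∈ c.Q := fun z hz => by
    have := hG.sub hz
    rwa [Finset.mem_product] at this
  have hsplit : c.phi G Z ≤ K.card + K'.card := by
    unfold Cf.phi
    rw [← Finset.card_union_of_disjoint]
    · apply Finset.card_le_card
      intro z hz
      rw [Finset.mem_filter] at hz
      rw [Finset.mem_union, hK, hK', Finset.mem_filter, Finset.mem_filter]
      by_cases h1 : z.1 ∈ Z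
      · exact Or.inr ⟨hz.1, hz.2, h1⟩
      · exact Or.inl ⟨hz.1, hz.2, h1⟩
    · rw [Finset.disjoint_left]
      intro z hz hz'
      rw [hK, Finset.mem_filter] at hz
      rw [hK', Finset.mem_filter] at hz'
      exact hz.2.2 hz'.2.2
  have hK'card : K'.card ≤ av G Z * bv G Z := by
    unfold av bv
    rw [← Finset.card_product]
    apply Finset.card_le_card
    intro z hz
    rw [hK', Finset.mem_filter] at hz
    rw [Finset.mem_product, Finset.mem_filter, Finset.mem_filter]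
    obtain ⟨hzG, hf, h1⟩ := hz
    obtain ⟨hp, hq⟩ := hGP z hzG
    refine ⟨⟨Finset.mem_image_of_mem _ hzG, h1⟩, ⟨Finset.mem_image_of_mem _ hzG, ?_⟩⟩
    exact c.snd_mem hZ hp hq h1 hf
  have hKge : (c.phi G Z : ℝ) - av G Z * bv G Z ≤ K.card := by
    have h1 : c.phi G Z ≤ K.card + av G Z * bv G Z := le_trans hsplit (by omega)
    have h2 : (c.phi G Z : ℝ) ≤ K.card + av G Z * bv G Z := by exact_mod_cast h1
    linarith
  have hmono : ∀ x : E, Z ⊆ c.cl (insert x Z) := fun x =>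
    (Set.subset_insert x Z).trans (c.ext _)
  by_cases hKe : K = ∅
  · obtain ⟨z, _⟩ := hG.ne
    refine ⟨z.1, ?_⟩
    have h0 : ((c.phi G Z : ℝ) - av G Z * bv G Z) / c.n ≤ 0 := by
      apply div_nonpos_of_nonpos_of_nonneg _ hn.le
      have : (K.card : ℝ) = 0 := by rw [hKe]; simp
      linarith
    have h1 : (bv G Z : ℝ) ≤ bv G (c.cl (insert z.1 Z)) := by
      exact_mod_cast bv_mono G (hmono z.1)
    linarith
  · have hKne : K.Nonempty := Finset.nonempty_iff_ne_empty.mpr hKe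
    have hmaps : ∀ z ∈ K, z.1 ∈ c.P := fun z hz => by
      rw [hK, Finset.mem_filter] at hz
      exact (hGP z hz.1).1
    have hPne : c.P.Nonempty := by
      obtain ⟨z, hz⟩ := hKne
      exact ⟨z.1, hmaps z hz⟩
    obtain ⟨x, hxP, hx⟩ : ∃ x ∈ c.P, K.card ≤ c.n * (K.filter (fun z => z.1 = x)).card := by
      by_contra hcon
      have hcon' : ∀ x ∈ c.P, c.n * (K.filter (fun z => z.1 = x)).card < K.card := by
        intro x hx
        by_contra h
        exact hcon ⟨x, hx, not_lt.mp h⟩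
      have h1 := Finset.sum_lt_sum_of_nonempty hPne hcon'
      have h2 : K.card = ∑ x ∈ c.P, (K.filter (fun z => z.1 = x)).card :=
        Finset.card_eq_sum_card_fiberwise hmaps
      rw [← Finset.mul_sum, ← h2, Finset.sum_const, smul_eq_mul, c.cP] at h1
      exact lt_irrefl _ h1
    set Kx : Finset (E × E) := K.filter (fun z => z.1 = x) with hKx
    refine ⟨x, ?_⟩
    have hmem : ∀ z ∈ Kx, z ∈ G ∧ c.f z.1 z.2 ∈ Z ∧ z.1 ∉ Z ∧ z.1 = x := fun z hz => by
      rw [hKx, Finset.mem_filter, hK, Finset.mem_filter] at hz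
      exact ⟨hz.1.1, hz.1.2.1, hz.1.2.2, hz.2⟩
    have hbv : bv G Z + Kx.card ≤ bv G (c.cl (insert x Z)) := by
      have hinj : (Kx.image Prod.snd).card = Kx.card := by
        apply Finset.card_image_of_injOn
        intro z hz w hw hzw
        have h1 := (hmem z hz).2.2.2
        have h2 := (hmem w hw).2.2.2
        exact Prod.ext (h1.trans h2.symm) hzw
      unfold bv
      rw [← hinj, ← Finset.card_union_of_disjoint]
      · apply Finset.card_le_card
        intro y hy
        rw [Finset.mem_union] at hy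
        rw [Finset.mem_filter]
        rcases hy with hy | hy
        · rw [Finset.mem_filter] at hy
          exact ⟨hy.1, hmono x hy.2⟩
        · rw [Finset.mem_image] at hy
          obtain ⟨z, hz, rfl⟩ := hy
          obtain ⟨hzG, hf, _, hzx⟩ := hmem z hz
          obtain ⟨hp, hq⟩ := hGP z hzG
          refine ⟨Finset.mem_image_of_mem _ hzG, ?_⟩
          refine c.snd_mem (c.idem _) hp hq ?_ (hmono x hf)
          rw [hzx]
          exact c.ext _ (Set.mem_insert x Z)
      · rw [Finset.disjoint_left]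
        intro y hy hy'
        rw [Finset.mem_filter] at hy
        rw [Finset.mem_image] at hy'
        obtain ⟨z, hz, rfl⟩ := hy'
        obtain ⟨hzG, hf, hzZ, _⟩ := hmem z hz
        obtain ⟨hp, hq⟩ := hGP z hzG
        exact hzZ (c.fst_mem hZ hp hq hy.2 hf)
    have hbv' : (bv G Z : ℝ) + Kx.card ≤ bv G (c.cl (insert x Z)) := by exact_mod_cast hbv
    have hx' : (K.card : ℝ) ≤ c.n * Kx.card := by exact_mod_cast hx
    have h3 : ((c.phi G Z : ℝ) - av G Z * bv G Z) / c.n ≤ Kx.card := by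
      rw [div_le_iff₀ hn]
      linarith
    linarith

end Pool.Agent.TRD
end

section

/-!
# TASK TR B1: the algebraic closure operator

`acl k S` is the closure of `S` in the matroid of algebraic independence; `AlgebraicIndependent.matroid_closure_eq` describes it as the set of the elements algebraic over `Algebra.adjoin k S`.
`ext`, `mono`, `idem`: `Matroid.subset_closure` (ground set `univ`), `Matroid.closure_subset_closure`, `Matroid.closure_closure`.
`rank_le`: `x` algebraically independent means that `range x` is independent (`matroid_indep_iff`, `x` injective); `range x ⊆ closure S`; an independent set in the closure of the finite set `S` has at most `S.card` elements (`Matroid.Indep.encard_le_eRk_of_subset`, `Matroid.eRk_closure_eq`, `Matroid.eRk_le_encard`).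
`alg1`: `f x y = x ^ 2 + y ^ 2 - 2 l x y` is in the subalgebra generated by `x, y` over `k ∋ l` (`isAlgebraic_algebraMap` for an element of the base ring of the algebraicity). `alg2`: `x` is a zero of the monic polynomial `X ^ 2 - (2 l y) X + (y ^ 2 - d)` over `Algebra.adjoin k {y, d}`,
`d = f x y` (so integral, so algebraic).
-/

set_option autoImplicit false

namespace Pool.Agent.TRD

/-- the numbers that are algebraic over `k(S)` -/
noncomputable def acl (k : IntermediateField ℚ ℝ) (S : Set ℝ) : Set ℝ :=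
  (AlgebraicIndependent.matroid k ℝ).closure S

theorem acl_ext (k : IntermediateField ℚ ℝ) (S : Set ℝ) : S ⊆ acl k S := by
  unfold acl
  exact (AlgebraicIndependent.matroid k ℝ).subset_closure S (by
    rw [AlgebraicIndependent.matroid_e]; exact Set.subset_univ _)

theorem acl_mono (k : IntermediateField ℚ ℝ) {S T : Set ℝ} (h : S ⊆ T) : acl k S ⊆ acl k T := by
  unfold acl
  exact (AlgebraicIndependent.matroid k ℝ).closure_subset_closure h

theorem acl_idem (k : IntermediateField ℚ ℝ) (S : Set ℝ) : acl k (acl k S) = acl k S := by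
  unfold acl
  exact (AlgebraicIndependent.matroid k ℝ).closure_closure S

theorem rank_le (k : IntermediateField ℚ ℝ) {t : ℕ} {x : Fin t → ℝ} (hx : AlgebraicIndependent k x)
    (S : Finset ℝ) (h : ∀ i, x i ∈ acl k S) : t ≤ S.card := by
  set M := AlgebraicIndependent.matroid k ℝ with hM
  have hinj : Function.Injective x := hx.injective
  have h1 : M.Indep (Set.range x) := by
    rw [hM, AlgebraicIndependent.matroid_indep_iff]
    exact hx.to_subtype_range
  have h2 : Set.range x ⊆ M.closure (S : Set ℝ) := by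
    rintro _ ⟨i, rfl⟩
    exact h i
  have h3 : (Set.range x).encard ≤ M.eRk (M.closure (S : Set ℝ)) :=
    h1.encard_le_eRk_of_subset h2
  rw [Matroid.eRk_closure_eq] at h3
  have h4 : (Set.range x).encard ≤ ((S : Set ℝ)).encard := h3.trans (M.eRk_le_encard _)
  rw [Set.encard_coe_eq_coe_finsetCard, ← Set.image_univ, hinj.encard_image, Set.encard_univ,
    ENat.card_eq_coe_fintype_card, Fintype.card_fin] at h4
  exact_mod_cast h4

private theorem B1_mem (k : IntermediateField ℚ ℝ) (S : Set ℝ) (a : ℝ) :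
    a ∈ acl k S ↔ IsAlgebraic (Algebra.adjoin k S) a := by
  unfold acl
  rw [AlgebraicIndependent.matroid_closure_eq, SetLike.mem_coe, Subalgebra.mem_algebraicClosure]

private theorem B1_k {k : IntermediateField ℚ ℝ} {l : ℝ} (hl : l ∈ k) (S : Set ℝ) :
    l ∈ Algebra.adjoin k S :=
  Subalgebra.algebraMap_mem (Algebra.adjoin k S) (⟨l, hl⟩ : k)

theorem alg1 (k : IntermediateField ℚ ℝ) {l : ℝ} (hl : l ∈ k) (x y : ℝ) :
    x ^ 2 + y ^ 2 - 2 * l * x * y ∈ acl k {x, y} := by
  rw [B1_mem]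
  have hx : x ∈ Algebra.adjoin k ({x, y} : Set ℝ) := Algebra.subset_adjoin (by simp)
  have hy : y ∈ Algebra.adjoin k ({x, y} : Set ℝ) := Algebra.subset_adjoin (by simp)
  have h1 : x ^ 2 + y ^ 2 - 2 * l * x * y ∈ Algebra.adjoin k ({x, y} : Set ℝ) := by
    have hl' : l ∈ Algebra.adjoin k ({x, y} : Set ℝ) := B1_k hl _
    have h2' : (2 : ℝ) ∈ Algebra.adjoin k ({x, y} : Set ℝ) := by
      exact_mod_cast (natCast_mem (Algebra.adjoin k ({x, y} : Set ℝ)) 2)
    exact sub_mem (add_mem (pow_mem hx 2) (pow_mem hy 2))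
      (mul_mem (mul_mem (mul_mem h2' hl') hx) hy)
  exact isAlgebraic_algebraMap (⟨_, h1⟩ : Algebra.adjoin k ({x, y} : Set ℝ))

theorem alg2 (k : IntermediateField ℚ ℝ) {l : ℝ} (hl : l ∈ k) (x y : ℝ) :
    x ∈ acl k {y, x ^ 2 + y ^ 2 - 2 * l * x * y} := by
  rw [B1_mem]
  set d := x ^ 2 + y ^ 2 - 2 * l * x * y with hd
  set A := Algebra.adjoin k ({y, d} : Set ℝ) with hA
  have hy : y ∈ A := Algebra.subset_adjoin (by simp)
  have hdd : d ∈ A := Algebra.subset_adjoin (by simp)
  have hl' : l ∈ A := B1_k hl _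
  have h2' : (2 : ℝ) ∈ A := by exact_mod_cast (natCast_mem A 2)
  have h1 : 2 * l * y ∈ A := mul_mem (mul_mem h2' hl') hy
  have h2 : y ^ 2 - d ∈ A := sub_mem (pow_mem hy 2) hdd
  apply IsIntegral.isAlgebraic
  refine ⟨Polynomial.X ^ 2 + (Polynomial.C (-(⟨_, h1⟩ : A)) * Polynomial.X +
    Polynomial.C (⟨_, h2⟩ : A)), ?_, ?_⟩
  · apply Polynomial.monic_X_pow_add
    refine lt_of_le_of_lt (Polynomial.degree_linear_le) ?_
    norm_num
  · simp only [Polynomial.eval₂_add, Polynomial.eval₂_mul, Polynomial.eval₂_pow,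
      Polynomial.eval₂_X, Polynomial.eval₂_C]
    have e1 : algebraMap A ℝ (-(⟨_, h1⟩ : A)) = -(2 * l * y) := rfl
    have e2 : algebraMap A ℝ (⟨_, h2⟩ : A) = y ^ 2 - d := rfl
    rw [e1, e2, hd]
    ring

end Pool.Agent.TRD
end
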