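import Pool.Agent.Lib.MP_d807e3_co.Mg.G005

section

/-!
# TASK TR A4: a double step

PROOF. First step: if `av G Z ≤ bv G Z` use `stepR` (`mv = bv`, `16 av ≤ 16 mv ≤ n`), otherwise `stepR` for `c.swap`, `G.image Prod.swap` (`swap_rich`, `av_swap`, `bv_swap`, `phi_swap`, `swap_D`; `c.swap.cl = c.cl`, `c.swap.n = c.n` by `rfl`). Get `e`, `Z1 = cl (insert e Z)`, generated by `s + 1` elements (`gen_insert`).
Second step: if `av G Z1 ≤ bv G Z1` use `stepS` for `Z1`, otherwise for the swapped situation: `Z2` with `mv G Z2 ≥ mv G Z1 + (phi G Z1 - av G Z1 * bv G Z1) / n ≥ mv G Z1 + (phi G Z1 - (mv G Z1) ^ 2) / n`. Monotonicity: `Z ⊆ Z1 ⊆ Z2`.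
-/

set_option autoImplicit false

open Finset Classical

namespace Pool.Agent.TRD

variable {E : Type}

private theorem A4_mv_mono (G : Finset (E × E)) {Z Z' : Set E} (h : Z ⊆ Z') : mv G Z ≤ mv G Z' :=
  max_le_max (av_mono G h) (bv_mono G h)

private theorem A4_step1 (c : Cf E) {G : Finset (E × E)} (hG : c.Rich G) {Z : Set E} (hZ : c.cl Z = Z)
    (ha : 16 * mv G Z ≤ c.n) : ∃ e, (c.phi G Z : ℝ) + mv G Z * ((c.n : ℝ) ^ 2 / c.D) / 128 ≤
      c.phi G (c.cl (insert e Z)) := by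
  rcases le_total (av G Z) (bv G Z) with h | h
  · obtain ⟨e, he⟩ := c.stepR hG hZ (le_trans (Nat.mul_le_mul_left 16 (le_max_left _ _)) ha)
    refine ⟨e, ?_⟩
    have h1 : mv G Z = bv G Z := max_eq_right h
    rw [h1]
    exact he
  · have h2 : 16 * av (G.image Prod.swap) Z ≤ c.swap.n := by
      rw [av_swap]
      exact le_trans (Nat.mul_le_mul_left 16 (le_max_right _ _)) ha
    obtain ⟨e, he⟩ := c.swap.stepR (c.swap_rich hG) (Z := Z) hZ h2
    refine ⟨e, ?_⟩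
    have h1 : mv G Z = av G Z := max_eq_left h
    rw [h1]
    rw [c.phi_swap, c.phi_swap, bv_swap, c.swap_D] at he
    exact he

private theorem A4_step2 (c : Cf E) {G : Finset (E × E)} (hG : c.Rich G) {Z : Set E} (hZ : c.cl Z = Z) :
    ∃ e, (mv G Z : ℝ) + ((c.phi G Z : ℝ) - (mv G Z : ℝ) ^ 2) / c.n ≤ mv G (c.cl (insert e Z)) := by
  have hn : (0 : ℝ) < c.n := by exact_mod_cast c.pos
  have ha : (av G Z : ℝ) ≤ mv G Z := by exact_mod_cast le_max_left (av G Z) (bv G Z)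
  have hb : (bv G Z : ℝ) ≤ mv G Z := by exact_mod_cast le_max_right (av G Z) (bv G Z)
  have ha0 : (0 : ℝ) ≤ av G Z := Nat.cast_nonneg _
  have hb0 : (0 : ℝ) ≤ bv G Z := Nat.cast_nonneg _
  have hab : (av G Z : ℝ) * bv G Z ≤ (mv G Z : ℝ) ^ 2 := by
    rw [sq]
    exact mul_le_mul ha hb hb0 (ha0.trans ha)
  have hdiv : ((c.phi G Z : ℝ) - (mv G Z : ℝ) ^ 2) / c.n ≤ ((c.phi G Z : ℝ) - av G Z * bv G Z) / c.n :=
    div_le_div_of_nonneg_right (by linarith) hn.le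
  rcases le_total (av G Z) (bv G Z) with h | h
  · obtain ⟨e, he⟩ := c.stepS hG hZ
    refine ⟨e, ?_⟩
    have h1 : (mv G Z : ℝ) = bv G Z := by exact_mod_cast max_eq_right h
    have h2 : (bv G (c.cl (insert e Z)) : ℝ) ≤ mv G (c.cl (insert e Z)) := by
      exact_mod_cast le_max_right (av G (c.cl (insert e Z))) (bv G (c.cl (insert e Z)))
    linarith
  · obtain ⟨e, he⟩ := c.swap.stepS (c.swap_rich hG) (Z := Z) hZ
    refine ⟨e, ?_⟩
    have h1 : (mv G Z : ℝ) = av G Z := by exact_mod_cast max_eq_left h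
    have h2 : (av G (c.cl (insert e Z)) : ℝ) ≤ mv G (c.cl (insert e Z)) := by
      exact_mod_cast le_max_left (av G (c.cl (insert e Z))) (bv G (c.cl (insert e Z)))
    rw [c.phi_swap, bv_swap, bv_swap, av_swap] at he
    have h3 : (av G Z : ℝ) + ((c.phi G Z : ℝ) - bv G Z * av G Z) / c.n ≤ av G (c.cl (insert e Z)) := he
    rw [mul_comm (bv G Z : ℝ)] at h3
    linarith

theorem Cf.double (c : Cf E) {G : Finset (E × E)} (hG : c.Rich G) {s : ℕ} {Z : Set E}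
    (hZ : c.Gen s Z) (ha : 16 * mv G Z ≤ c.n) : ∃ Z1 Z2, c.Gen (s + 1) Z1 ∧ c.Gen (s + 2) Z2 ∧
      (mv G Z : ℝ) ≤ mv G Z1 ∧
      (c.phi G Z : ℝ) + mv G Z * ((c.n : ℝ) ^ 2 / c.D) / 128 ≤ c.phi G Z1 ∧
      (c.phi G Z1 : ℝ) ≤ c.phi G Z2 ∧ (mv G Z1 : ℝ) ≤ mv G Z2 ∧
      (mv G Z1 : ℝ) + ((c.phi G Z1 : ℝ) - (mv G Z1 : ℝ) ^ 2) / c.n ≤ mv G Z2 := by
  obtain ⟨e, he⟩ := A4_step1 c hG (c.cl_gen hZ) ha
  obtain ⟨g1, m1, -⟩ := c.gen_insert hZ e
  obtain ⟨e', he'⟩ := A4_step2 c hG (c.cl_gen g1)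
  obtain ⟨g2, m2, -⟩ := c.gen_insert g1 e'
  refine ⟨c.cl (insert e Z), c.cl (insert e' (c.cl (insert e Z))), g1, g2, ?_, he, ?_, ?_, he'⟩
  · exact_mod_cast A4_mv_mono G m1
  · exact_mod_cast c.phi_mono G m2
  · exact_mod_cast A4_mv_mono G m2

end Pool.Agent.TRD
end

section

/-!
# TASK TR A5: one phase

PROOF. Let `M = n ^ 2 / D > 0`. Suppose that every `Z'` generated by `s + 4 k` elements has `mv G Z' < 2 α` and `16 mv G Z' ≤ n`. Claim: for `j ≤ 2 k` there is `Z'` with `Gen (s + 2 j) Z'`, `mv G Z' ≥ α + (j - k) k α M / (256 n)` (truncated difference `j - k` of naturals), `phi G Z' ≥ j α M / 128`.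
Induction on `j`: `Z' = Z` for `j = 0`. Step: `double` for `Z'` (`16 mv ≤ n` by assumption and `gen_mono`) gives `Z1`, `Z2`: `phi Z2 ≥ phi Z1 ≥ phi Z' + mv Z' M / 128 ≥ (j + 1) α M / 128` (`mv Z' ≥ α`). If `j + 1 ≤ k` then `mv Z2 ≥ mv Z1 ≥ mv Z' ≥ α`, and the truncated difference is `0`. If `j ≥ k`:
`phi Z1 ≥ (j + 1) α M / 128 ≥ k α M / 128`, `k M ≥ 1024 α`, so `phi Z1 / 2 ≥ k α M / 256 ≥ 4 α ^ 2 ≥ (mv Z1) ^ 2` (`mv Z1 < 2 α`), so `mv Z2 ≥ mv Z1 + phi Z1 / (2 n) ≥ mv Z' + k α M / (256 n)`.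
For `j = 2 k`: `mv ≥ α + k ^ 2 α M / (256 n) ≥ 2 α`, since `k ^ 2 * M ≥ 256 n`. Contradiction.
-/

set_option autoImplicit false

open Finset Classical

namespace Pool.Agent.TRD

variable {E : Type}

theorem Cf.phase (c : Cf E) {G : Finset (E × E)} (hG : c.Rich G) {s k : ℕ} {Z : Set E} {α : ℝ}
    (hZ : c.Gen s Z) (hα : 1 ≤ α) (hm : α ≤ mv G Z) (hk : 1024 * α ≤ k * ((c.n : ℝ) ^ 2 / c.D))
    (hk2 : 256 * (c.n : ℝ) ≤ (k : ℝ) ^ 2 * ((c.n : ℝ) ^ 2 / c.D)) :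
    ∃ Z', c.Gen (s + 4 * k) Z' ∧ (2 * α ≤ mv G Z' ∨ c.n < 16 * mv G Z') := by
  by_contra hcon
  have hall : ∀ Z', c.Gen (s + 4 * k) Z' → (mv G Z' : ℝ) < 2 * α ∧ 16 * mv G Z' ≤ c.n := by
    intro Z' hZ'
    refine ⟨?_, ?_⟩
    · by_contra h
      exact hcon ⟨Z', hZ', Or.inl (not_lt.1 h)⟩
    · by_contra h
      exact hcon ⟨Z', hZ', Or.inr (not_le.1 h)⟩
  set M : ℝ := (c.n : ℝ) ^ 2 / c.D with hM
  have hn : (0 : ℝ) < c.n := by exact_mod_cast c.pos
  have hM0 : 0 ≤ M := by positivity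
  have hα0 : (0 : ℝ) < α := by linarith
  have claim : ∀ j : ℕ, j ≤ 2 * k → ∃ Z', c.Gen (s + 2 * j) Z' ∧
      α + ((j - k : ℕ) : ℝ) * ((k : ℝ) * α * M / (256 * c.n)) ≤ mv G Z' ∧
      (j : ℝ) * (α * M / 128) ≤ c.phi G Z' := by
    intro j
    induction j with
    | zero =>
      intro _
      refine ⟨Z, by simpa using hZ, ?_, ?_⟩
      · simpa using hm
      · simp
    | succ j ih =>
      intro hj
      obtain ⟨Z', hg, h1, h2⟩ := ih (by omega)
      have hb := hall Z' (c.gen_mono (by omega) hg)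
      obtain ⟨Z1, Z2, g1, g2, d1, d2, d3, d4, d5⟩ := c.double hG hg hb.2
      have g2' : c.Gen (s + 2 * (j + 1)) Z2 := by
        have : s + 2 * (j + 1) = s + 2 * j + 2 := by ring
        rw [this]
        exact g2
      have hm1 := (hall Z1 (c.gen_mono (by omega) g1)).1
      have hpos : (0 : ℝ) ≤ (k : ℝ) * α * M / (256 * c.n) := by positivity
      have hmα : α ≤ mv G Z' := by
        have : (0 : ℝ) ≤ ((j - k : ℕ) : ℝ) * ((k : ℝ) * α * M / (256 * c.n)) := by positivity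
        linarith
      have hphi1 : ((j : ℝ) + 1) * (α * M / 128) ≤ c.phi G Z1 := by
        have h3 : α * M ≤ mv G Z' * M := mul_le_mul_of_nonneg_right hmα hM0
        have h4 : ((j : ℝ) + 1) * (α * M / 128) = (j : ℝ) * (α * M / 128) + α * M / 128 := by ring
        rw [h4]
        linarith
      refine ⟨Z2, g2', ?_, ?_⟩
      · by_cases hjk : j + 1 ≤ k
        · have h5 : j + 1 - k = 0 := by omega
          rw [h5]
          push_cast
          linarith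
        · have hkj : k ≤ j := by omega
          have h5 : j + 1 - k = (j - k) + 1 := by omega
          rw [h5]
          push_cast
          have hkj' : (k : ℝ) ≤ (j : ℝ) + 1 := by
            have : (k : ℝ) ≤ j := by exact_mod_cast hkj
            linarith
          have h6 : (k : ℝ) * (α * M / 128) ≤ c.phi G Z1 :=
            (mul_le_mul_of_nonneg_right hkj' (by positivity)).trans hphi1
          have h7 : 1024 * α * α ≤ k * M * α := mul_le_mul_of_nonneg_right hk hα0.le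
          have h8 : (mv G Z1 : ℝ) ^ 2 ≤ (2 * α) ^ 2 :=
            pow_le_pow_left₀ (Nat.cast_nonneg _) hm1.le 2
          have h9 : (k : ℝ) * α * M / 256 ≤ (c.phi G Z1 : ℝ) - (mv G Z1 : ℝ) ^ 2 := by
            nlinarith
          have h10 : (k : ℝ) * α * M / (256 * c.n) ≤ ((c.phi G Z1 : ℝ) - (mv G Z1 : ℝ) ^ 2) / c.n := by
            have : (k : ℝ) * α * M / (256 * c.n) = (k : ℝ) * α * M / 256 / c.n := by
              field_simp
            rw [this]
            exact div_le_div_of_nonneg_right h9 hn.le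
          have h11 : (((j - k : ℕ) : ℝ) + 1) * ((k : ℝ) * α * M / (256 * c.n)) =
              ((j - k : ℕ) : ℝ) * ((k : ℝ) * α * M / (256 * c.n)) + (k : ℝ) * α * M / (256 * c.n) := by ring
          rw [h11]
          linarith
      · push_cast
        linarith
  obtain ⟨Z', hg, h1, -⟩ := claim (2 * k) le_rfl
  have hb := (hall Z' (c.gen_mono (by omega) hg)).1
  have h5 : 2 * k - k = k := by omega
  rw [h5] at h1
  have h6 : α ≤ (k : ℝ) * ((k : ℝ) * α * M / (256 * c.n)) := by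
    have : (k : ℝ) * ((k : ℝ) * α * M / (256 * c.n)) = α * ((k : ℝ) ^ 2 * M) / (256 * c.n) := by ring
    rw [this, le_div_iff₀ (by positivity)]
    exact mul_le_mul_of_nonneg_left hk2 hα0.le
  linarith

end Pool.Agent.TRD
end

section

/-!
# TASK TR A6: iteration

PROOF. Let `M = n ^ 2 / D`, `k i = ⌈1024 * 2 ^ i / M⌉₊ + ⌈16 * sqrt (n / M)⌉₊` (`n / M = D / n`). Claim: for every `j` there is `Z` with `Gen (1 + ∑ i ∈ range j, 4 k i) Z` and (`2 ^ j ≤ mv G Z` or `n < 16 mv G Z`). `j = 0`: `Z = cl {x₀}` for a row `x₀` of `G` (`G` nonempty), `mv ≥ av ≥ 1`. Step: if `n < 16 mv` keep `Z` (`gen_mono`);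
otherwise `phase` with `α = 2 ^ j`, `k = k j`: `k M ≥ 1024 α`; `k ^ 2 M ≥ 256 (n / M) M = 256 n`.
Let `J` be the least natural number with `n < 16 * 2 ^ J`; then (`J = 0` or `16 * 2 ^ (J - 1) ≤ n`) `2 ^ J ≤ n / 8` or `J = 0`; in both cases `2 ^ J ≤ n` (`n ≥ 1`), and `J ≤ log n / log 2 ≤ 2 log n`. For `j = J` both alternatives give `n < 16 mv G Z`. The number of elements is at most
`1 + ∑ i < J, 4 (1024 * 2 ^ i / M + 16 sqrt (D / n) + 2) ≤ 1 + 4096 * 2 ^ J / M + J (64 sqrt (D / n) + 8) ≤ 1 + 4096 D / n + 2 log n (64 sqrt (D / n) + 8)` (`2 ^ J / M ≤ n / M = D / n`). With `1 ≤ 2 sqrt (D / n)` (as `n ≤ 2 D`) and `1 ≤ 2 D / n` this is at most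
`4100 * (D / n) + 200 * sqrt (D / n) * log n`.
-/

set_option autoImplicit false

open Finset Classical

namespace Pool.Agent.TRD

variable {E : Type}

theorem Cf.grow (c : Cf E) {G : Finset (E × E)} (hG : c.Rich G) : ∃ (s : ℕ) (Z : Set E), c.Gen s Z ∧
    c.n < 16 * mv G Z ∧
    (s : ℝ) ≤ 4100 * ((c.D : ℝ) / c.n) + 200 * Real.sqrt ((c.D : ℝ) / c.n) * Real.log c.n := by
  have hn : (1 : ℝ) ≤ c.n := by exact_mod_cast c.pos
  have hDn : (c.n : ℝ) ≤ 2 * c.D := by exact_mod_cast c.D_ge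
  have hD : (0 : ℝ) < c.D := by linarith
  have hn0 : (0 : ℝ) < c.n := by linarith
  have hM0 : 0 < (c.n : ℝ) ^ 2 / c.D := by positivity
  have hx2 : 1 / 2 ≤ (c.D : ℝ) / c.n := by
    rw [le_div_iff₀ hn0]
    linarith
  have hxM : (c.D : ℝ) / c.n * ((c.n : ℝ) ^ 2 / c.D) = c.n := by field_simp
  obtain ⟨x, hx⟩ : ∃ x : ℝ, x = (c.D : ℝ) / c.n := ⟨_, rfl⟩
  obtain ⟨M, hM⟩ : ∃ M : ℝ, M = (c.n : ℝ) ^ 2 / c.D := ⟨_, rfl⟩
  rw [← hx] at hx2 hxM ⊢
  rw [← hM] at hM0 hxM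
  have hx0 : 0 < x := by linarith
  obtain ⟨k, hk⟩ : ∃ k : ℕ → ℕ, k = fun i => ⌈1024 * 2 ^ i / M⌉₊ + ⌈16 * Real.sqrt x⌉₊ :=
    ⟨_, rfl⟩
  have hk1 : ∀ i, 1024 * (2 : ℝ) ^ i ≤ k i * M := by
    intro i
    have h1 : 1024 * (2 : ℝ) ^ i / M ≤ (k i : ℝ) := by
      rw [hk]
      push_cast
      have := Nat.le_ceil (1024 * (2 : ℝ) ^ i / M)
      have h2 : (0 : ℝ) ≤ (⌈16 * Real.sqrt x⌉₊ : ℝ) := Nat.cast_nonneg _
      linarith
    rwa [div_le_iff₀ hM0] at h1
  have hk2 : ∀ i, 256 * (c.n : ℝ) ≤ (k i : ℝ) ^ 2 * M := by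
    intro i
    have h1 : 16 * Real.sqrt x ≤ (k i : ℝ) := by
      rw [hk]
      push_cast
      have := Nat.le_ceil (16 * Real.sqrt x)
      have h2 : (0 : ℝ) ≤ (⌈1024 * (2 : ℝ) ^ i / M⌉₊ : ℝ) := Nat.cast_nonneg _
      linarith
    have h3 : 0 ≤ Real.sqrt x := Real.sqrt_nonneg x
    have h4 : 256 * x ≤ (k i : ℝ) ^ 2 := by
      have h5 : Real.sqrt x ^ 2 = x := Real.sq_sqrt hx0.le
      nlinarith
    calc 256 * (c.n : ℝ) = 256 * x * M := by rw [← hxM]; ring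
      _ ≤ (k i : ℝ) ^ 2 * M := mul_le_mul_of_nonneg_right h4 hM0.le
  have hk3 : ∀ i, (k i : ℝ) ≤ 1024 * 2 ^ i / M + 16 * Real.sqrt x + 2 := by
    intro i
    rw [hk]
    push_cast
    have h1 := Nat.ceil_lt_add_one (a := 1024 * (2 : ℝ) ^ i / M) (by positivity)
    have h2 := Nat.ceil_lt_add_one (a := 16 * Real.sqrt x) (by positivity)
    linarith
  have claim : ∀ j : ℕ, ∃ Z, c.Gen (1 + ∑ i ∈ range j, 4 * k i) Z ∧
      ((2 : ℝ) ^ j ≤ mv G Z ∨ c.n < 16 * mv G Z) := by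
    intro j
    induction j with
    | zero =>
      obtain ⟨z, hz⟩ := hG.ne
      refine ⟨c.cl (({z.1} : Finset E) : Set E), ⟨{z.1}, by simp, rfl⟩, Or.inl ?_⟩
      have h1 : 0 < av G (c.cl (({z.1} : Finset E) : Set E)) := by
        unfold av
        rw [Finset.card_pos]
        refine ⟨z.1, ?_⟩
        rw [Finset.mem_filter]
        refine ⟨Finset.mem_image_of_mem _ hz, c.ext _ ?_⟩
        simp
      have h2 : 1 ≤ mv G (c.cl (({z.1} : Finset E) : Set E)) := le_trans h1 (le_max_left _ _)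
      rw [pow_zero]
      exact_mod_cast h2
    | succ j ih =>
      obtain ⟨Z, hZ, h1⟩ := ih
      rw [Finset.sum_range_succ, ← add_assoc]
      rcases h1 with h1 | h1
      · obtain ⟨Z', hZ', h2⟩ := c.phase hG hZ (α := 2 ^ j) (k := k j)
          (one_le_pow₀ (by norm_num)) h1 (by rw [← hM]; exact hk1 j) (by rw [← hM]; exact hk2 j)
        refine ⟨Z', hZ', ?_⟩
        rcases h2 with h2 | h2
        · left
          rw [pow_succ, mul_comm]
          exact h2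
        · exact Or.inr h2
      · exact ⟨Z, c.gen_mono (Nat.le_add_right _ _) hZ, Or.inr h1⟩
  obtain ⟨Z, hZ, h1⟩ := claim (Nat.log 2 c.n)
  have hJ1 : 2 ^ Nat.log 2 c.n ≤ c.n := Nat.pow_log_le_self 2 (by have := c.pos; omega)
  have hJ2 : c.n < 2 ^ (Nat.log 2 c.n + 1) := Nat.lt_pow_succ_log_self (by norm_num) c.n
  refine ⟨_, Z, hZ, ?_, ?_⟩
  · rcases h1 with h1 | h1
    · have h2 : 2 ^ Nat.log 2 c.n ≤ mv G Z := by exact_mod_cast h1
      rw [pow_succ] at hJ2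
      omega
    · exact h1
  · generalize Nat.log 2 c.n = J at *
    have e1 : (2 : ℝ) ^ J ≤ c.n := by exact_mod_cast hJ1
    have hL0 : 0 ≤ Real.log c.n := Real.log_nonneg hn
    have e2 : (J : ℝ) ≤ 2 * Real.log c.n := by
      have h3 : (J : ℝ) * Real.log 2 ≤ Real.log c.n := by
        rw [← Real.log_pow]
        exact Real.log_le_log (by positivity) e1
      have h4 : (1 : ℝ) / 2 ≤ Real.log 2 := by
        have := Real.log_two_gt_d9
        linarith
      have h5 : (0 : ℝ) ≤ J := Nat.cast_nonneg _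
      nlinarith
    have e3 : (2 : ℝ) ^ J / M ≤ x := by
      rw [div_le_iff₀ hM0, hxM]
      exact e1
    have e4 : ∀ j : ℕ, ∑ i ∈ range j, (4 * (k i : ℝ)) ≤
        4096 * ((2 : ℝ) ^ j / M) + j * (64 * Real.sqrt x + 8) := by
      intro j
      induction j with
      | zero =>
        simp only [Finset.range_zero, Finset.sum_empty]
        positivity
      | succ j ih =>
        rw [Finset.sum_range_succ]
        have h6 := hk3 j
        have h7 : (2 : ℝ) ^ (j + 1) / M = 2 * ((2 : ℝ) ^ j / M) := by rw [pow_succ]; ring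
        have h8 : 1024 * (2 : ℝ) ^ j / M = 1024 * ((2 : ℝ) ^ j / M) := by ring
        rw [h7]
        rw [h8] at h6
        push_cast
        linarith
    have e5 := e4 J
    push_cast
    have h9 : 1 / 2 ≤ Real.sqrt x := by
      apply Real.le_sqrt_of_sq_le
      linarith
    have h10 : (J : ℝ) * (64 * Real.sqrt x + 8) ≤ 2 * Real.log c.n * (64 * Real.sqrt x + 8) :=
      mul_le_mul_of_nonneg_right e2 (by positivity)
    have h11 : 0 ≤ Real.log c.n * (Real.sqrt x - 1 / 2) :=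
      mul_nonneg hL0 (by linarith)
    have h12 : 0 ≤ Real.log c.n * Real.sqrt x := mul_nonneg hL0 (by positivity)
    nlinarith

end Pool.Agent.TRD
end
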