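import Pool.Agent.Lib.MP_d807e3_co.Mg.G006
import Pool.Agent.Lib.MP_d807e3_co.Mg.G005

section

/-!
# TASK TR A7: the end, and Theorem A

PROOF of `absorb`. Let `β = (Q.filter (· ∈ Z)).card`. Claim: for every `j` there is `Z' ⊇ Z` with `Gen (s + j) Z'` and (`P ⊆ Z'` or at least `j β / 2` of the `D` colours are in `Z'`, i.e. `j * β ≤ 2 * (colours.filter (· ∈ Z')).card`). Step: if `P ⊄ Z'` take `x ∈ P`, `x ∉ Z'`, `Z'' = cl (insert x Z')`:
the colours `f x y`, `y ∈ Q ∩ Z`, are not in `Z'` (otherwise `x ∈ Z'`, `fst_mem`), they are in `Z''`, and there are at least `β / 2` different ones (`r2`). Since there are `D` colours, for `j * β > 2 D` the first alternative holds: `j = 2 D / β + 1` (natural division).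

PROOF of `main`. `cleaning`, `grow`: `Z` with `n < 16 mv G Z`. Say `mv = bv` (otherwise swap everything: `c.swap`; or apply `absorb` to `c.swap` first): `β ≥ bv G Z ≥ n / 16` (columns of `G` are in `Q`), so `P ⊆ Z'` with at most `2 D / β + 1 ≤ 32 D / n + 1` more elements; then `absorb` for `c.swap` with `β = n`:
`Q ⊆ Z''` with at most `2 D / n + 1` more. Total at most `s + 34 D / n + 2 ≤ s + 38 D / n` (`n ≤ 2 D`).
-/

set_option autoImplicit false

open Finset Classical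

namespace Pool.Agent.TRD

variable {E : Type}

/-- the set of colours -/
private noncomputable def A7_C (c : Cf E) : Finset E := (c.P ×ˢ c.Q).image (fun z => c.f z.1 z.2)

private theorem A7_step (c : Cf E) {s : ℕ} {Z Z' : Set E} (hZZ : Z ⊆ Z') (hZ : c.Gen s Z') {x : E}
    (hx : x ∈ c.P) (hxZ : x ∉ Z') :
    2 * ((A7_C c).filter (· ∈ Z')).card + (c.Q.filter (· ∈ Z)).card ≤
      2 * ((A7_C c).filter (· ∈ c.cl (insert x Z'))).card := by
  obtain ⟨h1, h2, h3⟩ := c.gen_insert hZ x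
  have hcl := c.cl_gen hZ
  have hcl' := c.cl_gen h1
  have h4 : (c.Q.filter (· ∈ Z)).card ≤ 2 * ((c.Q.filter (· ∈ Z)).image (c.f x)).card := by
    refine Finset.card_le_mul_card_image _ 2 fun d _ => ?_
    refine le_trans (Finset.card_le_card ?_) (c.r2 x hx d)
    intro y hy
    obtain ⟨hy1, hy2⟩ := Finset.mem_filter.1 hy
    exact Finset.mem_filter.2 ⟨(Finset.mem_filter.1 hy1).1, hy2⟩
  have h5 : ((A7_C c).filter (· ∈ Z')).card + ((c.Q.filter (· ∈ Z)).image (c.f x)).card ≤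
      ((A7_C c).filter (· ∈ c.cl (insert x Z'))).card := by
    have hdisj : Disjoint ((A7_C c).filter (· ∈ Z')) ((c.Q.filter (· ∈ Z)).image (c.f x)) := by
      rw [Finset.disjoint_left]
      intro d hd hd'
      obtain ⟨y, hy, rfl⟩ := Finset.mem_image.1 hd'
      obtain ⟨hy1, hy2⟩ := Finset.mem_filter.1 hy
      exact hxZ (c.fst_mem hcl hx hy1 (hZZ hy2) (Finset.mem_filter.1 hd).2)
    rw [← Finset.card_union_of_disjoint hdisj]
    refine Finset.card_le_card ?_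
    intro d hd
    rcases Finset.mem_union.1 hd with hd | hd
    · obtain ⟨hd1, hd2⟩ := Finset.mem_filter.1 hd
      exact Finset.mem_filter.2 ⟨hd1, h2 hd2⟩
    · obtain ⟨y, hy, rfl⟩ := Finset.mem_image.1 hd
      obtain ⟨hy1, hy2⟩ := Finset.mem_filter.1 hy
      refine Finset.mem_filter.2 ⟨?_, c.col_mem hcl' hx hy1 h3 (h2 (hZZ hy2))⟩
      exact Finset.mem_image.2 ⟨(x, y), Finset.mem_product.2 ⟨hx, hy1⟩, rfl⟩
  omega

private theorem A7_iter (c : Cf E) {s : ℕ} {Z : Set E} (hZ : c.Gen s Z) (j : ℕ) :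
    ∃ Z', Z ⊆ Z' ∧ c.Gen (s + j) Z' ∧ ((∀ x ∈ c.P, x ∈ Z') ∨
      j * (c.Q.filter (· ∈ Z)).card ≤ 2 * ((A7_C c).filter (· ∈ Z')).card) := by
  induction j with
  | zero =>
    refine ⟨Z, subset_rfl, hZ, Or.inr ?_⟩
    rw [Nat.zero_mul]
    exact Nat.zero_le _
  | succ j ih =>
    obtain ⟨Z', h1, h2, h3⟩ := ih
    by_cases hP : ∀ x ∈ c.P, x ∈ Z'
    · exact ⟨Z', h1, c.gen_mono (by omega) h2, Or.inl hP⟩
    · have h4 := h3.resolve_left hP
      push Not at hP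
      obtain ⟨x, hx, hxZ⟩ := hP
      obtain ⟨h5, h6, h7⟩ := c.gen_insert h2 x
      refine ⟨c.cl (insert x Z'), h1.trans h6, h5, Or.inr ?_⟩
      have h8 := A7_step c h1 h2 hx hxZ
      rw [Nat.succ_mul]
      omega

theorem Cf.absorb (c : Cf E) {s : ℕ} {Z : Set E} (hZ : c.Gen s Z)
    (hβ : 0 < (c.Q.filter (· ∈ Z)).card) : ∃ Z', Z ⊆ Z' ∧ (∀ x ∈ c.P, x ∈ Z') ∧
      c.Gen (s + (2 * c.D / (c.Q.filter (· ∈ Z)).card + 1)) Z' := by
  obtain ⟨Z', h1, h2, h3⟩ := A7_iter c hZ (2 * c.D / (c.Q.filter (· ∈ Z)).card + 1)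
  refine ⟨Z', h1, ?_, h2⟩
  refine h3.resolve_right ?_
  intro h4
  have h5 : ((A7_C c).filter (· ∈ Z')).card ≤ c.D := Finset.card_filter_le _ _
  have h6 := Nat.lt_mul_div_succ (2 * c.D) hβ
  have h7 := h4.trans (Nat.mul_le_mul_left 2 h5)
  rw [mul_comm] at h7
  exact absurd h7 (not_le.2 h6)

private theorem A7_end (c : Cf E) {s : ℕ} {Z : Set E} (hZ : c.Gen s Z)
    (hm : c.n < 16 * (c.Q.filter (· ∈ Z)).card) :
    ∃ S : Finset E, (∀ x ∈ c.P, x ∈ c.cl S) ∧ (∀ y ∈ c.Q, y ∈ c.cl S) ∧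
      (S.card : ℝ) ≤ s + 38 * ((c.D : ℝ) / c.n) := by
  have hβ : 0 < (c.Q.filter (· ∈ Z)).card := by omega
  obtain ⟨Z1, h1, h2, h3⟩ := c.absorb hZ hβ
  have h4 : (c.swap.Q.filter (· ∈ Z1)) = c.P := Finset.filter_true_of_mem h2
  have h5 : (c.swap.Q.filter (· ∈ Z1)).card = c.n := by
    rw [h4, c.cP]
  have hn : 0 < c.n := c.pos
  have hβ' : 0 < (c.swap.Q.filter (· ∈ Z1)).card := by
    rw [h5]
    exact hn
  have h3' : c.swap.Gen (s + (2 * c.D / (c.Q.filter (· ∈ Z)).card + 1)) Z1 := h3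
  obtain ⟨Z2, h6, h7, h8⟩ := c.swap.absorb h3' hβ'
  rw [h5, c.swap_D] at h8
  obtain ⟨S, hS1, hS2⟩ := h8
  have hS2' : Z2 = c.cl S := hS2
  refine ⟨S, fun x hx => ?_, fun y hy => ?_, ?_⟩
  · rw [← hS2']
    exact h6 (h2 x hx)
  · rw [← hS2']
    exact h7 y hy
  · have hn' : (0 : ℝ) < c.n := by exact_mod_cast hn
    have hβr : (0 : ℝ) < ((c.Q.filter (· ∈ Z)).card : ℝ) := by exact_mod_cast hβ
    have hmr : (c.n : ℝ) ≤ 16 * ((c.Q.filter (· ∈ Z)).card : ℝ) := by exact_mod_cast hm.le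
    have hD : (c.n : ℝ) ≤ 2 * (c.D : ℝ) := by exact_mod_cast c.D_ge
    have hD0 : (0 : ℝ) ≤ c.D := by positivity
    have e1 : ((2 * c.D / (c.Q.filter (· ∈ Z)).card : ℕ) : ℝ) ≤ 32 * ((c.D : ℝ) / c.n) := by
      refine Nat.cast_div_le.trans ?_
      push_cast
      rw [← mul_div_assoc, div_le_div_iff₀ hβr hn']
      nlinarith
    have e2 : ((2 * c.D / c.n : ℕ) : ℝ) ≤ 2 * ((c.D : ℝ) / c.n) := by
      refine Nat.cast_div_le.trans ?_
      push_cast
      rw [← mul_div_assoc]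
    have e3 : (2 : ℝ) ≤ 4 * ((c.D : ℝ) / c.n) := by
      rw [← mul_div_assoc, le_div_iff₀ hn']
      linarith
    have e4 : (S.card : ℝ) ≤ ((s + (2 * c.D / (c.Q.filter (· ∈ Z)).card + 1) +
        (2 * c.D / c.n + 1) : ℕ) : ℝ) := by exact_mod_cast hS1
    push_cast at e4
    linarith

theorem Cf.main (c : Cf E) : ∃ S : Finset E, (∀ x ∈ c.P, x ∈ c.cl S) ∧ (∀ y ∈ c.Q, y ∈ c.cl S) ∧
    (S.card : ℝ) ≤ 4200 * ((c.D : ℝ) / c.n) + 200 * Real.sqrt ((c.D : ℝ) / c.n) * Real.log c.n := by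
  obtain ⟨G, hG⟩ := c.cleaning
  obtain ⟨s, Z, hZ, hm, hs⟩ := c.grow hG
  have h1 : ∃ S : Finset E, (∀ x ∈ c.P, x ∈ c.cl S) ∧ (∀ y ∈ c.Q, y ∈ c.cl S) ∧
      (S.card : ℝ) ≤ s + 38 * ((c.D : ℝ) / c.n) := by
    unfold mv at hm
    rcases le_total (av G Z) (bv G Z) with h | h
    · rw [max_eq_right h] at hm
      have h2 : bv G Z ≤ (c.Q.filter (· ∈ Z)).card := by
        refine Finset.card_le_card ?_
        intro y hy
        obtain ⟨hy1, hy2⟩ := Finset.mem_filter.1 hy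
        obtain ⟨w, hw, rfl⟩ := Finset.mem_image.1 hy1
        exact Finset.mem_filter.2 ⟨(Finset.mem_product.1 (hG.sub hw)).2, hy2⟩
      exact A7_end c hZ (by omega)
    · rw [max_eq_left h] at hm
      have h2 : av G Z ≤ (c.swap.Q.filter (· ∈ Z)).card := by
        refine Finset.card_le_card ?_
        intro y hy
        obtain ⟨hy1, hy2⟩ := Finset.mem_filter.1 hy
        obtain ⟨w, hw, rfl⟩ := Finset.mem_image.1 hy1
        exact Finset.mem_filter.2 ⟨(Finset.mem_product.1 (hG.sub hw)).1, hy2⟩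
      have hZ' : c.swap.Gen s Z := hZ
      have hn : c.swap.n = c.n := rfl
      obtain ⟨S, hS1, hS2, hS3⟩ := A7_end c.swap hZ' (by omega)
      rw [c.swap_D] at hS3
      exact ⟨S, hS2, hS1, hS3⟩
  obtain ⟨S, hS1, hS2, hS3⟩ := h1
  refine ⟨S, hS1, hS2, ?_⟩
  have h3 : (0 : ℝ) ≤ (c.D : ℝ) / c.n := by positivity
  linarith

end Pool.Agent.TRD
end

section

/-!
# TASK TR B2: the theorem for numbers

PROOF. Build a `Cf ℝ` with `cl = acl k`, `k = IntermediateField.adjoin ℚ {l}`, `f x y = x ^ 2 + y ^ 2 - 2 l x y`: `c1` = `alg1`, `c2` = `alg2`, `c3` = `alg2` with `x` and `y` exchanged (`f y x = f x y`); `r2`, `l2`: a quadratic equation has at most two solutions (`x ^ 2 - 2 l y x + (y ^ 2 - d) = 0`: if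
`x₁, x₂` are solutions, `x₁ ≠ x₂`, then `x₁ + x₂ = 2 l y`; three different solutions are impossible; `Finset.card_le_two`-like: `Finset.two_lt_card`). `main` gives `S`; all `x i` are in `acl k S`, so `t ≤ S.card` (`rank_le`), and
`n t ≤ 4200 D + 200 sqrt (D n) log n ≤ 4200 D + 100 (D + n log n ^ 2)` (`n * sqrt (D / n) = sqrt (D n)`, `2 sqrt (D n) log n ≤ D + n log n ^ 2`). So `C = 4300` works.
-/

set_option autoImplicit false

open Finset Classical

namespace Pool.Agent.TRD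

private theorem B2_two (l x d : ℝ) (Y : Finset ℝ) :
    (Y.filter (fun y => x ^ 2 + y ^ 2 - 2 * l * x * y = d)).card ≤ 2 := by
  by_contra h
  rw [not_le, Finset.two_lt_card] at h
  obtain ⟨a, ha, b, hb, c, hc, hab, hac, hbc⟩ := h
  rw [Finset.mem_filter] at ha hb hc
  have h1 : (a - b) * (a + b - 2 * l * x) = 0 := by linear_combination ha.2 - hb.2
  have h2 : (a - c) * (a + c - 2 * l * x) = 0 := by linear_combination ha.2 - hc.2
  have h1' : a + b - 2 * l * x = 0 := (mul_eq_zero.1 h1).resolve_left (sub_ne_zero.2 hab)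
  have h2' : a + c - 2 * l * x = 0 := (mul_eq_zero.1 h2).resolve_left (sub_ne_zero.2 hac)
  exact hbc (by linarith)

private noncomputable def B2_cf (l : ℝ) (X Y : Finset ℝ) {n : ℕ} (hn : 1 ≤ n) (hX : X.card = n)
    (hY : Y.card = n) : Cf ℝ where
  cl := acl (IntermediateField.adjoin ℚ {l})
  P := X
  Q := Y
  f := fun x y => x ^ 2 + y ^ 2 - 2 * l * x * y
  n := n
  ext := acl_ext _
  mono := fun _ _ h => acl_mono _ h
  idem := acl_idem _
  cP := hX
  cQ := hY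
  pos := hn
  c1 := fun x _ y _ => alg1 _ (IntermediateField.mem_adjoin_simple_self ℚ l) x y
  c2 := fun x _ y _ => alg2 _ (IntermediateField.mem_adjoin_simple_self ℚ l) x y
  c3 := fun x _ y _ => by
    have h := alg2 _ (IntermediateField.mem_adjoin_simple_self ℚ l) y x
    have e : y ^ 2 + x ^ 2 - 2 * l * y * x = x ^ 2 + y ^ 2 - 2 * l * x * y := by ring
    rw [e] at h
    exact h
  r2 := fun x _ d => B2_two l x d Y
  l2 := fun y _ d => by
    have h := B2_two l y d X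
    have e : ∀ x : ℝ, y ^ 2 + x ^ 2 - 2 * l * y * x = x ^ 2 + y ^ 2 - 2 * l * x * y := fun x => by ring
    simp only [e] at h
    exact h

theorem numbers (l : ℝ) (X Y : Finset ℝ) {n t : ℕ} (hn : 1 ≤ n) (hX : X.card = n) (hY : Y.card = n)
    (x : Fin t → ℝ) (hx : AlgebraicIndependent (IntermediateField.adjoin ℚ {l}) x)
    (hxXY : ∀ i, x i ∈ X ∨ x i ∈ Y) :
    (n : ℝ) * t ≤ 4300 * ((((X ×ˢ Y).image (fun z => z.1 ^ 2 + z.2 ^ 2 - 2 * l * z.1 * z.2)).card : ℝ) +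
      n * Real.log n ^ 2) := by
  obtain ⟨S, h1, h2, h3⟩ := (B2_cf l X Y hn hX hY).main
  have ht : t ≤ S.card := rank_le _ hx S fun i => (hxXY i).elim (h1 (x i)) (h2 (x i))
  have hD : ((B2_cf l X Y hn hX hY).D : ℝ) =
      (((X ×ˢ Y).image (fun z => z.1 ^ 2 + z.2 ^ 2 - 2 * l * z.1 * z.2)).card : ℝ) := by
    unfold Cf.D B2_cf
    congr!
  have hn' : (B2_cf l X Y hn hX hY).n = n := rfl
  rw [hn', hD] at h3
  have hD0 : (0 : ℝ) ≤ (((X ×ˢ Y).image (fun z => z.1 ^ 2 + z.2 ^ 2 - 2 * l * z.1 * z.2)).card : ℝ) :=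
    Nat.cast_nonneg _
  generalize (((X ×ˢ Y).image (fun z => z.1 ^ 2 + z.2 ^ 2 - 2 * l * z.1 * z.2)).card : ℝ) = D at h3 hD0 ⊢
  have ht' : (t : ℝ) ≤ S.card := by exact_mod_cast ht
  have hnp : (0 : ℝ) < n := by exact_mod_cast hn
  have hs : Real.sqrt (D / n) ^ 2 = D / n := Real.sq_sqrt (by positivity)
  have hDs : D = n * Real.sqrt (D / n) ^ 2 := by
    rw [hs]
    field_simp
  generalize Real.sqrt (D / n) = s at h3 hDs
  generalize Real.log (n : ℝ) = L at h3 ⊢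
  have h4 : (n : ℝ) * t ≤ n * (4200 * (D / n) + 200 * s * L) :=
    mul_le_mul_of_nonneg_left (ht'.trans h3) hnp.le
  have h5 : (n : ℝ) * (4200 * (D / n) + 200 * s * L) = 4200 * D + 200 * (n * (s * L)) := by
    field_simp
  have h6 : (n : ℝ) * (2 * (s * L)) ≤ n * (s ^ 2 + L ^ 2) :=
    mul_le_mul_of_nonneg_left (by nlinarith [sq_nonneg (s - L)]) hnp.le
  have h7 : (0 : ℝ) ≤ n * L ^ 2 := by positivity
  nlinarith

end Pool.Agent.TRD
end
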