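import Mathlib

section

/-!
Rich hyperbolas with horizontal and vertical asymptotes in a grid: an incidence bound proved by
cutting the grid into cells.
-/

namespace Pool.Agent.MP_d807e3_co.Rich

open Finset

/-- The points of the grid `X × Y` on the hyperbola `(x - c₁) (y - c₂) = p`. -/
noncomputable def pts (X Y : Finset ℝ) (h : ℝ × ℝ × ℝ) : Finset (ℝ × ℝ) :=
  (X ×ˢ Y).filter (fun z => (z.1 - h.1) * (z.2 - h.2.1) = h.2.2)

lemma mem_pts {X Y : Finset ℝ} {h : ℝ × ℝ × ℝ} {z : ℝ × ℝ} :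
    z ∈ pts X Y h ↔ z.1 ∈ X ∧ z.2 ∈ Y ∧ (z.1 - h.1) * (z.2 - h.2.1) = h.2.2 := by
  unfold pts
  rw [Finset.mem_filter, Finset.mem_product, and_assoc]

lemma ne_of_mem {X Y : Finset ℝ} {h : ℝ × ℝ × ℝ} (hp : h.2.2 ≠ 0) {z : ℝ × ℝ}
    (hz : z ∈ pts X Y h) : z.1 - h.1 ≠ 0 ∧ z.2 - h.2.1 ≠ 0 := by
  have h1 := (mem_pts.1 hz).2.2
  constructor
  · intro h0
    rw [h0, zero_mul] at h1
    exact hp h1.symm
  · intro h0
    rw [h0, mul_zero] at h1
    exact hp h1.symm

lemma eq_of_fst {X Y : Finset ℝ} {h : ℝ × ℝ × ℝ} (hp : h.2.2 ≠ 0) {z w : ℝ × ℝ}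
    (hz : z ∈ pts X Y h) (hw : w ∈ pts X Y h) (h1 : z.1 = w.1) : z = w := by
  have h2 := (mem_pts.1 hz).2.2
  have h3 := (mem_pts.1 hw).2.2
  have h4 := (ne_of_mem hp hz).1
  rw [← h1] at h3
  have h5 : (z.1 - h.1) * (z.2 - w.2) = 0 := by linear_combination h2 - h3
  rcases mul_eq_zero.1 h5 with h6 | h6
  · exact absurd h6 h4
  · exact Prod.ext h1 (by linarith)

lemma eq_of_snd {X Y : Finset ℝ} {h : ℝ × ℝ × ℝ} (hp : h.2.2 ≠ 0) {z w : ℝ × ℝ}
    (hz : z ∈ pts X Y h) (hw : w ∈ pts X Y h) (h1 : z.2 = w.2) : z = w := by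
  have h2 := (mem_pts.1 hz).2.2
  have h3 := (mem_pts.1 hw).2.2
  have h4 := (ne_of_mem hp hz).2
  rw [← h1] at h3
  have h5 : (z.1 - w.1) * (z.2 - h.2.1) = 0 := by linear_combination h2 - h3
  rcases mul_eq_zero.1 h5 with h6 | h6
  · exact Prod.ext (by linarith) h1
  · exact absurd h6 h4

lemma card_pts_le_fst {X Y : Finset ℝ} {h : ℝ × ℝ × ℝ} (hp : h.2.2 ≠ 0) :
    (pts X Y h).card ≤ X.card := by
  refine Finset.card_le_card_of_injOn Prod.fst ?_ ?_
  · intro z hz
    exact (mem_pts.1 (Finset.mem_coe.1 hz)).1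
  · intro z hz w hw h1
    exact eq_of_fst hp (Finset.mem_coe.1 hz) (Finset.mem_coe.1 hw) h1

lemma card_pts_le_snd {X Y : Finset ℝ} {h : ℝ × ℝ × ℝ} (hp : h.2.2 ≠ 0) :
    (pts X Y h).card ≤ Y.card := by
  refine Finset.card_le_card_of_injOn Prod.snd ?_ ?_
  · intro z hz
    exact (mem_pts.1 (Finset.mem_coe.1 hz)).2.1
  · intro z hz w hw h1
    exact eq_of_snd hp (Finset.mem_coe.1 hz) (Finset.mem_coe.1 hw) h1

/-- A quadratic polynomial with three distinct zeros vanishes. -/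
lemma quad_zero {a b c u v w : ℝ} (h1 : a * u ^ 2 + b * u + c = 0)
    (h2 : a * v ^ 2 + b * v + c = 0) (h3 : a * w ^ 2 + b * w + c = 0) (huv : u ≠ v)
    (huw : u ≠ w) (hvw : v ≠ w) : a = 0 ∧ b = 0 ∧ c = 0 := by
  have e1 : a * (u + v) + b = 0 := by
    have : (u - v) * (a * (u + v) + b) = 0 := by linear_combination h1 - h2
    rcases mul_eq_zero.1 this with h | h
    · exact absurd (sub_eq_zero.1 h) huv
    · exact h
  have e2 : a * (u + w) + b = 0 := by
    have : (u - w) * (a * (u + w) + b) = 0 := by linear_combination h1 - h3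
    rcases mul_eq_zero.1 this with h | h
    · exact absurd (sub_eq_zero.1 h) huw
    · exact h
  have e3 : a = 0 := by
    have : (v - w) * a = 0 := by linear_combination e1 - e2
    rcases mul_eq_zero.1 this with h | h
    · exact absurd (sub_eq_zero.1 h) hvw
    · exact h
  subst e3
  refine ⟨rfl, by linarith, ?_⟩
  have : b = 0 := by linarith
  subst this
  linarith

/-- Three points determine the hyperbola. -/
lemma unique_hyp {X Y : Finset ℝ} {h h' : ℝ × ℝ × ℝ} (hp : h.2.2 ≠ 0) {z₁ z₂ z₃ : ℝ × ℝ}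
    (h1 : z₁ ∈ pts X Y h) (h2 : z₂ ∈ pts X Y h) (h3 : z₃ ∈ pts X Y h)
    (h1' : z₁ ∈ pts X Y h') (h2' : z₂ ∈ pts X Y h') (h3' : z₃ ∈ pts X Y h')
    (h12 : z₁ ≠ z₂) (h13 : z₁ ≠ z₃) (h23 : z₂ ≠ z₃) : h = h' := by
  obtain ⟨a, b, p⟩ := h
  obtain ⟨a', b', p'⟩ := h'
  have k12 : z₁.1 - a ≠ z₂.1 - a := fun h0 => h12 (eq_of_fst hp h1 h2 (by linarith))
  have k13 : z₁.1 - a ≠ z₃.1 - a := fun h0 => h13 (eq_of_fst hp h1 h3 (by linarith))
  have k23 : z₂.1 - a ≠ z₃.1 - a := fun h0 => h23 (eq_of_fst hp h2 h3 (by linarith))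
  have e1 := (mem_pts.1 h1).2.2
  have e2 := (mem_pts.1 h2).2.2
  have e3 := (mem_pts.1 h3).2.2
  have e1' := (mem_pts.1 h1').2.2
  have e2' := (mem_pts.1 h2').2.2
  have e3' := (mem_pts.1 h3').2.2
  simp only at e1 e2 e3 e1' e2' e3' hp
  -- on the first hyperbola, `(b - b') u ^ 2 + c u + (a - a') p = 0` for `u = x - a`
  have key : ∀ x y : ℝ, (x - a) * (y - b) = p → (x - a') * (y - b') = p' →
      (b - b') * (x - a) ^ 2 + (p - p' + (a - a') * (b - b')) * (x - a) + (a - a') * p = 0 := by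
    intro x y hx hx'
    linear_combination (x - a) * hx' - (x - a') * hx
  obtain ⟨q1, q2, q3⟩ := quad_zero (key _ _ e1 e1') (key _ _ e2 e2') (key _ _ e3 e3') k12 k13 k23
  have q4 : a - a' = 0 := by
    rcases mul_eq_zero.1 q3 with h | h
    · exact h
    · exact absurd h hp
  rw [q4, zero_mul, add_zero] at q2
  have e4 : a = a' := by linarith
  have e5 : b = b' := by linarith
  have e6 : p = p' := by linarith
  rw [e4, e5, e6]

/-- The number of elements of `X` below `x`. -/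
noncomputable def cnt (X : Finset ℝ) (x : ℝ) : ℕ := (X.filter (fun y => y < x)).card

lemma cnt_mono (X : Finset ℝ) {x y : ℝ} (h : x ≤ y) : cnt X x ≤ cnt X y := by
  unfold cnt
  refine Finset.card_le_card ?_
  intro z hz
  rw [Finset.mem_filter] at hz ⊢
  exact ⟨hz.1, lt_of_lt_of_le hz.2 h⟩

lemma cnt_lt {X : Finset ℝ} {x y : ℝ} (hx : x ∈ X) (h : x < y) : cnt X x < cnt X y := by
  unfold cnt
  refine Finset.card_lt_card ?_
  rw [Finset.ssubset_iff_of_subset]
  · refine ⟨x, Finset.mem_filter.2 ⟨hx, h⟩, ?_⟩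
    intro h1
    exact lt_irrefl _ (Finset.mem_filter.1 h1).2
  · intro z hz
    rw [Finset.mem_filter] at hz ⊢
    exact ⟨hz.1, lt_trans hz.2 h⟩

lemma cnt_lt_card {X : Finset ℝ} {x : ℝ} (hx : x ∈ X) : cnt X x < X.card := by
  unfold cnt
  refine Finset.card_lt_card ?_
  rw [Finset.ssubset_iff_of_subset (Finset.filter_subset _ _)]
  refine ⟨x, hx, ?_⟩
  intro h1
  exact lt_irrefl _ (Finset.mem_filter.1 h1).2

lemma block_card (X : Finset ℝ) {q : ℕ} (hq : 0 < q) (i : ℕ) :
    (X.filter (fun x => cnt X x / q = i)).card ≤ q := by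
  have h1 : (X.filter (fun x => cnt X x / q = i)).card ≤ (Finset.Ico (i * q) ((i + 1) * q)).card := by
    refine Finset.card_le_card_of_injOn (cnt X) ?_ ?_
    · intro x hx
      have hx2 := (Finset.mem_filter.1 (Finset.mem_coe.1 hx)).2
      refine Finset.mem_coe.2 (Finset.mem_Ico.2 ⟨?_, ?_⟩)
      · rw [← hx2]
        exact Nat.div_mul_le_self _ _
      · rw [← hx2]
        have := Nat.lt_div_mul_add (a := cnt X x) hq
        rw [add_mul, one_mul]
        exact this
    · intro x hx y hy hxy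
      have hx1 := (Finset.mem_filter.1 (Finset.mem_coe.1 hx)).1
      have hy1 := (Finset.mem_filter.1 (Finset.mem_coe.1 hy)).1
      rcases lt_trichotomy x y with h | h | h
      · exact absurd hxy (cnt_lt hx1 h).ne
      · exact h
      · exact absurd hxy.symm (cnt_lt hy1 h).ne
  refine h1.trans ?_
  rw [Nat.card_Ico, add_mul, one_mul, Nat.add_sub_cancel_left]

/-- The number of elements is bounded by the number of classes and of triples in a class. -/
lemma card_le_trip {α ι : Type*} [DecidableEq α] [DecidableEq ι] (S : Finset α) (g : α → ι) :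
    S.card ≤ 2 * (S.image g).card + ((S ×ˢ (S ×ˢ S)).filter (fun t => g t.1 = g t.2.1 ∧
      g t.1 = g t.2.2 ∧ t.1 ≠ t.2.1 ∧ t.1 ≠ t.2.2 ∧ t.2.1 ≠ t.2.2)).card := by
  set T := (S ×ˢ (S ×ˢ S)).filter (fun t => g t.1 = g t.2.1 ∧
      g t.1 = g t.2.2 ∧ t.1 ≠ t.2.1 ∧ t.1 ≠ t.2.2 ∧ t.2.1 ≠ t.2.2) with hT
  have h1 : S.card = ∑ i ∈ S.image g, (S.filter (fun x => g x = i)).card :=
    Finset.card_eq_sum_card_image g S
  have h2 : T.card = ∑ i ∈ S.image g, (T.filter (fun t => g t.1 = i)).card := by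
    refine Finset.card_eq_sum_card_fiberwise (f := fun t : α × α × α => g t.1) ?_
    intro t ht
    have := (Finset.mem_product.1 (Finset.mem_filter.1 (Finset.mem_coe.1 ht)).1).1
    exact Finset.mem_coe.2 (Finset.mem_image_of_mem g this)
  have h3 : 2 * (S.image g).card = ∑ i ∈ S.image g, 2 := by
    rw [Finset.sum_const, smul_eq_mul, mul_comm]
  rw [h1, h2, h3, ← Finset.sum_add_distrib]
  refine Finset.sum_le_sum fun i _ => ?_
  set F := S.filter (fun x => g x = i) with hF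
  rcases le_or_gt F.card 2 with h4 | h4
  · omega
  · obtain ⟨a, ha, b, hb, c, hc, hab, hac, hbc⟩ := Finset.two_lt_card.1 h4
    have h5 : ((F.erase a).erase b).card = F.card - 2 := by
      rw [Finset.card_erase_of_mem (Finset.mem_erase.2 ⟨hab.symm, hb⟩),
        Finset.card_erase_of_mem ha]
      omega
    have h6 : ((F.erase a).erase b).card ≤ (T.filter (fun t => g t.1 = i)).card := by
      refine Finset.card_le_card_of_injOn (fun w => (a, b, w)) ?_ ?_
      · intro w hw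
        have hw1 := Finset.mem_erase.1 (Finset.mem_coe.1 hw)
        have hw2 := Finset.mem_erase.1 hw1.2
        obtain ⟨ha1, ha2⟩ := Finset.mem_filter.1 ha
        obtain ⟨hb1, hb2⟩ := Finset.mem_filter.1 hb
        obtain ⟨hw3, hw4⟩ := Finset.mem_filter.1 hw2.2
        refine Finset.mem_coe.2 (Finset.mem_filter.2 ⟨Finset.mem_filter.2 ⟨?_, ?_⟩, ha2⟩)
        · exact Finset.mem_product.2 ⟨ha1, Finset.mem_product.2 ⟨hb1, hw3⟩⟩
        · exact ⟨by rw [ha2, hb2], by rw [ha2, hw4], hab, hw2.1.symm, hw1.1.symm⟩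
      · intro w _ w' _ h7
        simp only [Prod.mk.injEq, true_and] at h7
        exact h7
    omega

/-- The index of the cell of a point. -/
noncomputable def cell (X Y : Finset ℝ) (q₁ q₂ : ℕ) (z : ℝ × ℝ) : ℕ × ℕ :=
  (cnt X z.1 / q₁, cnt Y z.2 / q₂)

/-- Triples of distinct points of the hyperbola in one cell. -/
noncomputable def trip (X Y : Finset ℝ) (q₁ q₂ : ℕ) (h : ℝ × ℝ × ℝ) :
    Finset ((ℝ × ℝ) × (ℝ × ℝ) × (ℝ × ℝ)) :=
  ((pts X Y h) ×ˢ ((pts X Y h) ×ˢ (pts X Y h))).filter (fun t =>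
    cell X Y q₁ q₂ t.1 = cell X Y q₁ q₂ t.2.1 ∧ cell X Y q₁ q₂ t.1 = cell X Y q₁ q₂ t.2.2 ∧
    t.1 ≠ t.2.1 ∧ t.1 ≠ t.2.2 ∧ t.2.1 ≠ t.2.2)

/-- A hyperbola with increasing branches meets few cells. -/
lemma card_pts_le {X Y : Finset ℝ} {q₁ q₂ r₁ r₂ : ℕ} (hq₁ : 0 < q₁) (hq₂ : 0 < q₂)
    (hX : X.card ≤ r₁ * q₁) (hY : Y.card ≤ r₂ * q₂) {h : ℝ × ℝ × ℝ} (hp : h.2.2 < 0) :
    (pts X Y h).card ≤ 4 * (r₁ + r₂) + (trip X Y q₁ q₂ h).card := by
  classical
  set S := pts X Y h with hS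
  set g : ℝ × ℝ → Bool × (ℕ × ℕ) := fun z => (decide (h.1 < z.1), cell X Y q₁ q₂ z) with hg
  have h1 := card_le_trip S g
  have h2 : ((S ×ˢ (S ×ˢ S)).filter (fun t => g t.1 = g t.2.1 ∧
      g t.1 = g t.2.2 ∧ t.1 ≠ t.2.1 ∧ t.1 ≠ t.2.2 ∧ t.2.1 ≠ t.2.2)).card ≤
      (trip X Y q₁ q₂ h).card := by
    refine Finset.card_le_card ?_
    intro t ht
    obtain ⟨k1, k2, k3, k4⟩ := Finset.mem_filter.1 ht
    have k2' := congrArg Prod.snd k2
    have k3' := congrArg Prod.snd k3
    exact Finset.mem_filter.2 ⟨k1, k2', k3', k4⟩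
  have h3 : (S.image g).card ≤ 2 * (r₁ + r₂) := by
    have h4 : (S.image g).card ≤
        ((Finset.univ : Finset Bool) ×ˢ (Finset.range (r₁ + r₂))).card := by
      refine Finset.card_le_card_of_injOn (fun c => (c.1, c.2.1 + c.2.2)) ?_ ?_
      · intro c hc
        obtain ⟨z, hz, rfl⟩ := Finset.mem_image.1 (Finset.mem_coe.1 hc)
        refine Finset.mem_coe.2 (Finset.mem_product.2 ⟨Finset.mem_univ _, ?_⟩)
        rw [Finset.mem_range]
        have hz1 := cnt_lt_card (mem_pts.1 hz).1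
        have hz2 := cnt_lt_card (mem_pts.1 hz).2.1
        have e1 : cnt X z.1 / q₁ < r₁ := (Nat.div_lt_iff_lt_mul hq₁).2 (by omega)
        have e2 : cnt Y z.2 / q₂ < r₂ := (Nat.div_lt_iff_lt_mul hq₂).2 (by omega)
        show cnt X z.1 / q₁ + cnt Y z.2 / q₂ < r₁ + r₂
        omega
      · intro c hc c' hc' hcc
        obtain ⟨z, hz, rfl⟩ := Finset.mem_image.1 (Finset.mem_coe.1 hc)
        obtain ⟨z', hz', rfl⟩ := Finset.mem_image.1 (Finset.mem_coe.1 hc')
        simp only [hg, cell, Prod.mk.injEq, decide_eq_decide] at hcc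
        obtain ⟨hb, hsum⟩ := hcc
        have key : ∀ z z' : ℝ × ℝ, z ∈ S → z' ∈ S → (h.1 < z.1 ↔ h.1 < z'.1) → z.1 < z'.1 →
            z.2 ≤ z'.2 := by
          intro z z' hz hz' hb hlt
          have e1 := (mem_pts.1 hz).2.2
          have e2 := (mem_pts.1 hz').2.2
          have n1 := (ne_of_mem hp.ne hz).1
          have n2 := (ne_of_mem hp.ne hz').1
          by_contra hcon
          push Not at hcon
          rcases lt_or_ge h.1 z.1 with h5 | h5
          · have h6 := hb.1 h5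
            have h7 : 0 < z.1 - h.1 := by linarith
            have h8 : 0 < z'.1 - h.1 := by linarith
            have h9 : z.2 - h.2.1 < 0 := by
              by_contra h10
              push Not at h10
              have := mul_nonneg h7.le h10
              linarith
            nlinarith
          · have h6 : ¬ h.1 < z'.1 := fun h10 => absurd (hb.2 h10) (not_lt.2 h5)
            push Not at h6
            have h7 : z.1 - h.1 < 0 := lt_of_le_of_ne (by linarith) n1
            have h8 : z'.1 - h.1 < 0 := lt_of_le_of_ne (by linarith) n2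
            have h9 : 0 < z'.2 - h.2.1 := by
              by_contra h10
              push Not at h10
              have := mul_nonneg_of_nonpos_of_nonpos h8.le h10
              linarith
            nlinarith
        have heq : cnt X z.1 / q₁ = cnt X z'.1 / q₁ ∧ cnt Y z.2 / q₂ = cnt Y z'.2 / q₂ := by
          rcases lt_trichotomy z.1 z'.1 with h5 | h5 | h5
          · have h6 := key z z' hz hz' hb h5
            have h7 := Nat.div_le_div_right (c := q₁) (cnt_mono X h5.le)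
            have h8 := Nat.div_le_div_right (c := q₂) (cnt_mono Y h6)
            omega
          · have h6 := eq_of_fst hp.ne hz hz' h5
            rw [h6]
            exact ⟨rfl, rfl⟩
          · have h6 := key z' z hz' hz hb.symm h5
            have h7 := Nat.div_le_div_right (c := q₁) (cnt_mono X h5.le)
            have h8 := Nat.div_le_div_right (c := q₂) (cnt_mono Y h6)
            omega
        simp only [hg, cell, Prod.mk.injEq, decide_eq_decide]
        exact ⟨hb, heq⟩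
    refine h4.trans ?_
    rw [Finset.card_product, Finset.card_range, Finset.card_univ, Fintype.card_bool]
  omega

/-- Triples of grid points in one cell. -/
noncomputable def boxTrip (X Y : Finset ℝ) (q₁ q₂ : ℕ) :
    Finset ((ℝ × ℝ) × (ℝ × ℝ) × (ℝ × ℝ)) :=
  ((X ×ˢ Y) ×ˢ ((X ×ˢ Y) ×ˢ (X ×ˢ Y))).filter (fun t =>
    cell X Y q₁ q₂ t.1 = cell X Y q₁ q₂ t.2.1 ∧ cell X Y q₁ q₂ t.1 = cell X Y q₁ q₂ t.2.2)

lemma card_boxTrip (X Y : Finset ℝ) {q₁ q₂ : ℕ} (hq₁ : 0 < q₁) (hq₂ : 0 < q₂) :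
    (boxTrip X Y q₁ q₂).card ≤ (X.card * Y.card) * ((q₁ * q₂) * (q₁ * q₂)) := by
  classical
  have h1 : (boxTrip X Y q₁ q₂).card =
      ∑ z ∈ X ×ˢ Y, ((boxTrip X Y q₁ q₂).filter (fun t => t.1 = z)).card := by
    refine Finset.card_eq_sum_card_fiberwise
      (f := fun t : (ℝ × ℝ) × (ℝ × ℝ) × (ℝ × ℝ) => t.1) ?_
    intro t ht
    exact Finset.mem_coe.2
      (Finset.mem_product.1 (Finset.mem_filter.1 (Finset.mem_coe.1 ht)).1).1
  rw [h1]
  calc _ ≤ ∑ z ∈ X ×ˢ Y, (q₁ * q₂) * (q₁ * q₂) := by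
        refine Finset.sum_le_sum fun z _ => ?_
        set Cz := (X.filter (fun x => cnt X x / q₁ = cnt X z.1 / q₁)) ×ˢ
          (Y.filter (fun y => cnt Y y / q₂ = cnt Y z.2 / q₂)) with hCz
        have h2 : Cz.card ≤ q₁ * q₂ := by
          rw [hCz, Finset.card_product]
          exact Nat.mul_le_mul (block_card X hq₁ _) (block_card Y hq₂ _)
        have h3 : ((boxTrip X Y q₁ q₂).filter (fun t => t.1 = z)).card ≤ (Cz ×ˢ Cz).card := by
          refine Finset.card_le_card_of_injOn (fun t => t.2) ?_ ?_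
          · intro t ht
            obtain ⟨k1, k2⟩ := Finset.mem_filter.1 (Finset.mem_coe.1 ht)
            obtain ⟨k3, k4, k5⟩ := Finset.mem_filter.1 k1
            obtain ⟨-, k6⟩ := Finset.mem_product.1 k3
            obtain ⟨k7, k8⟩ := Finset.mem_product.1 k6
            rw [k2] at k4 k5
            simp only [cell, Prod.mk.injEq] at k4 k5
            obtain ⟨m1, m2⟩ := Finset.mem_product.1 k7
            obtain ⟨m3, m4⟩ := Finset.mem_product.1 k8
            exact Finset.mem_coe.2 (Finset.mem_product.2 ⟨Finset.mem_product.2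
              ⟨Finset.mem_filter.2 ⟨m1, k4.1.symm⟩, Finset.mem_filter.2 ⟨m2, k4.2.symm⟩⟩,
              Finset.mem_product.2
              ⟨Finset.mem_filter.2 ⟨m3, k5.1.symm⟩, Finset.mem_filter.2 ⟨m4, k5.2.symm⟩⟩⟩)
          · intro t ht t' ht' h4
            have k2 := (Finset.mem_filter.1 (Finset.mem_coe.1 ht)).2
            have k2' := (Finset.mem_filter.1 (Finset.mem_coe.1 ht')).2
            exact Prod.ext (by rw [k2, k2']) h4
        refine h3.trans ?_
        rw [Finset.card_product]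
        exact Nat.mul_le_mul h2 h2
    _ = _ := by rw [Finset.sum_const, Finset.card_product, smul_eq_mul]

/-- The number of rich hyperbolas with increasing branches. -/
theorem rich_neg (X Y : Finset ℝ) (H : Finset (ℝ × ℝ × ℝ)) {k : ℕ} (hk : 16 ≤ k)
    (hH : ∀ h ∈ H, h.2.2 < 0 ∧ k ≤ (pts X Y h).card) :
    H.card * k ^ 5 ≤ 2 ^ 25 * (X.card * Y.card) ^ 3 := by
  classical
  rcases H.eq_empty_or_nonempty with h0 | ⟨h₀, h0⟩
  · subst h0
    simp
  set a := X.card with ha
  set b := Y.card with hb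
  have hka : k ≤ a := (hH h₀ h0).2.trans (card_pts_le_fst (hH h₀ h0).1.ne)
  have hkb : k ≤ b := (hH h₀ h0).2.trans (card_pts_le_snd (hH h₀ h0).1.ne)
  set r := k / 16 with hr
  have hr1 : 1 ≤ r := by omega
  have hrk : 16 * r ≤ k := by omega
  have hkr : k ≤ 32 * r := by omega
  set q₁ := a / r + 1 with hq₁
  set q₂ := b / r + 1 with hq₂
  have ha1 : a ≤ r * q₁ := (Nat.lt_mul_div_succ a hr1).le
  have hb1 : b ≤ r * q₂ := (Nat.lt_mul_div_succ b hr1).le
  have ha2 : q₁ * r ≤ 2 * a := by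
    have := Nat.div_mul_le_self a r
    rw [hq₁, add_mul, one_mul]
    omega
  have hb2 : q₂ * r ≤ 2 * b := by
    have := Nat.div_mul_le_self b r
    rw [hq₂, add_mul, one_mul]
    omega
  have h1 : ∑ h ∈ H, (trip X Y q₁ q₂ h).card ≤ (boxTrip X Y q₁ q₂).card := by
    rw [← Finset.card_biUnion]
    · refine Finset.card_le_card ?_
      intro t ht
      obtain ⟨h, hh, ht2⟩ := Finset.mem_biUnion.1 ht
      obtain ⟨k1, k2, k3, -⟩ := Finset.mem_filter.1 ht2
      obtain ⟨k4, k5⟩ := Finset.mem_product.1 k1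
      obtain ⟨k6, k7⟩ := Finset.mem_product.1 k5
      have m4 := mem_pts.1 k4
      have m6 := mem_pts.1 k6
      have m7 := mem_pts.1 k7
      refine Finset.mem_filter.2 ⟨Finset.mem_product.2 ⟨Finset.mem_product.2 ⟨m4.1, m4.2.1⟩,
        Finset.mem_product.2 ⟨Finset.mem_product.2 ⟨m6.1, m6.2.1⟩,
          Finset.mem_product.2 ⟨m7.1, m7.2.1⟩⟩⟩, k2, k3⟩
    · intro h hh h' hh' hne
      rw [Function.onFun, Finset.disjoint_left]
      intro t ht ht'
      obtain ⟨k1, k2, k3, n1, n2, n3⟩ := Finset.mem_filter.1 ht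
      obtain ⟨k4, k5⟩ := Finset.mem_product.1 k1
      obtain ⟨k6, k7⟩ := Finset.mem_product.1 k5
      obtain ⟨k1', -⟩ := Finset.mem_filter.1 ht'
      obtain ⟨k4', k5'⟩ := Finset.mem_product.1 k1'
      obtain ⟨k6', k7'⟩ := Finset.mem_product.1 k5'
      exact hne (unique_hyp (hH h hh).1.ne k4 k6 k7 k4' k6' k7' n1 n2 n3)
  have h2 : H.card * k ≤ H.card * (8 * r) + (a * b) * ((q₁ * q₂) * (q₁ * q₂)) := by
    calc H.card * k = ∑ h ∈ H, k := by rw [Finset.sum_const, smul_eq_mul]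
      _ ≤ ∑ h ∈ H, (8 * r + (trip X Y q₁ q₂ h).card) := by
          refine Finset.sum_le_sum fun h hh => ?_
          have h3 := card_pts_le (q₁ := q₁) (q₂ := q₂) (r₁ := r) (r₂ := r)
            (Nat.succ_pos _) (Nat.succ_pos _) ha1 hb1 (hH h hh).1
          have h4 := (hH h hh).2
          omega
      _ = H.card * (8 * r) + ∑ h ∈ H, (trip X Y q₁ q₂ h).card := by
          rw [Finset.sum_add_distrib, Finset.sum_const, smul_eq_mul]
      _ ≤ _ := Nat.add_le_add_left
          (h1.trans (card_boxTrip X Y (Nat.succ_pos _) (Nat.succ_pos _))) _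
  have h3 : H.card * k ≤ 2 * ((a * b) * ((q₁ * q₂) * (q₁ * q₂))) := by
    have h4 : H.card * (8 * r) * 2 ≤ H.card * k := by
      calc H.card * (8 * r) * 2 = H.card * (16 * r) := by ring
        _ ≤ _ := Nat.mul_le_mul_left _ hrk
    omega
  calc H.card * k ^ 5 = (H.card * k) * k ^ 4 := by ring
    _ ≤ (H.card * k) * (32 * r) ^ 4 := Nat.mul_le_mul_left _ (Nat.pow_le_pow_left hkr 4)
    _ ≤ (2 * ((a * b) * ((q₁ * q₂) * (q₁ * q₂)))) * (32 * r) ^ 4 := Nat.mul_le_mul_right _ h3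
    _ = 2 ^ 21 * (a * b) * ((q₁ * r) ^ 2 * (q₂ * r) ^ 2) := by ring
    _ ≤ 2 ^ 21 * (a * b) * ((2 * a) ^ 2 * (2 * b) ^ 2) :=
        Nat.mul_le_mul_left _ (Nat.mul_le_mul (Nat.pow_le_pow_left ha2 2)
          (Nat.pow_le_pow_left hb2 2))
    _ = _ := by ring

lemma card_pts_neg (X Y : Finset ℝ) (h : ℝ × ℝ × ℝ) :
    (pts X (Y.image (fun y => -y)) (h.1, -h.2.1, -h.2.2)).card = (pts X Y h).card := by
  classical
  have h1 : pts X (Y.image (fun y => -y)) (h.1, -h.2.1, -h.2.2) =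
      (pts X Y h).image (fun z => (z.1, -z.2)) := by
    ext z
    constructor
    · intro hz
      obtain ⟨k1, k2, k3⟩ := mem_pts.1 hz
      obtain ⟨y, hy, hyz⟩ := Finset.mem_image.1 k2
      refine Finset.mem_image.2 ⟨(z.1, y), mem_pts.2 ⟨k1, hy, ?_⟩, ?_⟩
      · simp only at k3 ⊢
        rw [← hyz] at k3
        linear_combination -k3
      · exact Prod.ext rfl hyz
    · intro hz
      obtain ⟨w, hw, rfl⟩ := Finset.mem_image.1 hz
      obtain ⟨k1, k2, k3⟩ := mem_pts.1 hw
      refine mem_pts.2 ⟨k1, Finset.mem_image_of_mem _ k2, ?_⟩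
      simp only
      linear_combination -k3
  rw [h1, Finset.card_image_of_injOn]
  intro z _ w _ hzw
  simp only [Prod.mk.injEq, neg_inj] at hzw
  exact Prod.ext hzw.1 hzw.2

/-- The number of rich hyperbolas. -/
theorem rich (X Y : Finset ℝ) (H : Finset (ℝ × ℝ × ℝ)) {k : ℕ} (hk : 16 ≤ k)
    (hH : ∀ h ∈ H, h.2.2 ≠ 0 ∧ k ≤ (pts X Y h).card) :
    H.card * k ^ 5 ≤ 2 ^ 26 * (X.card * Y.card) ^ 3 := by
  classical
  set H₁ := H.filter (fun h => h.2.2 < 0) with hH₁
  set H₂ := H.filter (fun h => ¬ h.2.2 < 0) with hH₂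
  have h1 : H.card = H₁.card + H₂.card := (Finset.card_filter_add_card_filter_not _).symm
  have h2 : H₁.card * k ^ 5 ≤ 2 ^ 25 * (X.card * Y.card) ^ 3 := by
    refine rich_neg X Y H₁ hk ?_
    intro h hh
    obtain ⟨k1, k2⟩ := Finset.mem_filter.1 hh
    exact ⟨k2, (hH h k1).2⟩
  have h3 : H₂.card * k ^ 5 ≤ 2 ^ 25 * (X.card * Y.card) ^ 3 := by
    set n : ℝ × ℝ × ℝ → ℝ × ℝ × ℝ := fun h => (h.1, -h.2.1, -h.2.2) with hn
    have hinj : Function.Injective n := by
      intro h h' hhh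
      simp only [hn, Prod.mk.injEq, neg_inj] at hhh
      exact Prod.ext hhh.1 (Prod.ext hhh.2.1 hhh.2.2)
    have h4 : H₂.card = (H₂.image n).card := (Finset.card_image_of_injective _ hinj).symm
    have h5 : Y.card = (Y.image (fun y => -y)).card :=
      (Finset.card_image_of_injective _ neg_injective).symm
    rw [h4, h5]
    refine rich_neg X (Y.image (fun y => -y)) (H₂.image n) hk ?_
    intro h hh
    obtain ⟨g, hg, rfl⟩ := Finset.mem_image.1 hh
    obtain ⟨k1, k2⟩ := Finset.mem_filter.1 hg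
    refine ⟨?_, ?_⟩
    · have k3 := (hH g k1).1
      have k4 : 0 < g.2.2 := lt_of_le_of_ne (not_lt.1 k2) k3.symm
      show -g.2.2 < 0
      linarith
    · rw [hn]
      simp only
      rw [card_pts_neg]
      exact (hH g k1).2
  rw [h1, add_mul]
  omega

/-- The second moment over the rich hyperbolas. -/
theorem second_moment (X Y : Finset ℝ) (H : Finset (ℝ × ℝ × ℝ)) {k : ℕ} (hk : 16 ≤ k)
    (hH : ∀ h ∈ H, h.2.2 ≠ 0 ∧ k ≤ (pts X Y h).card) :
    (∑ h ∈ H, ((pts X Y h).card : ℝ) ^ 2) * (k : ℝ) ^ 3 ≤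
      2 ^ 30 * ((X.card : ℝ) * Y.card) ^ 3 := by
  classical
  have hk0 : 0 < k := by omega
  have hkr : (0 : ℝ) < k := by exact_mod_cast hk0
  set M := X.card + 1 with hM
  set m : ℝ := ((X.card : ℝ) * Y.card) ^ 3 with hm
  have hm0 : 0 ≤ m := by positivity
  -- the dyadic pieces
  have h1 : ∀ i : ℕ, ((H.filter (fun h => 2 ^ i * k ≤ (pts X Y h).card)).card : ℝ) *
      ((2 : ℝ) ^ i * k) ^ 5 ≤ 2 ^ 26 * m := by
    intro i
    have h2 := rich X Y (H.filter (fun h => 2 ^ i * k ≤ (pts X Y h).card)) (k := 2 ^ i * k)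
      (by
        have : 1 ≤ 2 ^ i := Nat.one_le_two_pow
        nlinarith)
      (by
        intro h hh
        obtain ⟨k1, k2⟩ := Finset.mem_filter.1 hh
        exact ⟨(hH h k1).1, k2⟩)
    have h3 : (((H.filter (fun h => 2 ^ i * k ≤ (pts X Y h).card)).card * (2 ^ i * k) ^ 5 : ℕ) : ℝ)
        ≤ ((2 ^ 26 * (X.card * Y.card) ^ 3 : ℕ) : ℝ) := by exact_mod_cast h2
    have h4 : ((2 ^ 26 * (X.card * Y.card) ^ 3 : ℕ) : ℝ) = 2 ^ 26 * m := by
      rw [hm]
      push_cast
      ring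
    have h5 : (((H.filter (fun h => 2 ^ i * k ≤ (pts X Y h).card)).card *
        (2 ^ i * k) ^ 5 : ℕ) : ℝ) =
        ((H.filter (fun h => 2 ^ i * k ≤ (pts X Y h).card)).card : ℝ) *
          ((2 : ℝ) ^ i * k) ^ 5 := by
      push_cast
      ring
    rw [← h4, ← h5]
    exact h3
  have h4 : ∀ h ∈ H, ((pts X Y h).card : ℝ) ^ 2 ≤
      ∑ i ∈ Finset.range M, if 2 ^ i * k ≤ (pts X Y h).card then (4 : ℝ) ^ (i + 1) * k ^ 2 else 0 := by
    intro h hh
    obtain ⟨hp, hkh⟩ := hH h hh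
    set c := (pts X Y h).card with hc
    set i := Nat.log 2 (c / k) with hi
    have hck : 1 ≤ c / k := (Nat.one_le_div_iff hk0).2 hkh
    have h5 : 2 ^ i ≤ c / k := Nat.pow_log_le_self 2 (by omega)
    have h6 : c / k < 2 ^ (i + 1) := Nat.lt_pow_succ_log_self (by norm_num) _
    have h7 : 2 ^ i * k ≤ c := by
      calc 2 ^ i * k ≤ c / k * k := Nat.mul_le_mul_right _ h5
        _ ≤ c := Nat.div_mul_le_self _ _
    have h8 : c < 2 ^ (i + 1) * k := (Nat.div_lt_iff_lt_mul hk0).1 h6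
    have h9 : i ∈ Finset.range M := by
      rw [Finset.mem_range]
      have h10 : i < 2 ^ i := Nat.lt_two_pow_self
      have h11 : 2 ^ i ≤ c := le_trans (Nat.le_mul_of_pos_right _ hk0) h7
      have h12 : c ≤ X.card := card_pts_le_fst hp
      omega
    have h13 : (c : ℝ) ≤ 2 ^ (i + 1) * k := by exact_mod_cast h8.le
    calc (c : ℝ) ^ 2 ≤ ((2 : ℝ) ^ (i + 1) * k) ^ 2 :=
          pow_le_pow_left₀ (Nat.cast_nonneg _) h13 2
      _ = (4 : ℝ) ^ (i + 1) * k ^ 2 := by
          rw [mul_pow, ← pow_mul, mul_comm (i + 1) 2, pow_mul]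
          norm_num
      _ = (if 2 ^ i * k ≤ c then (4 : ℝ) ^ (i + 1) * k ^ 2 else 0) := by rw [if_pos h7]
      _ ≤ _ := Finset.single_le_sum
          (f := fun i => if 2 ^ i * k ≤ c then (4 : ℝ) ^ (i + 1) * (k : ℝ) ^ 2 else 0)
          (fun j _ => by
            show 0 ≤ (if 2 ^ j * k ≤ c then (4 : ℝ) ^ (j + 1) * (k : ℝ) ^ 2 else 0)
            split_ifs
            · positivity
            · exact le_rfl) h9
  have h5 : (∑ h ∈ H, ((pts X Y h).card : ℝ) ^ 2) * (k : ℝ) ^ 3 ≤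
      ∑ i ∈ Finset.range M, 2 ^ 28 * m * (1 / 8 : ℝ) ^ i := by
    calc _ ≤ (∑ h ∈ H, ∑ i ∈ Finset.range M,
          if 2 ^ i * k ≤ (pts X Y h).card then (4 : ℝ) ^ (i + 1) * k ^ 2 else 0) * (k : ℝ) ^ 3 :=
          mul_le_mul_of_nonneg_right (Finset.sum_le_sum h4) (by positivity)
      _ = ∑ i ∈ Finset.range M, (4 : ℝ) ^ (i + 1) * k ^ 5 *
          ((H.filter (fun h => 2 ^ i * k ≤ (pts X Y h).card)).card : ℝ) := by
          rw [Finset.sum_comm, Finset.sum_mul]
          refine Finset.sum_congr rfl fun i _ => ?_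
          rw [← Finset.sum_filter, Finset.sum_const, nsmul_eq_mul]
          ring
      _ ≤ _ := by
          refine Finset.sum_le_sum fun i _ => ?_
          have h6 := h1 i
          have h7 : ((2 : ℝ) ^ i * k) ^ 5 = (32 : ℝ) ^ i * k ^ 5 := by
            rw [mul_pow, ← pow_mul, mul_comm i 5, pow_mul]
            norm_num
          rw [h7] at h6
          have h8 : (0 : ℝ) < 8 ^ i := by positivity
          have h9 : (32 : ℝ) ^ i = 4 ^ i * 8 ^ i := by
            rw [← mul_pow]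
            norm_num
          rw [h9] at h6
          have h10 : (1 / 8 : ℝ) ^ i = 1 / 8 ^ i := by rw [div_pow, one_pow]
          rw [h10, mul_one_div, le_div_iff₀ h8]
          calc _ = 4 * (((H.filter (fun h => 2 ^ i * k ≤ (pts X Y h).card)).card : ℝ) *
                (4 ^ i * 8 ^ i * k ^ 5)) := by ring
            _ ≤ 4 * (2 ^ 26 * m) := by linarith
            _ = _ := by ring
  have h6 : ∑ i ∈ Finset.range M, (1 / 8 : ℝ) ^ i ≤ 2 := by
    have h7 := geom_sum_eq (x := (1 / 8 : ℝ)) (by norm_num) M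
    rw [h7]
    have h8 : (0 : ℝ) < (1 / 8) ^ M := by positivity
    rw [div_le_iff_of_neg (by norm_num)]
    linarith
  refine h5.trans ?_
  rw [← Finset.mul_sum]
  calc 2 ^ 28 * m * ∑ i ∈ Finset.range M, (1 / 8 : ℝ) ^ i ≤ 2 ^ 28 * m * 2 :=
        mul_le_mul_of_nonneg_left h6 (by positivity)
    _ ≤ _ := by linarith

end Pool.Agent.MP_d807e3_co.Rich
end

section

/-!
Incidences between a grid with additive structure and hyperbolas: amplification by translations.
-/

namespace Pool.Agent.MP_d807e3_co.Comb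

open Finset
open scoped Pointwise
open Pool.Agent.MP_d807e3_co.Rich

/-- The hyperbola of a pair. -/
noncomputable def hyp (l e : ℝ) (v : ℝ × ℝ) : ℝ × ℝ × ℝ :=
  (l * (v.1 + v.2), l * (v.2 - v.1), e * ((v.1 + v.2) * (v.2 - v.1)))

/-- The translated hyperbola. -/
noncomputable def hypT (l e : ℝ) (w : (ℝ × ℝ) × (ℝ × ℝ)) : ℝ × ℝ × ℝ :=
  (l * (w.1.1 + w.1.2) + w.2.1, l * (w.1.2 - w.1.1) + w.2.2,
    e * ((w.1.1 + w.1.2) * (w.1.2 - w.1.1)))

lemma card_pts_hyp_le {S T S' T' : Finset ℝ} (hS : S + S ⊆ S') (hT : T + T ⊆ T') (l e : ℝ)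
    {v : ℝ × ℝ} {y z : ℝ} (hy : y ∈ S) (hz : z ∈ T) :
    (pts S T (hyp l e v)).card ≤ (pts S' T' (hypT l e (v, (y, z)))).card := by
  refine Finset.card_le_card_of_injOn (fun x => (x.1 + y, x.2 + z)) ?_ ?_
  · intro x hx
    obtain ⟨k1, k2, k3⟩ := mem_pts.1 (Finset.mem_coe.1 hx)
    refine Finset.mem_coe.2 (mem_pts.2 ⟨hS (Finset.add_mem_add k1 hy),
      hT (Finset.add_mem_add k2 hz), ?_⟩)
    simp only [hyp] at k3
    simp only [hypT]
    linear_combination k3
  · intro x _ x' _ h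
    simp only [Prod.mk.injEq, add_left_inj] at h
    exact Prod.ext h.1 h.2

/-- The amplified incidence bound. -/
theorem amplify {S T S' T' : Finset ℝ} (hS : S + S ⊆ S') (hT : T + T ⊆ T') {l e : ℝ}
    (hl : l ≠ 0) (he : e ≠ 0) (V : Finset (ℝ × ℝ))
    (hV : ∀ v ∈ V, v.1 + v.2 ≠ 0 ∧ v.2 - v.1 ≠ 0) {k : ℕ} (hk : 16 ≤ k) :
    (((∑ v ∈ V, (pts S T (hyp l e v)).card : ℕ) : ℝ) - k * V.card) *
      ((S.card : ℝ) * T.card) * (k : ℝ) ^ 3 ≤ 2 ^ 31 * ((S'.card : ℝ) * T'.card) ^ 3 := by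
  classical
  have hk0 : (0 : ℝ) < k := by
    have : 0 < k := by omega
    exact_mod_cast this
  rcases S.eq_empty_or_nonempty with h0 | hS0
  · subst h0
    simp only [Finset.card_empty, Nat.cast_zero, zero_mul, mul_zero]
    positivity
  rcases T.eq_empty_or_nonempty with h0 | hT0
  · subst h0
    simp only [Finset.card_empty, Nat.cast_zero, zero_mul, mul_zero]
    positivity
  have hSc : (S.card : ℝ) ≤ S'.card := by
    have h1 : S.card ≤ S'.card :=
      (Finset.card_le_card_add_left hS0).trans (Finset.card_le_card hS)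
    exact_mod_cast h1
  have hTc : (T.card : ℝ) ≤ T'.card := by
    have h1 : T.card ≤ T'.card :=
      (Finset.card_le_card_add_left hT0).trans (Finset.card_le_card hT)
    exact_mod_cast h1
  set Om := V ×ˢ (S ×ˢ T) with hOm
  set F := hypT l e with hF
  set c : ℝ × ℝ × ℝ → ℕ := fun h => (pts S' T' h).card with hc
  set Om₁ := Om.filter (fun w => k ≤ c (F w)) with hOm₁
  set Om₂ := Om.filter (fun w => ¬ k ≤ c (F w)) with hOm₂
  set H := Om₁.image F with hH
  set w : ℝ × ℝ × ℝ → ℕ := fun h => (Om₁.filter (fun x => F x = h)).card with hw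
  have hne : ∀ x ∈ Om, (F x).2.2 ≠ 0 := by
    intro x hx
    have h1 := hV x.1 (Finset.mem_product.1 hx).1
    exact mul_ne_zero he (mul_ne_zero h1.1 h1.2)
  -- the lower bound
  have hlow : (∑ v ∈ V, (pts S T (hyp l e v)).card) * (S.card * T.card) ≤
      ∑ x ∈ Om, c (F x) := by
    rw [hOm, Finset.sum_product, Finset.sum_mul]
    refine Finset.sum_le_sum fun v _ => ?_
    calc (pts S T (hyp l e v)).card * (S.card * T.card) =
        ∑ _x ∈ S ×ˢ T, (pts S T (hyp l e v)).card := by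
          rw [Finset.sum_const, Finset.card_product, smul_eq_mul, mul_comm]
      _ ≤ _ := by
          refine Finset.sum_le_sum fun x hx => ?_
          obtain ⟨h1, h2⟩ := Finset.mem_product.1 hx
          exact card_pts_hyp_le hS hT l e h1 h2
  -- the poor part
  have hpoor : ∑ x ∈ Om₂, c (F x) ≤ k * (V.card * (S.card * T.card)) := by
    calc ∑ x ∈ Om₂, c (F x) ≤ ∑ _x ∈ Om₂, k :=
          Finset.sum_le_sum fun x hx => (not_le.1 (Finset.mem_filter.1 hx).2).le
      _ = Om₂.card * k := by rw [Finset.sum_const, smul_eq_mul]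
      _ ≤ Om.card * k := Nat.mul_le_mul_right _ (Finset.card_filter_le _ _)
      _ = _ := by rw [hOm, Finset.card_product, Finset.card_product, mul_comm]
  -- the rich part
  have hrich : ((∑ x ∈ Om₁, c (F x) : ℕ) : ℝ) ≤ ∑ h ∈ H, ((c h : ℝ) ^ 2) +
      ∑ h ∈ H.filter (fun h => k ≤ w h), ((w h : ℝ) ^ 2) := by
    have h1 : ∑ x ∈ Om₁, c (F x) = ∑ h ∈ H, w h * c h := by
      have h2 : ∀ x ∈ Om₁, F x ∈ H := fun x hx => Finset.mem_image_of_mem F hx
      rw [← Finset.sum_fiberwise_of_maps_to h2]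
      refine Finset.sum_congr rfl fun h _ => ?_
      rw [hw]
      simp only
      rw [← smul_eq_mul, ← Finset.sum_const]
      refine Finset.sum_congr rfl fun x hx => ?_
      rw [(Finset.mem_filter.1 hx).2]
    rw [h1, Nat.cast_sum, Finset.sum_filter, ← Finset.sum_add_distrib]
    refine Finset.sum_le_sum fun h hh => ?_
    have hkc : k ≤ c h := by
      obtain ⟨x, hx, rfl⟩ := Finset.mem_image.1 hh
      exact (Finset.mem_filter.1 hx).2
    push_cast
    have hc0 : (0 : ℝ) ≤ c h := Nat.cast_nonneg _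
    have hw0 : (0 : ℝ) ≤ w h := Nat.cast_nonneg _
    rcases le_total (w h) (c h) with h3 | h3
    · have h4 : (w h : ℝ) ≤ c h := by exact_mod_cast h3
      have h5 : (0 : ℝ) ≤ if k ≤ w h then (w h : ℝ) ^ 2 else 0 := by
        split_ifs
        · positivity
        · exact le_rfl
      nlinarith
    · have h4 : (c h : ℝ) ≤ w h := by exact_mod_cast h3
      rw [if_pos (hkc.trans h3)]
      nlinarith [sq_nonneg (c h : ℝ)]
  have hm1 : (∑ h ∈ H, ((c h : ℝ) ^ 2)) * (k : ℝ) ^ 3 ≤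
      2 ^ 30 * ((S'.card : ℝ) * T'.card) ^ 3 := by
    refine second_moment S' T' H hk ?_
    intro h hh
    obtain ⟨x, hx, rfl⟩ := Finset.mem_image.1 hh
    exact ⟨hne x (Finset.mem_filter.1 hx).1, (Finset.mem_filter.1 hx).2⟩
  have hm2 : (∑ h ∈ H.filter (fun h => k ≤ w h), ((w h : ℝ) ^ 2)) * (k : ℝ) ^ 3 ≤
      2 ^ 30 * ((S'.card : ℝ) * T'.card) ^ 3 := by
    set n : ℝ × ℝ × ℝ → ℝ × ℝ × ℝ := fun h => (h.1, h.2.1, l ^ 2 * h.2.2 / e) with hn
    have hninj : Function.Injective n := by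
      intro h h' hhh
      simp only [hn, Prod.mk.injEq] at hhh
      obtain ⟨h1, h2, h3⟩ := hhh
      refine Prod.ext h1 (Prod.ext h2 ?_)
      rw [div_left_inj' he] at h3
      exact mul_left_cancel₀ (pow_ne_zero 2 hl) h3
    have hwn : ∀ h, w h ≤ (pts S T (n h)).card := by
      intro h
      refine Finset.card_le_card_of_injOn (fun x => x.2) ?_ ?_
      · intro x hx
        obtain ⟨k1, k2⟩ := Finset.mem_filter.1 (Finset.mem_coe.1 hx)
        have k3 := (Finset.mem_filter.1 k1).1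
        obtain ⟨-, k4⟩ := Finset.mem_product.1 k3
        obtain ⟨k5, k6⟩ := Finset.mem_product.1 k4
        refine Finset.mem_coe.2 (mem_pts.2 ⟨k5, k6, ?_⟩)
        rw [← k2, hn, hF]
        simp only [hypT]
        field_simp
        ring
      · intro x hx x' hx' hxx
        have k2 := (Finset.mem_filter.1 (Finset.mem_coe.1 hx)).2
        have k2' := (Finset.mem_filter.1 (Finset.mem_coe.1 hx')).2
        simp only at hxx
        have k3 : F x = F x' := by rw [k2, k2']
        rw [hF] at k3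
        simp only [hypT, Prod.mk.injEq, hxx, add_left_inj] at k3
        obtain ⟨k4, k5, -⟩ := k3
        have k6 := mul_left_cancel₀ hl k4
        have k7 := mul_left_cancel₀ hl k5
        refine Prod.ext (Prod.ext ?_ ?_) hxx <;> linarith
    have h1 : ∑ h ∈ H.filter (fun h => k ≤ w h), ((w h : ℝ) ^ 2) ≤
        ∑ g ∈ (H.filter (fun h => k ≤ w h)).image n, (((pts S T g).card : ℝ) ^ 2) := by
      rw [Finset.sum_image (fun _ _ _ _ h => hninj h)]
      refine Finset.sum_le_sum fun h _ => ?_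
      exact pow_le_pow_left₀ (Nat.cast_nonneg _) (by exact_mod_cast hwn h) 2
    have h2 := second_moment S T ((H.filter (fun h => k ≤ w h)).image n) hk (by
      intro g hg
      obtain ⟨h, hh, rfl⟩ := Finset.mem_image.1 hg
      obtain ⟨k1, k2⟩ := Finset.mem_filter.1 hh
      obtain ⟨x, hx, rfl⟩ := Finset.mem_image.1 k1
      refine ⟨?_, k2.trans (hwn _)⟩
      exact div_ne_zero (mul_ne_zero (pow_ne_zero 2 hl)
        (hne x (Finset.mem_filter.1 hx).1)) he)
    calc _ ≤ (∑ g ∈ (H.filter (fun h => k ≤ w h)).image n, (((pts S T g).card : ℝ) ^ 2)) *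
          (k : ℝ) ^ 3 := mul_le_mul_of_nonneg_right h1 (by positivity)
      _ ≤ 2 ^ 30 * ((S.card : ℝ) * T.card) ^ 3 := h2
      _ ≤ _ := by gcongr
  have hsum : ∑ x ∈ Om, c (F x) = ∑ x ∈ Om₁, c (F x) + ∑ x ∈ Om₂, c (F x) :=
    (Finset.sum_filter_add_sum_filter_not Om _ _).symm
  have hA : ((∑ v ∈ V, (pts S T (hyp l e v)).card : ℕ) : ℝ) * ((S.card : ℝ) * T.card) ≤
      ((∑ x ∈ Om₁, c (F x) : ℕ) : ℝ) + k * (V.card * ((S.card : ℝ) * T.card)) := by
    have h1 : (∑ v ∈ V, (pts S T (hyp l e v)).card) * (S.card * T.card) ≤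
        ∑ x ∈ Om₁, c (F x) + k * (V.card * (S.card * T.card)) := by
      rw [hsum] at hlow
      omega
    exact_mod_cast h1
  have hB : (((∑ v ∈ V, (pts S T (hyp l e v)).card : ℕ) : ℝ) - k * V.card) *
      ((S.card : ℝ) * T.card) ≤ ∑ h ∈ H, ((c h : ℝ) ^ 2) +
      ∑ h ∈ H.filter (fun h => k ≤ w h), ((w h : ℝ) ^ 2) := by
    linarith
  calc _ ≤ (∑ h ∈ H, ((c h : ℝ) ^ 2) +
      ∑ h ∈ H.filter (fun h => k ≤ w h), ((w h : ℝ) ^ 2)) * (k : ℝ) ^ 3 :=
        mul_le_mul_of_nonneg_right hB (by positivity)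
    _ ≤ _ := by
        rw [add_mul]
        linarith

end Pool.Agent.MP_d807e3_co.Comb
end

section

/-!
Consecutive points on the levels of a function: proximity.
-/

namespace Pool.Agent.MP_d807e3_co.Prox

open Finset

open scoped Classical in
/-- The pairs of consecutive points on a level of `f`, ordered by the first coordinate. -/
noncomputable def con (G : Finset (ℝ × ℝ)) (f : ℝ × ℝ → ℝ) : Finset ((ℝ × ℝ) × (ℝ × ℝ)) :=
  (G ×ˢ G).filter (fun z => f z.1 = f z.2 ∧ z.1.1 < z.2.1 ∧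
    ∀ r ∈ G, f r = f z.1 → ¬ (z.1.1 < r.1 ∧ r.1 < z.2.1))

lemma mem_con {G : Finset (ℝ × ℝ)} {f : ℝ × ℝ → ℝ} {z : (ℝ × ℝ) × (ℝ × ℝ)} :
    z ∈ con G f ↔ z.1 ∈ G ∧ z.2 ∈ G ∧ f z.1 = f z.2 ∧ z.1.1 < z.2.1 ∧
      ∀ r ∈ G, f r = f z.1 → ¬ (z.1.1 < r.1 ∧ r.1 < z.2.1) := by
  unfold con
  rw [Finset.mem_filter, Finset.mem_product, and_assoc]

/-- The number of consecutive pairs. -/
lemma con_count {G : Finset (ℝ × ℝ)} {f : ℝ × ℝ → ℝ}
    (hinj : ∀ p ∈ G, ∀ q ∈ G, f p = f q → p.1 = q.1 → p = q) :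
    G.card ≤ (con G f).card + (G.image f).card := by
  classical
  set S := G.filter (fun p => ∃ q ∈ G, f q = f p ∧ p.1 < q.1) with hS
  set S' := G.filter (fun p => ¬ ∃ q ∈ G, f q = f p ∧ p.1 < q.1) with hS'
  have h1 : G.card = S.card + S'.card := (Finset.card_filter_add_card_filter_not _).symm
  have h2 : S.card ≤ (con G f).card := by
    have h3 : S ⊆ (con G f).image Prod.fst := by
      intro p hp
      obtain ⟨hpG, q, hq, hfq, hlt⟩ := Finset.mem_filter.1 hp
      obtain ⟨r, hr, hmin⟩ := Finset.exists_min_image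
        (G.filter (fun q => f q = f p ∧ p.1 < q.1)) Prod.fst
        ⟨q, Finset.mem_filter.2 ⟨hq, hfq, hlt⟩⟩
      obtain ⟨hrG, hfr, hlr⟩ := Finset.mem_filter.1 hr
      refine Finset.mem_image.2 ⟨(p, r), mem_con.2 ⟨hpG, hrG, hfr.symm, hlr, ?_⟩, rfl⟩
      intro w hw hfw ⟨h4, h5⟩
      have h6 := hmin w (Finset.mem_filter.2 ⟨hw, hfw, h4⟩)
      exact absurd h5 (not_lt.2 h6)
    exact (Finset.card_le_card h3).trans Finset.card_image_le
  have h4 : S'.card ≤ (G.image f).card := by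
    refine Finset.card_le_card_of_injOn f ?_ ?_
    · intro p hp
      exact Finset.mem_coe.2 (Finset.mem_image_of_mem f
        (Finset.mem_filter.1 (Finset.mem_coe.1 hp)).1)
    · intro p hp q hq hpq
      obtain ⟨hp1, hp2⟩ := Finset.mem_filter.1 (Finset.mem_coe.1 hp)
      obtain ⟨hq1, hq2⟩ := Finset.mem_filter.1 (Finset.mem_coe.1 hq)
      rcases lt_trichotomy p.1 q.1 with h | h | h
      · exact absurd ⟨q, hq1, hpq.symm, h⟩ hp2
      · exact hinj p hp1 q hq1 hpq h
      · exact absurd ⟨p, hp1, hpq, h⟩ hq2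
  omega

/-- Intervals between consecutive points of a level are disjoint. -/
lemma con_mass {G : Finset (ℝ × ℝ)} {f : ℝ × ℝ → ℝ} {μ : Type*} [DecidableEq μ]
    (hinj : ∀ p ∈ G, ∀ q ∈ G, f p = f q → p.1 = q.1 → p = q)
    (g : ℝ × ℝ → ℝ) (hg : ∀ p ∈ G, ∀ q ∈ G, f p = f q → p.1 < q.1 → g p < g q)
    (M : Finset μ) (val : μ → ℝ) :
    ∑ z ∈ con G f, (M.filter (fun m => g z.1 < val m ∧ val m ≤ g z.2)).card ≤
      (G.image f).card * M.card := by
  classical
  have h1 : ∑ z ∈ con G f, (M.filter (fun m => g z.1 < val m ∧ val m ≤ g z.2)).card =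
      ((con G f).sigma (fun z => M.filter (fun m => g z.1 < val m ∧ val m ≤ g z.2))).card := by
    rw [Finset.card_sigma]
  rw [h1, ← Finset.card_product]
  refine Finset.card_le_card_of_injOn (fun w => (f w.1.1, w.2)) ?_ ?_
  · rintro ⟨z, m⟩ hw
    obtain ⟨hz, hm⟩ := Finset.mem_sigma.1 (Finset.mem_coe.1 hw)
    have hz' := mem_con.1 hz
    exact Finset.mem_coe.2 (Finset.mem_product.2 ⟨Finset.mem_image_of_mem f hz'.1,
      (Finset.mem_filter.1 hm).1⟩)
  · rintro ⟨z, m⟩ hw ⟨z', m'⟩ hw' heq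
    obtain ⟨hz, hm⟩ := Finset.mem_sigma.1 (Finset.mem_coe.1 hw)
    obtain ⟨hz', hm'⟩ := Finset.mem_sigma.1 (Finset.mem_coe.1 hw')
    simp only [Prod.mk.injEq] at heq
    obtain ⟨h2, h3⟩ := heq
    subst h3
    obtain ⟨a1, a2, a3, a4, a5⟩ := mem_con.1 hz
    obtain ⟨b1, b2, b3, b4, b5⟩ := mem_con.1 hz'
    obtain ⟨-, c1, c2⟩ := Finset.mem_filter.1 hm
    obtain ⟨-, d1, d2⟩ := Finset.mem_filter.1 hm'
    simp only at a1 a2 a3 a4 a5 b1 b2 b3 b4 b5 c1 c2 d1 d2 h2
    have hle : ∀ p ∈ G, ∀ q ∈ G, f p = f q → p.1 ≤ q.1 → g p ≤ g q := by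
      intro p hp q hq hpq hle
      rcases hle.lt_or_eq with h | h
      · exact (hg p hp q hq hpq h).le
      · rw [hinj p hp q hq hpq h]
    have key : z.1.1 = z'.1.1 := by
      rcases lt_trichotomy z.1.1 z'.1.1 with h | h | h
      · have h4 : z.2.1 ≤ z'.1.1 := by
          by_contra h5
          exact a5 z'.1 b1 h2.symm ⟨h, not_le.1 h5⟩
        have h5 := hle z.2 a2 z'.1 b1 (by rw [← a3, h2]) h4
        linarith
      · exact h
      · have h4 : z'.2.1 ≤ z.1.1 := by
          by_contra h5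
          exact b5 z.1 a1 h2 ⟨h, not_le.1 h5⟩
        have h5 := hle z'.2 b2 z.1 a1 (by rw [← b3, h2]) h4
        linarith
    have e1 : z.1 = z'.1 := hinj _ a1 _ b1 h2 key
    have e2 : z.2.1 = z'.2.1 := by
      rcases lt_trichotomy z.2.1 z'.2.1 with h | h | h
      · exact absurd ⟨by rw [← key]; exact a4, h⟩ (b5 z.2 a2 (by rw [← a3, h2]))
      · exact h
      · exact absurd ⟨by rw [key]; exact b4, h⟩ (a5 z'.2 b2 (by rw [← b3, h2]))
    have e3 : z.2 = z'.2 := hinj _ a2 _ b2 (by rw [← a3, ← b3, h2]) e2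
    have e4 : z = z' := Prod.ext e1 e3
    subst e4
    rfl

/-- Few consecutive pairs are far apart. -/
lemma con_bad {G : Finset (ℝ × ℝ)} {f : ℝ × ℝ → ℝ} {μ : Type*} [DecidableEq μ]
    (hinj : ∀ p ∈ G, ∀ q ∈ G, f p = f q → p.1 = q.1 → p = q)
    (g : ℝ × ℝ → ℝ) (hg : ∀ p ∈ G, ∀ q ∈ G, f p = f q → p.1 < q.1 → g p < g q)
    (M : Finset μ) (val : μ → ℝ) (R : ℝ) :
    (((con G f).filter (fun z =>
      R < ((M.filter (fun m => g z.1 < val m ∧ val m ≤ g z.2)).card : ℝ))).card : ℝ) * R ≤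
      (G.image f).card * M.card := by
  classical
  have h1 := con_mass hinj g hg M val
  have h2 : ((∑ z ∈ con G f, (M.filter (fun m => g z.1 < val m ∧ val m ≤ g z.2)).card : ℕ) : ℝ) ≤
      (((G.image f).card * M.card : ℕ) : ℝ) := by exact_mod_cast h1
  push_cast at h2
  refine le_trans ?_ h2
  calc _ = ∑ z ∈ (con G f).filter (fun z =>
      R < ((M.filter (fun m => g z.1 < val m ∧ val m ≤ g z.2)).card : ℝ)), R := by
        rw [Finset.sum_const, nsmul_eq_mul]
    _ ≤ ∑ z ∈ (con G f).filter (fun z =>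
      R < ((M.filter (fun m => g z.1 < val m ∧ val m ≤ g z.2)).card : ℝ)),
        ((M.filter (fun m => g z.1 < val m ∧ val m ≤ g z.2)).card : ℝ) :=
        Finset.sum_le_sum fun z hz => (Finset.mem_filter.1 hz).2.le
    _ ≤ _ := Finset.sum_le_sum_of_subset_of_nonneg (Finset.filter_subset _ _)
        (fun _ _ _ => Nat.cast_nonneg _)

end Pool.Agent.MP_d807e3_co.Prox
end

section

/-!
Small differences of a set with small doubling.
-/

namespace Pool.Agent.MP_d807e3_co.Struct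

open Finset
open scoped Pointwise Combinatorics.Additive

/-- The number of pairs at distance at most `t`. -/
noncomputable def rho (A : Finset ℝ) (t : ℝ) : ℕ :=
  ((A ×ˢ A).filter (fun z => 0 < z.2 - z.1 ∧ z.2 - z.1 ≤ t)).card

/-- The small differences. -/
noncomputable def sd (A : Finset ℝ) (R : ℝ) : Finset ℝ :=
  (A - A).filter (fun t => 0 < t ∧ (rho A t : ℝ) ≤ R)

lemma mem_sd {A : Finset ℝ} {R t : ℝ} :
    t ∈ sd A R ↔ t ∈ A - A ∧ 0 < t ∧ (rho A t : ℝ) ≤ R := by
  unfold sd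
  rw [Finset.mem_filter]

/-- There are many small differences. -/
lemma sd_lower (A : Finset ℝ) {R : ℝ} (hR1 : (A.card : ℝ) ≤ R)
    (hR2 : R ≤ 2 * A.card * (A.card - 1)) : R ≤ 2 * (A.card * (sd A R).card) := by
  classical
  rcases A.eq_empty_or_nonempty with h0 | h0
  · subst h0
    simp only [Finset.card_empty, Nat.cast_zero, mul_zero, zero_mul] at hR2 ⊢
    exact hR2
  have hn : 0 < A.card := Finset.card_pos.2 h0
  have hn' : (0 : ℝ) < A.card := by exact_mod_cast hn
  by_cases hex : ∃ d ∈ A - A, 0 < d ∧ R < rho A d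
  · obtain ⟨d₀, hd₀, hd₀p, hd₀R⟩ := hex
    obtain ⟨d, hd, hmin⟩ := Finset.exists_min_image
      ((A - A).filter (fun d => 0 < d ∧ R < rho A d)) id
      ⟨d₀, Finset.mem_filter.2 ⟨hd₀, hd₀p, hd₀R⟩⟩
    obtain ⟨hd1, hd2, hd3⟩ := Finset.mem_filter.1 hd
    have h1 : rho A d ≤ A.card * (sd A R).card + A.card := by
      have h2 : (A ×ˢ A).filter (fun z => 0 < z.2 - z.1 ∧ z.2 - z.1 ≤ d) ⊆
          (A ×ˢ A).filter (fun z => 0 < z.2 - z.1 ∧ z.2 - z.1 < d) ∪
          (A ×ˢ A).filter (fun z => z.2 - z.1 = d) := by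
        intro z hz
        obtain ⟨k1, k2, k3⟩ := Finset.mem_filter.1 hz
        rcases k3.lt_or_eq with h | h
        · exact Finset.mem_union_left _ (Finset.mem_filter.2 ⟨k1, k2, h⟩)
        · exact Finset.mem_union_right _ (Finset.mem_filter.2 ⟨k1, h⟩)
      have h3 : ((A ×ˢ A).filter (fun z => 0 < z.2 - z.1 ∧ z.2 - z.1 < d)).card ≤
          A.card * (sd A R).card := by
        rw [← Finset.card_product]
        refine Finset.card_le_card_of_injOn (fun z => (z.1, z.2 - z.1)) ?_ ?_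
        · intro z hz
          obtain ⟨k1, k2, k3⟩ := Finset.mem_filter.1 (Finset.mem_coe.1 hz)
          obtain ⟨k4, k5⟩ := Finset.mem_product.1 k1
          refine Finset.mem_coe.2 (Finset.mem_product.2 ⟨k4, mem_sd.2 ⟨?_, k2, ?_⟩⟩)
          · exact Finset.sub_mem_sub k5 k4
          · by_contra hcon
            have h4 := hmin (z.2 - z.1) (Finset.mem_filter.2
              ⟨Finset.sub_mem_sub k5 k4, k2, not_le.1 hcon⟩)
            simp only [id] at h4
            linarith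
        · intro z _ w _ hzw
          simp only [Prod.mk.injEq] at hzw
          obtain ⟨h4, h5⟩ := hzw
          exact Prod.ext h4 (by linarith)
      have h4 : ((A ×ˢ A).filter (fun z => z.2 - z.1 = d)).card ≤ A.card := by
        refine Finset.card_le_card_of_injOn (fun z => z.1) ?_ ?_
        · intro z hz
          exact Finset.mem_coe.2
            (Finset.mem_product.1 (Finset.mem_filter.1 (Finset.mem_coe.1 hz)).1).1
        · intro z hz w hw hzw
          have k1 := (Finset.mem_filter.1 (Finset.mem_coe.1 hz)).2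
          have k2 := (Finset.mem_filter.1 (Finset.mem_coe.1 hw)).2
          simp only at hzw
          exact Prod.ext hzw (by linarith)
      unfold rho
      exact (Finset.card_le_card h2).trans ((Finset.card_union_le _ _).trans
        (Nat.add_le_add h3 h4))
    have h5 : (rho A d : ℝ) ≤ A.card * (sd A R).card + A.card := by exact_mod_cast h1
    rcases Nat.eq_zero_or_pos (sd A R).card with h6 | h6
    · rw [h6] at h5
      simp only [Nat.cast_zero, mul_zero, zero_add] at h5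
      linarith
    · have h7 : (1 : ℝ) ≤ (sd A R).card := by exact_mod_cast h6
      nlinarith
  · push Not at hex
    have h1 : A.card - 1 ≤ (sd A R).card := by
      obtain ⟨a₀, ha₀, hmin⟩ := Finset.exists_min_image A id h0
      rw [← Finset.card_erase_of_mem ha₀]
      refine Finset.card_le_card_of_injOn (fun a => a - a₀) ?_ ?_
      · intro a ha
        obtain ⟨k1, k2⟩ := Finset.mem_erase.1 (Finset.mem_coe.1 ha)
        have k3 : a₀ ≤ a := hmin a k2
        have k4 : 0 < a - a₀ := by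
          rcases k3.lt_or_eq with h | h
          · linarith
          · exact absurd h.symm k1
        have k5 : a - a₀ ∈ A - A := Finset.sub_mem_sub k2 ha₀
        exact Finset.mem_coe.2 (mem_sd.2 ⟨k5, k4, hex _ k5 k4⟩)
      · intro a _ a' _ h
        simp only at h
        linarith
    have h2 : (A.card : ℝ) - 1 ≤ (sd A R).card := by
      have h3 : A.card ≤ (sd A R).card + 1 := by omega
      have h4 : (A.card : ℝ) ≤ (sd A R).card + 1 := by exact_mod_cast h3
      linarith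
    refine hR2.trans ?_
    nlinarith

/-- A set of small diameter has large sumset. -/
lemma sumset_lower (A U : Finset ℝ) {δ : ℝ} (hU : ∀ u ∈ U, ∀ u' ∈ U, u - u' < δ) :
    (A.card : ℝ) ^ 2 * U.card ≤ ((A + U).card : ℝ) * (A.card + 2 * rho A δ) := by
  classical
  rcases U.eq_empty_or_nonempty with h0 | h0
  · subst h0
    simp
  have hU0 : (0 : ℝ) < U.card := by exact_mod_cast Finset.card_pos.2 h0
  have h1 := Finset.le_card_add_mul_addEnergy A U
  have h2 : E[A, U] ≤ (A.card + 2 * rho A δ) * U.card := by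
    set N := (A ×ˢ A).filter (fun z => z.2 - z.1 < δ ∧ z.1 - z.2 < δ) with hN
    have h3 : E[A, U] ≤ N.card * U.card := by
      rw [← Finset.card_product]
      unfold Finset.addEnergy
      refine Finset.card_le_card_of_injOn (fun x => (x.1, x.2.1)) ?_ ?_
      · intro x hx
        obtain ⟨k1, k2⟩ := Finset.mem_filter.1 (Finset.mem_coe.1 hx)
        obtain ⟨k3, k4⟩ := Finset.mem_product.1 k1
        obtain ⟨k5, k6⟩ := Finset.mem_product.1 k4
        refine Finset.mem_coe.2 (Finset.mem_product.2 ⟨Finset.mem_filter.2 ⟨k3, ?_, ?_⟩, k5⟩)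
        · have := hU _ k5 _ k6
          linarith
        · have := hU _ k6 _ k5
          linarith
      · intro x hx y hy hxy
        have k1 := (Finset.mem_filter.1 (Finset.mem_coe.1 hx)).2
        have k2 := (Finset.mem_filter.1 (Finset.mem_coe.1 hy)).2
        simp only [Prod.mk.injEq] at hxy
        obtain ⟨k3, k4⟩ := hxy
        refine Prod.ext k3 (Prod.ext k4 ?_)
        have k5 : x.1.1 = y.1.1 := by rw [k3]
        have k6 : x.1.2 = y.1.2 := by rw [k3]
        linarith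
    have h4 : N.card ≤ A.card + 2 * rho A δ := by
      have h5 : N ⊆ (A ×ˢ A).filter (fun z => z.1 = z.2) ∪
          ((A ×ˢ A).filter (fun z => 0 < z.2 - z.1 ∧ z.2 - z.1 ≤ δ) ∪
           (A ×ˢ A).filter (fun z => 0 < z.1 - z.2 ∧ z.1 - z.2 ≤ δ)) := by
        intro z hz
        obtain ⟨k1, k2, k3⟩ := Finset.mem_filter.1 hz
        rcases lt_trichotomy z.1 z.2 with h | h | h
        · exact Finset.mem_union_right _ (Finset.mem_union_left _
            (Finset.mem_filter.2 ⟨k1, by linarith, k2.le⟩))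
        · exact Finset.mem_union_left _ (Finset.mem_filter.2 ⟨k1, h⟩)
        · exact Finset.mem_union_right _ (Finset.mem_union_right _
            (Finset.mem_filter.2 ⟨k1, by linarith, k3.le⟩))
      have h6 : ((A ×ˢ A).filter (fun z => z.1 = z.2)).card ≤ A.card := by
        refine Finset.card_le_card_of_injOn (fun z => z.1) ?_ ?_
        · intro z hz
          exact Finset.mem_coe.2
            (Finset.mem_product.1 (Finset.mem_filter.1 (Finset.mem_coe.1 hz)).1).1
        · intro z hz w hw hzw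
          have k1 := (Finset.mem_filter.1 (Finset.mem_coe.1 hz)).2
          have k2 := (Finset.mem_filter.1 (Finset.mem_coe.1 hw)).2
          simp only at hzw
          exact Prod.ext hzw (by rw [← k1, ← k2, hzw])
      have h7 : ((A ×ˢ A).filter (fun z => 0 < z.1 - z.2 ∧ z.1 - z.2 ≤ δ)).card ≤ rho A δ := by
        unfold rho
        refine Finset.card_le_card_of_injOn (fun z => (z.2, z.1)) ?_ ?_
        · intro z hz
          obtain ⟨k1, k2, k3⟩ := Finset.mem_filter.1 (Finset.mem_coe.1 hz)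
          obtain ⟨k4, k5⟩ := Finset.mem_product.1 k1
          exact Finset.mem_coe.2 (Finset.mem_filter.2 ⟨Finset.mem_product.2 ⟨k5, k4⟩, k2, k3⟩)
        · intro z _ w _ hzw
          simp only [Prod.mk.injEq] at hzw
          exact Prod.ext hzw.2 hzw.1
      calc N.card ≤ _ := Finset.card_le_card h5
        _ ≤ A.card + (rho A δ + rho A δ) := by
            refine (Finset.card_union_le _ _).trans (Nat.add_le_add h6 ?_)
            exact (Finset.card_union_le _ _).trans (Nat.add_le_add le_rfl h7)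
        _ = _ := by ring
    exact h3.trans (Nat.mul_le_mul_right _ h4)
  have h3 : (A.card : ℝ) ^ 2 * (U.card : ℝ) ^ 2 ≤
      ((A + U).card : ℝ) * ((A.card + 2 * rho A δ) * U.card) := by
    have h4 := h1.trans (Nat.mul_le_mul_left _ h2)
    exact_mod_cast h4
  have h4 : ((A.card : ℝ) ^ 2 * U.card) * U.card ≤
      (((A + U).card : ℝ) * (A.card + 2 * rho A δ)) * U.card := by
    calc ((A.card : ℝ) ^ 2 * U.card) * U.card = (A.card : ℝ) ^ 2 * (U.card : ℝ) ^ 2 := by ring
      _ ≤ _ := h3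
      _ = _ := by ring
  exact le_of_mul_le_mul_right h4 hU0

/-- Pluennecke's inequality. -/
lemma pluennecke5 (A : Finset ℝ) (K : ℝ) (hK : ((A + A).card : ℝ) ≤ K * A.card) :
    (((A + ((A - A) + (A - A))).card : ℝ) ≤ K ^ 5 * A.card) ∧
      ((((A + A) + (A + A)).card : ℝ) ≤ K ^ 4 * A.card) := by
  classical
  rcases A.eq_empty_or_nonempty with h | h
  · subst h; simp
  have hA : (0 : ℝ) < A.card := by exact_mod_cast Finset.card_pos.2 h
  have hq : ((A + A).card : ℝ) / A.card ≤ K := by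
    rw [div_le_iff₀ hA]; exact hK
  have hq0 : (0 : ℝ) ≤ ((A + A).card : ℝ) / A.card := by positivity
  constructor
  · have h1 := Finset.pluennecke_ruzsa_inequality_nsmul_sub_nsmul_add h A 3 2
    have h2 : A + ((A - A) + (A - A)) = 3 • A - 2 • A := by
      have h3 : (3 : ℕ) • A = A + 2 • A := by
        rw [show (3 : ℕ) = 2 + 1 from rfl, succ_nsmul']
      rw [h3, two_nsmul, add_sub_assoc, add_sub_add_comm]
    rw [← h2] at h1
    have h3 : (((A + ((A - A) + (A - A))).card : ℝ)) ≤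
        (((A + A).card : ℝ) / A.card) ^ 5 * A.card := by
      have h4 := (NNRat.cast_le (K := ℝ)).2 h1
      push_cast at h4
      simpa using h4
    refine h3.trans ?_
    gcongr
  · have h1 := Finset.pluennecke_ruzsa_inequality_nsmul_add h A 4
    have h2 : (A + A) + (A + A) = 4 • A := by
      rw [← two_nsmul, ← two_nsmul, ← mul_nsmul]
    rw [← h2] at h1
    have h3 : ((((A + A) + (A + A)).card : ℝ)) ≤ (((A + A).card : ℝ) / A.card) ^ 4 * A.card := by
      have h4 := (NNRat.cast_le (K := ℝ)).2 h1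
      push_cast at h4
      simpa using h4
    refine h3.trans ?_
    gcongr

/-- There are few sums of two small differences. -/
lemma sd_upper (A : Finset ℝ) {K R : ℝ} (hA : A.Nonempty) (hR : 0 ≤ R)
    (hK : ((A + A).card : ℝ) ≤ K * A.card) :
    (A.card : ℝ) * (sd A R + sd A R).card ≤ 2 * (K ^ 5 * (A.card + 2 * R)) := by
  classical
  have hn : (0 : ℝ) < A.card := by exact_mod_cast Finset.card_pos.2 hA
  have hK0 : 0 ≤ K := by
    by_contra hcon
    push Not at hcon
    have h1 : (0 : ℝ) ≤ (A + A).card := Nat.cast_nonneg _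
    nlinarith
  set T := sd A R with hT
  rcases T.eq_empty_or_nonempty with h0 | h0
  · rw [h0]
    simp only [Finset.add_empty, Finset.card_empty, Nat.cast_zero, mul_zero]
    positivity
  obtain ⟨δ, hδ, hmax⟩ := Finset.exists_max_image T id h0
  have hδ' := mem_sd.1 hδ
  set U := T + T with hU
  have hAU : ((A + U).card : ℝ) ≤ K ^ 5 * A.card := by
    refine le_trans ?_ (pluennecke5 A K hK).1
    have h1 : T ⊆ A - A := Finset.filter_subset _ _
    exact_mod_cast Finset.card_le_card (Finset.add_subset_add_left (Finset.add_subset_add h1 h1))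
  have hUb : ∀ u ∈ U, 0 < u ∧ u ≤ 2 * δ := by
    intro u hu
    obtain ⟨t, ht, t', ht', rfl⟩ := Finset.mem_add.1 hu
    have h1 := (mem_sd.1 ht).2.1
    have h2 := (mem_sd.1 ht').2.1
    have h3 := hmax t ht
    have h4 := hmax t' ht'
    simp only [id] at h3 h4
    constructor <;> linarith
  have key : ∀ W ⊆ U, (∀ u ∈ W, ∀ u' ∈ W, u - u' < δ) →
      (A.card : ℝ) * W.card ≤ K ^ 5 * (A.card + 2 * R) := by
    intro W hW hd
    have h1 := sumset_lower A W hd
    have h2 : ((A + W).card : ℝ) ≤ K ^ 5 * A.card :=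
      le_trans (by exact_mod_cast Finset.card_le_card (Finset.add_subset_add_left hW)) hAU
    have h3 : (A.card : ℝ) ^ 2 * W.card ≤ (K ^ 5 * A.card) * (A.card + 2 * R) := by
      refine h1.trans (mul_le_mul h2 ?_ (by positivity) (by positivity))
      have := hδ'.2.2
      linarith
    have h4 : (A.card : ℝ) * (A.card * W.card) ≤
        (A.card : ℝ) * (K ^ 5 * (A.card + 2 * R)) := by
      calc (A.card : ℝ) * (A.card * W.card) = (A.card : ℝ) ^ 2 * W.card := by ring
        _ ≤ _ := h3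
        _ = _ := by ring
    exact le_of_mul_le_mul_left h4 hn
  have h1 := key (U.filter (fun u => u ≤ δ)) (Finset.filter_subset _ _) (by
    intro u hu u' hu'
    obtain ⟨k1, k2⟩ := Finset.mem_filter.1 hu
    obtain ⟨k3, k4⟩ := Finset.mem_filter.1 hu'
    have := (hUb u' k3).1
    linarith)
  have h2 := key (U.filter (fun u => ¬ u ≤ δ)) (Finset.filter_subset _ _) (by
    intro u hu u' hu'
    obtain ⟨k1, k2⟩ := Finset.mem_filter.1 hu
    obtain ⟨k3, k4⟩ := Finset.mem_filter.1 hu'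
    have := (hUb u k1).2
    linarith)
  have h3 : (U.card : ℝ) = (U.filter (fun u => u ≤ δ)).card +
      (U.filter (fun u => ¬ u ≤ δ)).card := by
    exact_mod_cast (Finset.card_filter_add_card_filter_not (s := U) (fun u => u ≤ δ)).symm
  rw [h3, mul_add]
  linarith

end Pool.Agent.MP_d807e3_co.Struct
end
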